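import Mathlib

set_option autoImplicit false
open Finset Filter Topology

namespace Pool.Agent.Helper256.Ball


/-- Markov type p with multiplicative constant C. -/
def MT (X : Type*) [NormedAddCommGroup X] (p C : ℝ) : Prop :=
  ∀ (n : ℕ) (A : Matrix (Fin n) (Fin n) ℝ) (μ : Fin n → ℝ),
    (∀ i j, 0 ≤ A i j) → (∀ i, ∑ j, A i j = 1) → (∀ i, 0 ≤ μ i) → ∑ i, μ i = 1 →
    (∀ i j, μ i * A i j = μ j * A j i) → ∀ (f : Fin n → X) (t : ℕ), 1 ≤ t →
      ∑ i, ∑ j, μ i * (A ^ t) i j * ‖f i - f j‖ ^ p ≤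
        C * t * ∑ i, ∑ j, μ i * A i j * ‖f i - f j‖ ^ p

/-- Markov type inequality for chains on an arbitrary finite type. -/
theorem MT.fintype {X : Type*} [NormedAddCommGroup X] {p C : ℝ} (hX : MT X p C) {ι : Type} [Fintype ι]
    [DecidableEq ι] (A : Matrix ι ι ℝ) (μ : ι → ℝ)
    (h0 : ∀ i j, 0 ≤ A i j) (h1 : ∀ i, ∑ j, A i j = 1) (h2 : ∀ i, 0 ≤ μ i) (h3 : ∑ i, μ i = 1)
    (h4 : ∀ i j, μ i * A i j = μ j * A j i) (f : ι → X) (t : ℕ) (ht : 1 ≤ t) :
    ∑ i, ∑ j, μ i * (A ^ t) i j * ‖f i - f j‖ ^ p ≤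
      C * t * ∑ i, ∑ j, μ i * A i j * ‖f i - f j‖ ^ p := by
  classical
  set e := Fintype.equivFin ι with he
  have hpow : ∀ k : ℕ, (A.submatrix e.symm e.symm) ^ k = (A ^ k).submatrix e.symm e.symm := by
    intro k
    have := map_pow (Matrix.reindexAlgEquiv ℝ ℝ e) A k
    simpa [Matrix.coe_reindexAlgEquiv, Matrix.reindex_apply] using this.symm
  have key := hX (Fintype.card ι) (A.submatrix e.symm e.symm) (fun i => μ (e.symm i))
    (fun i j => h0 _ _) (fun i => by
      simp only [Matrix.submatrix_apply]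
      rw [Equiv.sum_comp e.symm (fun j => A (e.symm i) j)]
      exact h1 _) (fun i => h2 _) (by
      rw [Equiv.sum_comp e.symm μ]
      exact h3) (fun i j => h4 _ _) (fun i => f (e.symm i)) t ht
  rw [hpow] at key
  simp only [Matrix.submatrix_apply] at key
  have e1 : ∀ B : Matrix ι ι ℝ,
      ∑ i : Fin (Fintype.card ι), ∑ j : Fin (Fintype.card ι),
        μ (e.symm i) * B (e.symm i) (e.symm j) * ‖f (e.symm i) - f (e.symm j)‖ ^ p =
      ∑ i, ∑ j, μ i * B i j * ‖f i - f j‖ ^ p := by
    intro B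
    rw [← Equiv.sum_comp e.symm (fun i => ∑ j, μ i * B i j * ‖f i - f j‖ ^ p)]
    refine Finset.sum_congr rfl fun i _ => ?_
    rw [← Equiv.sum_comp e.symm (fun j => μ (e.symm i) * B (e.symm i) j * ‖f (e.symm i) - f j‖ ^ p)]
  rw [e1 (A ^ t), e1 A] at key
  exact key



/-- Expected value of G (z + sum of the labels) over a t-step walk from v; w = transition probabilities of the directed edges. -/
noncomputable def Wk {V D : Type} [Fintype D] [DecidableEq V] (src tgt : D → V) (w : D → ℝ) {m : ℕ}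
    (h : D → Fin m → ℤ) (G : (Fin m → ℤ) → ℝ) : ℕ → V → (Fin m → ℤ) → ℝ
  | 0, _, z => G z
  | t + 1, v, z => ∑ e, if src e = v then w e * Wk src tgt w h G t (tgt e) (z + h e) else 0

/-- integer vector of a box point -/
def cocycle_kz {m N : ℕ} (k : Fin m → Fin N) : Fin m → ℤ := fun x => ((k x : ℕ) : ℤ)

theorem cocycle_kz_inj {m N : ℕ} {k k' : Fin m → Fin N} (h : cocycle_kz k = cocycle_kz k') :
    k = k' := by
  funext x
  have h1 := congrFun h x
  unfold cocycle_kz at h1
  apply Fin.ext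
  exact_mod_cast h1

/-- in the box -/
def cocycle_inb {m : ℕ} (N : ℕ) (z : Fin m → ℤ) : Prop := ∀ x, 0 ≤ z x ∧ z x < N

/-- the box point -/
def cocycle_bx {m : ℕ} (N : ℕ) (z : Fin m → ℤ) (hz : cocycle_inb N z) : Fin m → Fin N :=
  fun x => ⟨(z x).toNat, by have := hz x; omega⟩

theorem cocycle_kz_bx {m : ℕ} (N : ℕ) (z : Fin m → ℤ) (hz : cocycle_inb N z) :
    cocycle_kz (cocycle_bx N z hz) = z := by
  funext x
  unfold cocycle_kz cocycle_bx
  have := hz x
  simp only
  omega

theorem cocycle_kz_inb {m N : ℕ} (k : Fin m → Fin N) : cocycle_inb N (cocycle_kz k) := by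
  intro x
  unfold cocycle_kz
  have := (k x).2
  omega

open Classical in
/-- the move along the edge `e` in the box -/
noncomputable def cocycle_mv {V D : Type} {m : ℕ} (N : ℕ) (tgt : D → V) (h : D → Fin m → ℤ)
    (e : D) (i : V × (Fin m → Fin N)) : V × (Fin m → Fin N) :=
  if hz : cocycle_inb N (cocycle_kz i.2 + h e) then (tgt e, cocycle_bx N _ hz) else i

theorem cocycle_mv_in {V D : Type} {m : ℕ} (N : ℕ) (tgt : D → V) (h : D → Fin m → ℤ)
    (e : D) (i : V × (Fin m → Fin N)) (hz : cocycle_inb N (cocycle_kz i.2 + h e)) :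
    cocycle_mv N tgt h e i = (tgt e, cocycle_bx N _ hz) := by
  unfold cocycle_mv
  rw [dif_pos hz]

theorem cocycle_mv_out {V D : Type} {m : ℕ} (N : ℕ) (tgt : D → V) (h : D → Fin m → ℤ)
    (e : D) (i : V × (Fin m → Fin N)) (hz : ¬ cocycle_inb N (cocycle_kz i.2 + h e)) :
    cocycle_mv N tgt h e i = i := by
  unfold cocycle_mv
  rw [dif_neg hz]

/-- the transition matrix -/
noncomputable def cocycle_A {V D : Type} [Fintype D] [DecidableEq V] {m : ℕ} (N : ℕ)
    (src tgt : D → V) (w : D → ℝ) (h : D → Fin m → ℤ) :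
    Matrix (V × (Fin m → Fin N)) (V × (Fin m → Fin N)) ℝ :=
  fun i j => ∑ e, if src e = i.1 ∧ cocycle_mv N tgt h e i = j then w e else 0

theorem cocycle_A_sum {V D : Type} [Fintype V] [Fintype D] [DecidableEq V] {m : ℕ} (N : ℕ)
    (src tgt : D → V) (w : D → ℝ) (h : D → Fin m → ℤ) (G : V × (Fin m → Fin N) → ℝ)
    (i : V × (Fin m → Fin N)) :
    ∑ j, cocycle_A N src tgt w h i j * G j =
      ∑ e, if src e = i.1 then w e * G (cocycle_mv N tgt h e i) else 0 := by
  unfold cocycle_A
  simp only [Finset.sum_mul]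
  rw [Finset.sum_comm]
  refine Finset.sum_congr rfl fun e _ => ?_
  by_cases hs : src e = i.1
  · rw [if_pos hs, Finset.sum_eq_single (cocycle_mv N tgt h e i)]
    · rw [if_pos ⟨hs, rfl⟩]
    · intro j _ hj
      rw [if_neg (fun h' => hj h'.2.symm), zero_mul]
    · intro h'
      exact absurd (Finset.mem_univ _) h'
  · rw [if_neg hs]
    refine Finset.sum_eq_zero fun j _ => ?_
    rw [if_neg (fun h' => hs h'.1), zero_mul]

theorem cocycle_A_nonneg {V D : Type} [Fintype D] [DecidableEq V] {m : ℕ} (N : ℕ)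
    (src tgt : D → V) (w : D → ℝ) (h : D → Fin m → ℤ) (hw : ∀ e, 0 ≤ w e)
    (i j : V × (Fin m → Fin N)) : 0 ≤ cocycle_A N src tgt w h i j := by
  unfold cocycle_A
  refine Finset.sum_nonneg fun e _ => ?_
  split_ifs
  · exact hw e
  · exact le_rfl

theorem cocycle_pow_nonneg {ι : Type} [Fintype ι] [DecidableEq ι] (A : Matrix ι ι ℝ)
    (hA : ∀ i j, 0 ≤ A i j) (r : ℕ) : ∀ i j, 0 ≤ (A ^ r) i j := by
  induction r with
  | zero =>
    intro i j
    rw [pow_zero, Matrix.one_apply]
    split_ifs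
    · exact zero_le_one
    · exact le_rfl
  | succ r ih =>
    intro i j
    rw [pow_succ, Matrix.mul_apply]
    exact Finset.sum_nonneg fun l _ => mul_nonneg (ih i l) (hA l j)

theorem cocycle_bal {V D : Type} [Fintype D] [DecidableEq V] {m : ℕ} (N : ℕ)
    (src tgt : D → V) (rev : D → D) (w : D → ℝ) (μ : V → ℝ) (h : D → Fin m → ℤ)
    (hrev : ∀ e, rev (rev e) = e) (hsrc : ∀ e, src (rev e) = tgt e) (htgt : ∀ e, tgt (rev e) = src e)
    (hbal : ∀ e, μ (src e) * w e = μ (tgt e) * w (rev e)) (hh : ∀ e, h (rev e) = - h e)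
    (i j : V × (Fin m → Fin N)) :
    μ i.1 * cocycle_A N src tgt w h i j = μ j.1 * cocycle_A N src tgt w h j i := by
  by_cases hij : i = j
  · rw [hij]
  · have key : ∀ (i j : V × (Fin m → Fin N)), i ≠ j → ∀ e, src e = i.1 →
        cocycle_mv N tgt h e i = j → tgt e = j.1 ∧ src (rev e) = j.1 ∧
        cocycle_mv N tgt h (rev e) j = i := by
      intro i j hij e h1 h2
      have hz : cocycle_inb N (cocycle_kz i.2 + h e) := by
        by_contra hz
        rw [cocycle_mv_out N tgt h e i hz] at h2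
        exact hij h2
      rw [cocycle_mv_in N tgt h e i hz] at h2
      have h3 : tgt e = j.1 := by rw [← h2]
      have h4 : cocycle_kz j.2 = cocycle_kz i.2 + h e := by
        rw [← h2]
        exact cocycle_kz_bx N _ hz
      refine ⟨h3, by rw [hsrc, h3], ?_⟩
      have h5 : cocycle_kz j.2 + h (rev e) = cocycle_kz i.2 := by
        rw [h4, hh]
        abel
      have hz' : cocycle_inb N (cocycle_kz j.2 + h (rev e)) := by
        rw [h5]
        exact cocycle_kz_inb _
      rw [cocycle_mv_in N tgt h (rev e) j hz', htgt, h1]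
      apply Prod.ext
      · rfl
      · apply cocycle_kz_inj
        rw [cocycle_kz_bx, h5]
    unfold cocycle_A
    rw [Finset.mul_sum, Finset.mul_sum,
      ← Equiv.sum_comp (Function.Involutive.toPerm rev hrev)
        (fun e => μ j.1 * if src e = j.1 ∧ cocycle_mv N tgt h e j = i then w e else 0)]
    refine Finset.sum_congr rfl fun e _ => ?_
    change _ = μ j.1 * if src (rev e) = j.1 ∧ cocycle_mv N tgt h (rev e) j = i
      then w (rev e) else 0
    by_cases h1 : src e = i.1 ∧ cocycle_mv N tgt h e i = j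
    · obtain ⟨h2, h3, h4⟩ := key i j hij e h1.1 h1.2
      rw [if_pos h1, if_pos ⟨h3, h4⟩, ← h1.1, ← h2]
      exact hbal e
    · have h2 : ¬ (src (rev e) = j.1 ∧ cocycle_mv N tgt h (rev e) j = i) := by
        intro h3
        obtain ⟨h4, h5, h6⟩ := key j i (Ne.symm hij) (rev e) h3.1 h3.2
        rw [hrev] at h5 h6
        exact h1 ⟨h5, h6⟩
      rw [if_neg h1, if_neg h2, mul_zero, mul_zero]

theorem cocycle_walk {V D : Type} [Fintype V] [Fintype D] [DecidableEq V] {m : ℕ} (N : ℕ)
    (src tgt : D → V) (w : D → ℝ) (h : D → Fin m → ℤ) (g : (Fin m → ℤ) → ℝ) (H0 : ℕ)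
    (hH : ∀ e x, |h e x| ≤ (H0 : ℤ)) (z0 : Fin m → ℤ) (r : ℕ) :
    ∀ (v : V) (k : Fin m → Fin N), (∀ x, (r * H0 : ℤ) ≤ cocycle_kz k x ∧
      cocycle_kz k x + (r * H0 : ℤ) < N) →
    ∑ j, (cocycle_A N src tgt w h ^ r) (v, k) j * g (cocycle_kz j.2 - z0) =
      Wk src tgt w h g r v (cocycle_kz k - z0) := by
  induction r with
  | zero =>
    intro v k _
    rw [pow_zero, Finset.sum_eq_single (v, k)]
    · rw [Matrix.one_apply_eq, one_mul]
      rfl
    · intro j _ hj
      rw [Matrix.one_apply_ne (Ne.symm hj), zero_mul]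
    · intro h'
      exact absurd (Finset.mem_univ _) h'
  | succ r ih =>
    intro v k hk
    have h1 : ∑ j, (cocycle_A N src tgt w h ^ (r + 1)) (v, k) j * g (cocycle_kz j.2 - z0) =
        ∑ l, cocycle_A N src tgt w h (v, k) l *
          ∑ j, (cocycle_A N src tgt w h ^ r) l j * g (cocycle_kz j.2 - z0) := by
      rw [pow_succ']
      simp only [Matrix.mul_apply, Finset.sum_mul, Finset.mul_sum]
      rw [Finset.sum_comm]
      refine Finset.sum_congr rfl fun l _ => Finset.sum_congr rfl fun j _ => ?_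
      ring
    rw [h1, cocycle_A_sum]
    change _ = ∑ e, if src e = v then w e * Wk src tgt w h g r (tgt e)
      (cocycle_kz k - z0 + h e) else 0
    refine Finset.sum_congr rfl fun e _ => ?_
    by_cases hs : src e = v
    · rw [if_pos hs, if_pos hs]
      have hz : cocycle_inb N (cocycle_kz k + h e) := by
        intro x
        have h2 := hk x
        have h3 := abs_le.1 (hH e x)
        push_cast at h2
        rw [Pi.add_apply]
        have h4 : (0:ℤ) ≤ (r:ℤ) * H0 := by positivity
        constructor <;> nlinarith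
      rw [cocycle_mv_in N tgt h e (v, k) hz, ih (tgt e) (cocycle_bx N _ hz)]
      · rw [cocycle_kz_bx]
        congr 2
        abel
      · intro x
        have h2 := hk x
        have h3 := abs_le.1 (hH e x)
        push_cast at h2
        rw [cocycle_kz_bx, Pi.add_apply]
        constructor <;> nlinarith
    · rw [if_neg hs, if_neg hs]

/-- Cocycle form of a Markov type inequality (amenability of Z^m: k moves in a large box). -/
theorem cocycle {X : Type*} [NormedAddCommGroup X] [NormedSpace ℝ X] {p C : ℝ} (hp : 1 < p) (hC : 0 ≤ C)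
    (hX : ∀ {ι : Type} [Fintype ι] [DecidableEq ι] (A : Matrix ι ι ℝ) (μ : ι → ℝ),
      (∀ i j, 0 ≤ A i j) → (∀ i, ∑ j, A i j = 1) → (∀ i, 0 ≤ μ i) → ∑ i, μ i = 1 →
      (∀ i j, μ i * A i j = μ j * A j i) → ∀ (f : ι → X) (t : ℕ), 1 ≤ t →
      ∑ i, ∑ j, μ i * (A ^ t) i j * ‖f i - f j‖ ^ p ≤
        C * t * ∑ i, ∑ j, μ i * A i j * ‖f i - f j‖ ^ p)
    {V D : Type} [Fintype V] [DecidableEq V] [Fintype D] (src tgt : D → V) (rev : D → D) (w : D → ℝ)
    (μ : V → ℝ) {m : ℕ} (h : D → Fin m → ℤ) (y : Fin m → X)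
    (hrev : ∀ e, rev (rev e) = e) (hsrc : ∀ e, src (rev e) = tgt e) (htgt : ∀ e, tgt (rev e) = src e)
    (hw : ∀ e, 0 ≤ w e) (hw1 : ∀ v, ∑ e, (if src e = v then w e else 0) = 1)
    (hμ : ∀ v, 0 ≤ μ v) (hμ1 : ∑ v, μ v = 1)
    (hbal : ∀ e, μ (src e) * w e = μ (tgt e) * w (rev e)) (hh : ∀ e, h (rev e) = - h e)
    (t : ℕ) (ht : 1 ≤ t) :
    ∑ v, μ v * Wk src tgt w h (fun z => ‖∑ x, (z x : ℝ) • y x‖ ^ p) t v 0 ≤
      C * t * ∑ e, μ (src e) * w e * ‖∑ x, (h e x : ℝ) • y x‖ ^ p := by
  classical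
  -- bound on the labels
  obtain ⟨H0, hH⟩ : ∃ H0 : ℕ, ∀ e x, |h e x| ≤ (H0 : ℤ) := by
    refine ⟨∑ e, ∑ x, (h e x).natAbs, fun e x => ?_⟩
    have h1 : (h e x).natAbs ≤ ∑ x, (h e x).natAbs :=
      Finset.single_le_sum (f := fun x => (h e x).natAbs) (fun _ _ => Nat.zero_le _)
        (Finset.mem_univ x)
    have h2 : ∑ x, (h e x).natAbs ≤ ∑ e, ∑ x, (h e x).natAbs :=
      Finset.single_le_sum (f := fun e => ∑ x, (h e x).natAbs) (fun _ _ => Nat.zero_le _)
        (Finset.mem_univ e)
    rw [Int.abs_eq_natAbs]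
    exact_mod_cast h1.trans h2
  obtain ⟨g, hg⟩ : ∃ g : (Fin m → ℤ) → ℝ, g = fun z => ‖∑ x, (z x : ℝ) • y x‖ ^ p := ⟨_, rfl⟩
  rw [← hg]
  have hgnn : ∀ z, 0 ≤ g z := fun z => by
    rw [hg]
    exact Real.rpow_nonneg (norm_nonneg _) _
  have hg0 : g 0 = 0 := by
    rw [hg]
    simp only [Pi.zero_apply, Int.cast_zero, zero_smul, Finset.sum_const_zero, norm_zero]
    exact Real.zero_rpow (by linarith)
  have hgneg : ∀ z, g (-z) = g z := fun z => by
    rw [hg]
    simp only [Pi.neg_apply, Int.cast_neg, neg_smul, Finset.sum_neg_distrib, norm_neg]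
  obtain ⟨R, hR⟩ : ∃ R : ℝ, R = ∑ e, μ (src e) * w e * ‖∑ x, (h e x : ℝ) • y x‖ ^ p := ⟨_, rfl⟩
  rw [← hR]
  have hR' : R = ∑ e, μ (src e) * w e * g (h e) := by rw [hR, hg]
  obtain ⟨S, hS⟩ : ∃ S : ℝ, S = ∑ v, μ v * Wk src tgt w h g t v 0 := ⟨_, rfl⟩
  rw [← hS]
  -- main inequality in the box
  have main : ∀ M : ℕ, ((M : ℝ) / (M + (2 * (t * H0) : ℕ) )) ^ m * S ≤ C * t * R := by
    intro M
    rcases Nat.eq_zero_or_pos (M + 2 * (t * H0)) with h0 | hNpos
    · -- degenerate box
      have hM : M = 0 := by omega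
      have hHt : t * H0 = 0 := by omega
      have hH0 : H0 = 0 := by
        rcases Nat.mul_eq_zero.1 hHt with h1 | h1
        · omega
        · exact h1
      -- all labels vanish
      have hh0 : ∀ e, h e = 0 := by
        intro e
        funext x
        have := hH e x
        rw [hH0] at this
        simpa using this
      have hW : ∀ r v, Wk src tgt w h g r v 0 = 0 := by
        intro r
        induction r with
        | zero => intro v; exact hg0
        | succ r ih =>
          intro v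
          change ∑ e, (if src e = v then w e * Wk src tgt w h g r (tgt e) (0 + h e) else 0) = 0
          refine Finset.sum_eq_zero fun e _ => ?_
          rw [hh0 e, add_zero, ih, mul_zero, ite_self]
      have hS0 : S = 0 := by
        rw [hS]
        refine Finset.sum_eq_zero fun v _ => ?_
        rw [hW, mul_zero]
      have hR0 : 0 ≤ R := by
        rw [hR']
        exact Finset.sum_nonneg fun e _ => mul_nonneg (mul_nonneg (hμ _) (hw _)) (hgnn _)
      rw [hS0, mul_zero]
      positivity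
    obtain ⟨N, hN⟩ : ∃ N : ℕ, N = M + 2 * (t * H0) := ⟨_, rfl⟩
    rw [← hN] at hNpos
    have hNR : (0:ℝ) < N := by exact_mod_cast hNpos
    have hNm : (0:ℝ) < (N:ℝ) ^ m := pow_pos hNR m
    have hcard : (Fintype.card (Fin m → Fin N) : ℝ) = (N:ℝ) ^ m := by
      rw [Fintype.card_fun, Fintype.card_fin, Fintype.card_fin]
      push_cast
      rfl
    have hcardM : (Fintype.card (Fin m → Fin M) : ℝ) = (M:ℝ) ^ m := by
      rw [Fintype.card_fun, Fintype.card_fin, Fintype.card_fin]
      push_cast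
      rfl
    obtain ⟨c, hc⟩ : ∃ c : ℝ, c = ((N:ℝ) ^ m)⁻¹ := ⟨_, rfl⟩
    have hcpos : 0 < c := by rw [hc]; exact inv_pos.2 hNm
    have hcN : (N:ℝ) ^ m * c = 1 := by rw [hc]; exact mul_inv_cancel₀ hNm.ne'
    have hrow : ∀ i : V × (Fin m → Fin N), ∑ j, cocycle_A N src tgt w h i j = 1 := by
      intro i
      have h1 := cocycle_A_sum N src tgt w h (fun _ => 1) i
      simp only [mul_one] at h1
      rw [h1]
      exact hw1 i.1
    have hgf : ∀ i j : V × (Fin m → Fin N),
        ‖(∑ x, (cocycle_kz i.2 x : ℝ) • y x) - ∑ x, (cocycle_kz j.2 x : ℝ) • y x‖ ^ p =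
          g (cocycle_kz j.2 - cocycle_kz i.2) := by
      intro i j
      rw [← hgneg, hg]
      simp only [neg_sub, Pi.sub_apply, Int.cast_sub, sub_smul, Finset.sum_sub_distrib]
    have hXX := hX (cocycle_A N src tgt w h) (fun i => μ i.1 * c)
      (cocycle_A_nonneg N src tgt w h hw) hrow
      (fun i => mul_nonneg (hμ _) hcpos.le)
      (by
        rw [Fintype.sum_prod_type]
        simp only [Finset.sum_const, Finset.card_univ, nsmul_eq_mul]
        rw [hcard]
        calc ∑ v, (N:ℝ) ^ m * (μ v * c) = ∑ v, μ v * ((N:ℝ) ^ m * c) :=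
              Finset.sum_congr rfl fun v _ => by ring
          _ = 1 := by rw [hcN, ← Finset.sum_mul, hμ1, one_mul])
      (fun i j => by
        have h1 := cocycle_bal N src tgt rev w μ h hrev hsrc htgt hbal hh i j
        calc μ i.1 * c * cocycle_A N src tgt w h i j =
              c * (μ i.1 * cocycle_A N src tgt w h i j) := by ring
          _ = c * (μ j.1 * cocycle_A N src tgt w h j i) := by rw [h1]
          _ = μ j.1 * c * cocycle_A N src tgt w h j i := by ring)
      (fun i => ∑ x, (cocycle_kz i.2 x : ℝ) • y x) t ht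
    simp only [hgf] at hXX
    -- left side
    have hleft : (M:ℝ) ^ m * c * S ≤ ∑ i : V × (Fin m → Fin N), ∑ j, μ i.1 * c *
        (cocycle_A N src tgt w h ^ t) i j * g (cocycle_kz j.2 - cocycle_kz i.2) := by
      have hFnn : ∀ i : V × (Fin m → Fin N), 0 ≤ ∑ j, μ i.1 * c *
        (cocycle_A N src tgt w h ^ t) i j * g (cocycle_kz j.2 - cocycle_kz i.2) := by
        intro i
        refine Finset.sum_nonneg fun j _ => mul_nonneg (mul_nonneg (mul_nonneg (hμ _) hcpos.le)
          ?_) (hgnn _)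
        exact cocycle_pow_nonneg _ (cocycle_A_nonneg N src tgt w h hw) t i j
      let φ : (Fin m → Fin M) → (Fin m → Fin N) := fun k x =>
        ⟨(k x : ℕ) + t * H0, by have := (k x).2; omega⟩
      have hφ : Function.Injective φ := by
        intro k k' hkk
        funext x
        have h1 := congrArg Fin.val (congrFun hkk x)
        simp only [φ] at h1
        apply Fin.ext
        omega
      have hval : ∀ (v : V) (k : Fin m → Fin M), ∑ j, μ v * c *
          (cocycle_A N src tgt w h ^ t) (v, φ k) j * g (cocycle_kz j.2 - cocycle_kz (φ k)) =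
          c * (μ v * Wk src tgt w h g t v 0) := by
        intro v k
        have h1 := cocycle_walk N src tgt w h g H0 hH (cocycle_kz (φ k)) t v (φ k) (by
          intro x
          have h2 : cocycle_kz (φ k) x = (k x : ℤ) + t * H0 := by
            simp only [cocycle_kz, φ]
            push_cast
            rfl
          have h3 := (k x).2
          rw [h2, hN]
          push_cast
          constructor
          · have : (0:ℤ) ≤ (k x : ℤ) := by positivity
            linarith
          · have : ((k x : ℕ) : ℤ) < M := by exact_mod_cast h3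
            linarith)
        rw [sub_self] at h1
        rw [← h1, Finset.mul_sum, Finset.mul_sum]
        refine Finset.sum_congr rfl fun j _ => ?_
        ring
      rw [Fintype.sum_prod_type, hS, Finset.mul_sum]
      refine Finset.sum_le_sum fun v _ => ?_
      calc (M:ℝ) ^ m * c * (μ v * Wk src tgt w h g t v 0) =
            ∑ k : Fin m → Fin M, c * (μ v * Wk src tgt w h g t v 0) := by
              rw [Finset.sum_const, Finset.card_univ, nsmul_eq_mul, hcardM]
              ring
        _ = ∑ k : Fin m → Fin M, ∑ j, μ v * c *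
          (cocycle_A N src tgt w h ^ t) (v, φ k) j * g (cocycle_kz j.2 - cocycle_kz (φ k)) :=
              Finset.sum_congr rfl fun k _ => (hval v k).symm
        _ = ∑ k ∈ Finset.univ.image φ, ∑ j, μ v * c *
          (cocycle_A N src tgt w h ^ t) (v, k) j * g (cocycle_kz j.2 - cocycle_kz k) := by
              rw [Finset.sum_image (fun a _ b _ hab => hφ hab)]
        _ ≤ ∑ k, ∑ j, μ v * c *
          (cocycle_A N src tgt w h ^ t) (v, k) j * g (cocycle_kz j.2 - cocycle_kz k) :=
              Finset.sum_le_univ_sum_of_nonneg fun k => hFnn (v, k)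
    -- right side
    have hright : ∑ i : V × (Fin m → Fin N), ∑ j, μ i.1 * c *
        cocycle_A N src tgt w h i j * g (cocycle_kz j.2 - cocycle_kz i.2) ≤ R := by
      have h1 : ∀ i : V × (Fin m → Fin N), ∑ j, μ i.1 * c *
          cocycle_A N src tgt w h i j * g (cocycle_kz j.2 - cocycle_kz i.2) ≤
          c * (μ i.1 * ∑ e, if src e = i.1 then w e * g (h e) else 0) := by
        intro i
        have h2 := cocycle_A_sum N src tgt w h
          (fun j => g (cocycle_kz j.2 - cocycle_kz i.2)) i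
        have h3 : ∑ j, μ i.1 * c *
          cocycle_A N src tgt w h i j * g (cocycle_kz j.2 - cocycle_kz i.2) =
          c * (μ i.1 * ∑ j, cocycle_A N src tgt w h i j *
            g (cocycle_kz j.2 - cocycle_kz i.2)) := by
          rw [Finset.mul_sum, Finset.mul_sum]
          refine Finset.sum_congr rfl fun j _ => ?_
          ring
        rw [h3, h2]
        apply mul_le_mul_of_nonneg_left _ hcpos.le
        apply mul_le_mul_of_nonneg_left _ (hμ _)
        refine Finset.sum_le_sum fun e _ => ?_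
        by_cases hs : src e = i.1
        · rw [if_pos hs, if_pos hs]
          apply mul_le_mul_of_nonneg_left _ (hw e)
          by_cases hz : cocycle_inb N (cocycle_kz i.2 + h e)
          · rw [cocycle_mv_in N tgt h e i hz]
            simp only
            rw [cocycle_kz_bx, add_sub_cancel_left]
          · rw [cocycle_mv_out N tgt h e i hz, sub_self, hg0]
            exact hgnn _
        · rw [if_neg hs, if_neg hs]
      calc ∑ i : V × (Fin m → Fin N), ∑ j, μ i.1 * c *
        cocycle_A N src tgt w h i j * g (cocycle_kz j.2 - cocycle_kz i.2) ≤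
          ∑ i : V × (Fin m → Fin N),
            c * (μ i.1 * ∑ e, if src e = i.1 then w e * g (h e) else 0) :=
            Finset.sum_le_sum fun i _ => h1 i
        _ = ∑ v, μ v * ∑ e, (if src e = v then w e * g (h e) else 0) := by
            rw [Fintype.sum_prod_type]
            refine Finset.sum_congr rfl fun v _ => ?_
            change ∑ _k : Fin m → Fin N, c * (μ v * ∑ e,
              (if src e = v then w e * g (h e) else 0)) = _
            rw [Finset.sum_const, Finset.card_univ, nsmul_eq_mul, hcard, ← mul_assoc, hcN,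
              one_mul]
        _ = R := by
            rw [hR']
            simp only [Finset.mul_sum]
            rw [Finset.sum_comm]
            refine Finset.sum_congr rfl fun e _ => ?_
            rw [Finset.sum_eq_single (src e)]
            · rw [if_pos rfl]
              ring
            · intro v _ hv
              rw [if_neg (Ne.symm hv), mul_zero]
            · intro h'
              exact absurd (Finset.mem_univ _) h'
    have hCt : 0 ≤ C * t := mul_nonneg hC (Nat.cast_nonneg t)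
    calc ((M : ℝ) / (M + (2 * (t * H0) : ℕ))) ^ m * S = (M:ℝ) ^ m * c * S := by
          rw [div_pow, hc, hN]
          push_cast
          rfl
      _ ≤ _ := hleft
      _ ≤ _ := hXX
      _ ≤ C * t * R := mul_le_mul_of_nonneg_left hright hCt
  have hlim : Tendsto (fun M : ℕ => ((M : ℝ) / (M + (2 * (t * H0) : ℕ) )) ^ m * S) atTop
      (𝓝 (1 ^ m * S)) :=
    ((tendsto_natCast_div_add_atTop (((2 * (t * H0) : ℕ)) : ℝ)).pow m).mul_const S
  rw [one_pow, one_mul] at hlim
  exact le_of_tendsto' hlim main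

theorem Wk_nonneg {V D : Type} [Fintype D] [DecidableEq V] (src tgt : D → V) (w : D → ℝ) {m : ℕ}
    (h : D → Fin m → ℤ) (G : (Fin m → ℤ) → ℝ) (hG : ∀ z, 0 ≤ G z) (hw : ∀ e, 0 ≤ w e) :
    ∀ (t : ℕ) (v : V) (z : Fin m → ℤ), 0 ≤ Wk src tgt w h G t v z := by
  intro t
  induction t with
  | zero => intro v z; exact hG z
  | succ t ih =>
    intro v z
    rw [Wk]
    refine Finset.sum_nonneg fun e _ => ?_
    split_ifs
    · exact mul_nonneg (hw e) (ih _ _)
    · exact le_refl 0

theorem walk_lower_step {V D : Type} [Fintype D] [DecidableEq V] (src tgt : D → V) (w : D → ℝ) {m : ℕ}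
    (h : D → Fin m → ℤ) (G : (Fin m → ℤ) → ℝ) (hG : ∀ z, 0 ≤ G z) (hw : ∀ e, 0 ≤ w e)
    (ρ C : ℝ) (hC : 0 ≤ C) (k : ℕ) (v : V) (z : Fin m → ℤ) (T : Finset D)
    (hT : ∀ e ∈ T, src e = v) (hρ : ρ ≤ ∑ e ∈ T, w e)
    (hk : ∀ e ∈ T, C ≤ Wk src tgt w h G k (tgt e) (z + h e)) :
    ρ * C ≤ Wk src tgt w h G (k + 1) v z := by
  rw [Wk]
  calc ρ * C ≤ (∑ e ∈ T, w e) * C := mul_le_mul_of_nonneg_right hρ hC
    _ = ∑ e ∈ T, w e * C := Finset.sum_mul _ _ _
    _ ≤ ∑ e ∈ T, (if src e = v then w e * Wk src tgt w h G k (tgt e) (z + h e) else 0) := by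
        refine Finset.sum_le_sum fun e he => ?_
        rw [if_pos (hT e he)]
        exact mul_le_mul_of_nonneg_left (hk e he) (hw e)
    _ ≤ ∑ e, (if src e = v then w e * Wk src tgt w h G k (tgt e) (z + h e) else 0) := by
        refine Finset.sum_le_sum_of_subset_of_nonneg (Finset.subset_univ _) fun e _ _ => ?_
        split_ifs
        · exact mul_nonneg (hw e) (Wk_nonneg src tgt w h G hG hw _ _ _)
        · exact le_refl 0

theorem walk_lower' {V D : Type} [Fintype D] [DecidableEq V] (src tgt : D → V) (w : D → ℝ) {m : ℕ}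
    (h : D → Fin m → ℤ) (G : (Fin m → ℤ) → ℝ) (hG : ∀ z, 0 ≤ G z) (hw : ∀ e, 0 ≤ w e)
    (live : D → Prop) (ok : D → D → Prop) (ρ B : ℝ) (hρ : 0 ≤ ρ) (hB : 0 ≤ B) (t : ℕ)
    (hstart : ∀ v, ∃ T : Finset D, (∀ e ∈ T, src e = v ∧ live e) ∧ ρ ≤ ∑ e ∈ T, w e)
    (hstep : ∀ e0, live e0 → ∃ T : Finset D, (∀ e ∈ T, src e = tgt e0 ∧ live e ∧ ok e0 e) ∧ ρ ≤ ∑ e ∈ T, w e)
    (hpath : ∀ e : ℕ → D, (∀ j, j < t → live (e j)) →
      (∀ j, j + 1 < t → src (e (j + 1)) = tgt (e j) ∧ ok (e j) (e (j + 1))) →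
      B ≤ G (∑ j ∈ range t, h (e j))) (hne : t = 0 → Nonempty D) (v : V) :
    ρ ^ t * B ≤ Wk src tgt w h G t v 0 := by
  have aux : ∀ k i : ℕ, (i + 1) + k = t → ∀ e : ℕ → D, (∀ j, j < i + 1 → live (e j)) →
      (∀ j, j + 1 < i + 1 → src (e (j + 1)) = tgt (e j) ∧ ok (e j) (e (j + 1))) →
      ρ ^ k * B ≤ Wk src tgt w h G k (tgt (e i)) (∑ j ∈ range (i + 1), h (e j)) := by
    intro k
    induction k with
    | zero =>
      intro i hi e he1 he2
      have hi' : i + 1 = t := by omega
      subst hi'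
      rw [Wk, pow_zero, one_mul]
      exact hpath e he1 he2
    | succ k ih =>
      intro i hi e he1 he2
      obtain ⟨T, hT, hTρ⟩ := hstep (e i) (he1 i (by omega))
      rw [pow_succ', mul_assoc]
      refine walk_lower_step src tgt w h G hG hw ρ _ (mul_nonneg (pow_nonneg hρ _) hB) k _ _ T
        (fun e' he' => (hT e' he').1) hTρ ?_
      intro e' he'
      have hu : ∀ j, j < i + 1 → Function.update e (i + 1) e' j = e j := by
        intro j hj
        exact Function.update_of_ne (by omega) _ _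
      have hui : Function.update e (i + 1) e' (i + 1) = e' := Function.update_self _ _ _
      have := ih (i + 1) (by omega) (Function.update e (i + 1) e') ?_ ?_
      · rw [Finset.sum_range_succ, hui] at this
        rw [Finset.sum_congr rfl (fun j hj => by rw [hu j (Finset.mem_range.1 hj)])] at this
        exact this
      · intro j hj
        by_cases hj' : j < i + 1
        · rw [hu j hj']; exact he1 j hj'
        · have : j = i + 1 := by omega
          subst this
          rw [hui]
          exact (hT e' he').2.1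
      · intro j hj
        by_cases hj' : j + 1 < i + 1
        · rw [hu j (by omega), hu (j + 1) hj']; exact he2 j hj'
        · have : j = i := by omega
          subst this
          rw [hu j (by omega), hui]
          exact ⟨(hT e' he').1, (hT e' he').2.2⟩
  rcases t with _ | k
  · rw [Wk, pow_zero, one_mul]
    obtain ⟨e⟩ := hne rfl
    simpa using hpath (fun _ => e) (by simp) (by simp)
  · rw [pow_succ', mul_assoc]
    obtain ⟨T, hT, hTρ⟩ := hstart v
    refine walk_lower_step src tgt w h G hG hw ρ _ (mul_nonneg (pow_nonneg hρ _) hB) k _ _ T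
      (fun e' he' => (hT e' he').1) hTρ ?_
    intro e' he'
    have := aux k 0 (by omega) (fun _ => e') (fun j _ => (hT e' he').2) (by intro j hj; omega)
    simpa using this

/-- NOTE: the posted statement is FALSE for `D` empty, `t = 0`, `ρ = 0` (then `hpath` is vacuous),
so `0 ≤ ρ` was strengthened to `0 < ρ`; `walk_lower'` above keeps `0 ≤ ρ` and has the extra
hypothesis `t = 0 → Nonempty D` (trivial if `0 < t`). -/
theorem walk_lower {V D : Type} [Fintype D] [DecidableEq V] (src tgt : D → V) (w : D → ℝ) {m : ℕ}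
    (h : D → Fin m → ℤ) (G : (Fin m → ℤ) → ℝ) (hG : ∀ z, 0 ≤ G z) (hw : ∀ e, 0 ≤ w e)
    (live : D → Prop) (ok : D → D → Prop) (ρ B : ℝ) (hρ : 0 < ρ) (hB : 0 ≤ B) (t : ℕ)
    (hstart : ∀ v, ∃ T : Finset D, (∀ e ∈ T, src e = v ∧ live e) ∧ ρ ≤ ∑ e ∈ T, w e)
    (hstep : ∀ e0, live e0 → ∃ T : Finset D, (∀ e ∈ T, src e = tgt e0 ∧ live e ∧ ok e0 e) ∧ ρ ≤ ∑ e ∈ T, w e)
    (hpath : ∀ e : ℕ → D, (∀ j, j < t → live (e j)) →
      (∀ j, j + 1 < t → src (e (j + 1)) = tgt (e j) ∧ ok (e j) (e (j + 1))) →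
      B ≤ G (∑ j ∈ range t, h (e j))) (v : V) :
    ρ ^ t * B ≤ Wk src tgt w h G t v 0 := by
  refine walk_lower' src tgt w h G hG hw live ok ρ B hρ.le hB t hstart hstep hpath (fun _ => ?_) v
  obtain ⟨T, hT, hTρ⟩ := hstart v
  by_contra hD
  rw [not_nonempty_iff] at hD
  have : T = ∅ := Finset.eq_empty_of_isEmpty T
  rw [this, Finset.sum_empty] at hTρ
  linarith


end Pool.Agent.Helper256.Ball
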