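import Mathlib

set_option autoImplicit false
open Finset Filter Topology

namespace Pool.Agent.Helper256.Ball


/-- A spreading seminorm on finite real sequences (length r, coefficients a 0, ..., a (r-1)). -/
structure SpreadNorm (R θ : ℝ) where
  N : ℕ → (ℕ → ℝ) → ℝ
  add_le : ∀ r a b, N r (fun i => a i + b i) ≤ N r a + N r b
  smul : ∀ r (c : ℝ) a, N r (fun i => c * a i) = |c| * N r a
  spread : ∀ (r m : ℕ) (g : ℕ → ℕ) (a a' : ℕ → ℝ),
    (∀ i j, i < j → j < r → g i < g j) → (∀ i, i < r → g i < m) →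
    (∀ i, i < r → a' (g i) = a i) → (∀ x, x < m → (∀ i, i < r → g i ≠ x) → a' x = 0) →
    N m a' = N r a
  upper : ∀ r a, N r a ≤ R * ∑ i ∈ range r, |a i|
  lower : ∀ r a k, θ * |∑ i ∈ Ico k r, a i| ≤ N r a

/-- The seminorm is finitely represented in X. -/
def Repr {R θ : ℝ} (S : SpreadNorm R θ) (X : Type*) [NormedAddCommGroup X] [NormedSpace ℝ X] : Prop :=
  ∀ (m : ℕ) (F : Finset (ℕ → ℝ)) (ε : ℝ), 0 < ε → ∃ x : ℕ → X, ∀ a ∈ F,
    |‖∑ i ∈ range m, a i • x i‖ - S.N m a| ≤ ε

/-- The pattern (-1)^t (+1)^t (-1)^t ... -/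
def u (t : ℕ) (q : ℕ) : ℝ := if (q / t) % 2 = 0 then -1 else 1



theorem pb_sum {R θ : ℝ} (S : SpreadNorm R θ) (M : ℕ) (f : ℕ → ℕ → ℝ) (n : ℕ) :
    S.N M (fun x => ∑ p ∈ range n, f p x) ≤ ∑ p ∈ range n, S.N M (f p) := by
  induction n with
  | zero =>
    have h := S.smul M 0 (fun _ => 0)
    simp only [zero_mul, abs_zero] at h
    simp only [Finset.range_zero, Finset.sum_empty]
    exact h.le
  | succ n ih =>
    rw [Finset.sum_range_succ]
    have h := S.add_le M (fun x => ∑ p ∈ range n, f p x) (f n)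
    have e : (fun x => ∑ p ∈ range (n + 1), f p x) =
        fun x => (∑ p ∈ range n, f p x) + f n x := by
      funext x
      rw [Finset.sum_range_succ]
    rw [e]
    linarith

theorem pb_Z (r k n x : ℕ) (a : ℕ → ℝ) :
    ∑ p ∈ range n, ∑ i ∈ Ico k r, (if i + p = x then a i else 0) =
      ∑ i ∈ Ico k r, (if (i ≤ x ∧ x < i + n) then a i else 0) := by
  rw [Finset.sum_comm]
  refine Finset.sum_congr rfl fun i _ => ?_
  by_cases h : i ≤ x ∧ x < i + n
  · rw [if_pos h, Finset.sum_eq_single (x - i)]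
    · rw [if_pos (by omega)]
    · intro p _ hp
      rw [if_neg (by omega)]
    · intro hp
      exfalso
      apply hp
      rw [Finset.mem_range]
      omega
  · rw [if_neg h]
    refine Finset.sum_eq_zero fun p hp => ?_
    rw [Finset.mem_range] at hp
    rw [if_neg (by omega)]

theorem pb_abs (r k n x : ℕ) (a : ℕ → ℝ) :
    |∑ i ∈ Ico k r, (if (i ≤ x ∧ x < i + n) then a i else 0)| ≤ ∑ i ∈ Ico k r, |a i| := by
  refine (Finset.abs_sum_le_sum_abs _ _).trans (Finset.sum_le_sum fun i _ => ?_)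
  split_ifs
  · exact le_rfl
  · rw [abs_zero]; exact abs_nonneg _

theorem pb_key {R θ : ℝ} (hR : 0 ≤ R) (S : SpreadNorm R θ) (r k : ℕ) (a : ℕ → ℝ)
    (hkr : k < r) (l : ℕ) :
    ((r : ℝ) + l) * S.N r (fun i => if i < k then a i else 0) ≤
      ((r : ℝ) + l) * S.N r a + R * (l * |∑ i ∈ Ico k r, a i| + 2 * r * ∑ i ∈ Ico k r, |a i|) := by
  set P : ℕ → ℝ := fun i => if i < k then a i else 0 with hP
  set w : ℕ → ℕ → ℝ := fun p x => ∑ i ∈ Ico k r, (if i + p = x then a i else 0) with hw
  set Z : ℕ → ℝ := fun x => ∑ p ∈ range (r + l), w p x with hZ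
  set b : ℕ → ℕ → ℝ := fun p x => P x + w p x with hb
  have hZx : ∀ x, Z x = ∑ i ∈ Ico k r, (if (i ≤ x ∧ x < i + (r + l)) then a i else 0) :=
    fun x => pb_Z r k (r + l) x a
  have hPM : S.N (r + l + r) P = S.N r P := by
    apply S.spread r (r + l + r) id P P
    · intro i j h _; exact h
    · intro i h; show i < r + l + r; omega
    · intro i _; rfl
    · intro x _ h
      have h1 : ¬ x < k := fun h2 => h x (by omega) rfl
      show (if x < k then a x else 0) = 0
      rw [if_neg h1]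
  have hbN : ∀ p ∈ range (r + l), S.N (r + l + r) (b p) = S.N r a := by
    intro p hp
    rw [Finset.mem_range] at hp
    apply S.spread r (r + l + r) (fun i => if i < k then i else i + p) a (b p)
    · intro i j hij hj
      show (if i < k then i else i + p) < (if j < k then j else j + p)
      split_ifs <;> omega
    · intro i hi
      show (if i < k then i else i + p) < r + l + r
      split_ifs <;> omega
    · intro i hi
      show P (if i < k then i else i + p) + w p (if i < k then i else i + p) = a i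
      by_cases hik : i < k
      · rw [if_pos hik]
        have h1 : P i = a i := by
          show (if i < k then a i else 0) = a i
          rw [if_pos hik]
        have h2 : w p i = 0 := by
          refine Finset.sum_eq_zero fun j hj => ?_
          rw [Finset.mem_Ico] at hj
          rw [if_neg (by omega)]
        rw [h1, h2, add_zero]
      · rw [if_neg hik]
        have h1 : P (i + p) = 0 := by
          show (if i + p < k then a (i + p) else 0) = 0
          rw [if_neg (by omega)]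
        have h2 : w p (i + p) = a i := by
          show ∑ j ∈ Ico k r, (if j + p = i + p then a j else 0) = a i
          rw [Finset.sum_eq_single i]
          · rw [if_pos rfl]
          · intro j _ hj
            rw [if_neg (by omega)]
          · intro h3
            exfalso
            apply h3
            rw [Finset.mem_Ico]
            omega
        rw [h1, h2, zero_add]
    · intro x _ h
      show P x + w p x = 0
      have h1 : ¬ x < k := by
        intro h2
        have h3 := h x (by omega)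
        simp only [if_pos h2] at h3
        exact h3 rfl
      have h2 : P x = 0 := by
        show (if x < k then a x else 0) = 0
        rw [if_neg h1]
      have h3 : w p x = 0 := by
        refine Finset.sum_eq_zero fun j hj => ?_
        rw [Finset.mem_Ico] at hj
        have h4 := h j hj.2
        have h5 : ¬ j < k := by omega
        simp only [if_neg h5] at h4
        rw [if_neg h4]
      rw [h2, h3, add_zero]
  have hsum : S.N (r + l + r) (fun x => ∑ p ∈ range (r + l), b p x) ≤ ((r : ℝ) + l) * S.N r a := by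
    refine (pb_sum S (r + l + r) b (r + l)).trans ?_
    rw [Finset.sum_congr rfl hbN, Finset.sum_const, Finset.card_range, nsmul_eq_mul]
    push_cast
    exact le_rfl
  have hZN : S.N (r + l + r) Z ≤
      R * (l * |∑ i ∈ Ico k r, a i| + 2 * r * ∑ i ∈ Ico k r, |a i|) := by
    refine (S.upper (r + l + r) Z).trans (mul_le_mul_of_nonneg_left ?_ hR)
    rw [Finset.sum_range_add (fun x => |Z x|) (r + l) r, Finset.sum_range_add (fun x => |Z x|) r l]
    have e1 : ∑ x ∈ range r, |Z x| ≤ r * ∑ i ∈ Ico k r, |a i| := by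
      calc ∑ x ∈ range r, |Z x| ≤ ∑ x ∈ range r, ∑ i ∈ Ico k r, |a i| := by
            refine Finset.sum_le_sum fun x _ => ?_
            rw [hZx x]
            exact pb_abs r k (r + l) x a
        _ = r * ∑ i ∈ Ico k r, |a i| := by
            rw [Finset.sum_const, Finset.card_range, nsmul_eq_mul]
    have e3 : ∑ x ∈ range r, |Z (r + l + x)| ≤ r * ∑ i ∈ Ico k r, |a i| := by
      calc ∑ x ∈ range r, |Z (r + l + x)| ≤ ∑ x ∈ range r, ∑ i ∈ Ico k r, |a i| := by
            refine Finset.sum_le_sum fun x _ => ?_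
            rw [hZx (r + l + x)]
            exact pb_abs r k (r + l) (r + l + x) a
        _ = r * ∑ i ∈ Ico k r, |a i| := by
            rw [Finset.sum_const, Finset.card_range, nsmul_eq_mul]
    have e2 : ∑ x ∈ range l, |Z (r + x)| = l * |∑ i ∈ Ico k r, a i| := by
      calc ∑ x ∈ range l, |Z (r + x)| = ∑ x ∈ range l, |∑ i ∈ Ico k r, a i| := by
            refine Finset.sum_congr rfl fun x hx => ?_
            rw [Finset.mem_range] at hx
            rw [hZx (r + x)]
            congr 1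
            refine Finset.sum_congr rfl fun i hi => ?_
            rw [Finset.mem_Ico] at hi
            rw [if_pos (by omega)]
        _ = l * |∑ i ∈ Ico k r, a i| := by
            rw [Finset.sum_const, Finset.card_range, nsmul_eq_mul]
    linarith
  have hfun : (fun x => ((r : ℝ) + l) * P x) =
      fun x => (∑ p ∈ range (r + l), b p x) + (-1) * Z x := by
    funext x
    show ((r : ℝ) + l) * P x = (∑ p ∈ range (r + l), (P x + w p x)) +
      (-1) * ∑ p ∈ range (r + l), w p x
    rw [Finset.sum_add_distrib, Finset.sum_const, Finset.card_range, nsmul_eq_mul]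
    push_cast
    ring
  have h1 := S.smul (r + l + r) ((r : ℝ) + l) P
  have h2 := S.add_le (r + l + r) (fun x => ∑ p ∈ range (r + l), b p x) (fun x => (-1) * Z x)
  have h3 := S.smul (r + l + r) (-1) Z
  rw [abs_neg, abs_one, one_mul] at h3
  have h4 : |(r : ℝ) + l| = (r : ℝ) + l := abs_of_nonneg (by positivity)
  rw [h4, hPM] at h1
  rw [← h1, hfun]
  linarith


theorem pre_bound {R θ : ℝ} (hθ : 0 < θ) (hR : 0 ≤ R) (S : SpreadNorm R θ) (r k : ℕ) (a : ℕ → ℝ) :
    S.N r (fun i => if i < k then a i else 0) ≤ (1 + R / θ) * S.N r a := by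
  have hN0 : ∀ m b, 0 ≤ S.N m b := fun m b => by simpa using S.lower m b m
  have hRθ : 0 ≤ R / θ := div_nonneg hR hθ.le
  rcases le_or_gt r k with hrk | hkr
  · have h1 : S.N r (fun i => if i < k then a i else 0) = S.N r a := by
      apply S.spread r r id a (fun i => if i < k then a i else 0)
      · intro i j h _; exact h
      · intro i h; exact h
      · intro i hi
        show (if i < k then a i else 0) = a i
        rw [if_pos (by omega)]
      · intro x hx h; exact absurd rfl (h x hx)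
    rw [h1]
    nlinarith [mul_nonneg hRθ (hN0 r a)]
  · have key := pb_key hR S r k a hkr
    have hσ : θ * |∑ i ∈ Ico k r, a i| ≤ S.N r a := S.lower r a k
    have hA : 0 ≤ ∑ i ∈ Ico k r, |a i| := Finset.sum_nonneg fun _ _ => abs_nonneg _
    generalize hPd : S.N r (fun i => if i < k then a i else 0) = NP at key ⊢
    have hNP : 0 ≤ NP := by rw [← hPd]; exact hN0 _ _
    generalize S.N r a = Na at key hσ ⊢
    generalize |∑ i ∈ Ico k r, a i| = s at key hσ
    generalize ∑ i ∈ Ico k r, |a i| = A at key hA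
    have hd : NP ≤ Na + R * s := by
      by_contra hcon
      push Not at hcon
      have hd0 : 0 < NP - Na - R * s := by linarith
      obtain ⟨l, hl⟩ := exists_nat_gt ((r * Na + 2 * R * r * A) / (NP - Na - R * s))
      rw [div_lt_iff₀ hd0] at hl
      have h5 := key l
      have h6 : 0 ≤ (r : ℝ) * NP := mul_nonneg (Nat.cast_nonneg r) hNP
      nlinarith [h5, h6, hl]
    have h7 : R * s ≤ R / θ * Na := by
      rw [div_mul_eq_mul_div, le_div_iff₀ hθ]
      nlinarith [mul_le_mul_of_nonneg_left hσ hR]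
    linarith


theorem interval_bound {R θ : ℝ} (hθ : 0 < θ) (hR : 0 ≤ R) (S : SpreadNorm R θ) (r k l : ℕ) (a : ℕ → ℝ) :
    S.N r (fun i => if k ≤ i ∧ i < l then a i else 0) ≤ (1 + R / θ) * (2 + R / θ) * S.N r a := by
  have h1 := pre_bound hθ hR S r l a
  have h2 := pre_bound hθ hR S r k (fun i => if i < l then a i else 0)
  have h3 := S.add_le r (fun i => if i < l then a i else 0)
    (fun i => (-1) * (if i < k then (if i < l then a i else 0) else 0))
  have h4 := S.smul r (-1) (fun i => if i < k then (if i < l then a i else 0) else 0)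
  have e1 : (fun i => if k ≤ i ∧ i < l then a i else 0) =
      (fun i => (if i < l then a i else 0) + (-1) * (if i < k then (if i < l then a i else 0) else 0)) := by
    funext i
    by_cases hk : i < k
    · by_cases hl : i < l <;> simp [hk, hl, not_le.mpr hk]
    · by_cases hl : i < l <;> simp [hk, hl, not_lt.mp hk]
  rw [e1]
  have hc : 0 ≤ R / θ := by positivity
  simp only [abs_neg, abs_one, one_mul] at h4
  rw [h4] at h3
  nlinarith [h1, h2, h3]



theorem pig_abs_u (t q : ℕ) : |u t q| = 1 := by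
  unfold u
  split_ifs <;> simp

theorem pig_lower {R θ : ℝ} (S : SpreadNorm R θ) (K b0 : ℕ) (hK : 1 ≤ K) (hb0 : 1 ≤ b0) :
    θ * K ≤ S.N (2 * K * b0) (u K) := by
  have h1 := S.lower (2 * K * b0) (u K) (2 * K * b0 - K)
  have h2 : K ≤ 2 * K * b0 := by nlinarith
  have h3 : ∑ i ∈ Ico (2 * K * b0 - K) (2 * K * b0), u K i = K := by
    have h4 : ∀ i ∈ Ico (2 * K * b0 - K) (2 * K * b0), u K i = 1 := by
      intro i hi
      rw [Finset.mem_Ico] at hi
      have h5 : i / K = 2 * b0 - 1 := by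
        rw [Nat.div_eq_iff (by omega)]
        obtain ⟨c, hc⟩ : ∃ c, b0 = c + 1 := ⟨b0 - 1, by omega⟩
        subst hc
        have e1 : 2 * (c + 1) - 1 = 2 * c + 1 := by omega
        have e2 : 2 * K * (c + 1) = 2 * (K * c) + 2 * K := by ring
        rw [e1]
        rw [e2] at hi
        have e3 : (2 * c + 1) * K = 2 * (K * c) + K := by ring
        rw [e3]
        omega
      unfold u
      rw [h5, if_neg (by omega)]
    rw [Finset.sum_congr rfl h4, Finset.sum_const, Nat.card_Ico, nsmul_eq_mul, mul_one]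
    congr 1
    omega
  rw [h3, abs_of_nonneg (Nat.cast_nonneg _)] at h1
  exact h1

theorem pigeon {R θ : ℝ} (hθ : 0 < θ) (hR : 0 ≤ R) (S : SpreadNorm R θ) (t s b0 : ℕ) (ht : 1 ≤ t) (hb0 : 1 ≤ b0) :
    ∃ K b : ℕ, 1 ≤ K ∧ b0 ≤ b ∧
      (t / 2 : ℝ) * S.N (2 * K * (b + s)) (u K) ≤ S.N (2 * (t * K) * b) (u (t * K)) := by
  by_contra hcon
  push Not at hcon
  have ht0 : (0 : ℝ) < t := by exact_mod_cast ht
  have hit : ∀ J b : ℕ, b0 ≤ b → S.N (2 * (t ^ J) * b) (u (t ^ J)) ≤
      (t / 2 : ℝ) ^ J * S.N (2 * 1 * (b + J * s)) (u 1) := by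
    intro J
    induction J with
    | zero => intro b _; simp
    | succ J ih =>
      intro b hb
      have hK : 1 ≤ t ^ J := Nat.one_le_pow _ _ ht
      have h1 := (hcon (t ^ J) b hK hb).le
      have h2 := ih (b + s) (by omega)
      have e1 : t ^ (J + 1) = t * t ^ J := by rw [pow_succ]; ring
      have e2 : b + (J + 1) * s = b + s + J * s := by ring
      rw [e1, e2]
      calc S.N (2 * (t * t ^ J) * b) (u (t * t ^ J))
          ≤ (t / 2 : ℝ) * S.N (2 * t ^ J * (b + s)) (u (t ^ J)) := h1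
        _ ≤ (t / 2 : ℝ) * ((t / 2 : ℝ) ^ J * S.N (2 * 1 * (b + s + J * s)) (u 1)) :=
            mul_le_mul_of_nonneg_left h2 (by positivity)
        _ = (t / 2 : ℝ) ^ (J + 1) * S.N (2 * 1 * (b + s + J * s)) (u 1) := by rw [pow_succ]; ring
  have hup : ∀ b : ℕ, S.N (2 * 1 * b) (u 1) ≤ R * (2 * b) := by
    intro b
    refine (S.upper _ _).trans ?_
    apply mul_le_mul_of_nonneg_left _ hR
    rw [Finset.sum_congr rfl (g := fun _ => (1:ℝ)) (fun i _ => pig_abs_u 1 i), Finset.sum_const,
      Finset.card_range, nsmul_eq_mul, mul_one]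
    push_cast
    linarith
  have hmain : ∀ J : ℕ, θ ≤ (1 / 2 : ℝ) ^ J * (R * (2 * ((b0 + J * s : ℕ) : ℝ))) := by
    intro J
    have hK : 1 ≤ t ^ J := Nat.one_le_pow _ _ ht
    have h1 := pig_lower S (t ^ J) b0 hK hb0
    have h2 := hit J b0 le_rfl
    have h3 := hup (b0 + J * s)
    have h4 : θ * (t : ℝ) ^ J ≤
        ((1 / 2 : ℝ) ^ J * (R * (2 * ((b0 + J * s : ℕ) : ℝ)))) * (t : ℝ) ^ J := by
      calc θ * (t : ℝ) ^ J = θ * ((t ^ J : ℕ) : ℝ) := by push_cast; rfl
        _ ≤ _ := h1
        _ ≤ _ := h2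
        _ ≤ (t / 2 : ℝ) ^ J * (R * (2 * ((b0 + J * s : ℕ) : ℝ))) :=
            mul_le_mul_of_nonneg_left h3 (by positivity)
        _ = ((1 / 2 : ℝ) ^ J * (R * (2 * ((b0 + J * s : ℕ) : ℝ)))) * (t : ℝ) ^ J := by
            rw [div_pow, div_pow, one_pow]; ring
    exact le_of_mul_le_mul_right h4 (by positivity)
  have ha := tendsto_pow_const_mul_const_pow_of_lt_one 0 (by norm_num : (0:ℝ) ≤ 1 / 2)
    (by norm_num)
  have hb := tendsto_pow_const_mul_const_pow_of_lt_one 1 (by norm_num : (0:ℝ) ≤ 1 / 2)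
    (by norm_num)
  have hlim : Tendsto (fun J : ℕ => (1 / 2 : ℝ) ^ J * (R * (2 * ((b0 + J * s : ℕ) : ℝ))))
      atTop (𝓝 0) := by
    have h5 := (ha.const_mul (R * 2 * b0)).add (hb.const_mul (R * 2 * s))
    rw [mul_zero, mul_zero, add_zero] at h5
    refine h5.congr fun J => ?_
    push_cast
    ring
  exact absurd (ge_of_tendsto' hlim hmain) (not_le.mpr hθ)



theorem j16626_sum {M : Type*} [AddCommMonoid M] (K m : ℕ) (h : ℕ → M) :
    ∑ q ∈ range (K * m), h q = ∑ i ∈ range m, ∑ l ∈ range K, h (K * i + l) := by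
  induction m with
  | zero => simp
  | succ m ih => rw [Nat.mul_succ, Finset.sum_range_add, ih, Finset.sum_range_succ]

theorem j16626_div {K i l : ℕ} (hl : l < K) : (K * i + l) / K = i := by
  rw [Nat.mul_add_div (by omega), Nat.div_eq_of_lt hl, add_zero]

theorem j16626_sum' (K m : ℕ) (f : ℕ → ℝ) :
    ∑ q ∈ range (K * m), f (q / K) = K * ∑ i ∈ range m, f i := by
  rw [j16626_sum K m (fun q => f (q / K)), Finset.mul_sum]
  refine Finset.sum_congr rfl fun i _ => ?_
  have : ∀ l ∈ range K, f ((K * i + l) / K) = f i := by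
    intro l hl
    rw [j16626_div (mem_range.1 hl)]
  rw [Finset.sum_congr rfl this, Finset.sum_const, card_range, nsmul_eq_mul]

theorem blow_aux_spread {R θ : ℝ} (S : SpreadNorm R θ) (K : ℕ) (hK : 1 ≤ K) :
    ∀ (r m : ℕ) (g : ℕ → ℕ) (a a' : ℕ → ℝ),
    (∀ i j, i < j → j < r → g i < g j) → (∀ i, i < r → g i < m) →
    (∀ i, i < r → a' (g i) = a i) → (∀ x, x < m → (∀ i, i < r → g i ≠ x) → a' x = 0) →
    S.N (K * m) (fun i => a' (i / K)) = S.N (K * r) (fun i => a (i / K)) := by
  intro r m g a a' h1 h2 h3 h4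
  have hdiv : ∀ i, i < K * r → i / K < r := fun i hi =>
    Nat.div_lt_of_lt_mul hi
  have hmod : ∀ i, i % K < K := fun i => Nat.mod_lt _ hK
  apply S.spread (K * r) (K * m) (fun q => K * g (q / K) + q % K)
  · intro i j hij hj
    have hle : i / K ≤ j / K := Nat.div_le_div_right hij.le
    rcases Nat.lt_or_ge (i / K) (j / K) with h | h
    · have h5 := h1 (i / K) (j / K) h (hdiv j hj)
      have h6 : K * (g (i / K) + 1) ≤ K * g (j / K) := Nat.mul_le_mul_left K h5
      have h7 := hmod i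
      rw [Nat.mul_succ] at h6
      omega
    · have h5 : i / K = j / K := le_antisymm hle h
      have h6 := Nat.div_add_mod i K
      have h7 := Nat.div_add_mod j K
      rw [h5] at h6 ⊢
      omega
  · intro i hi
    have h5 := h2 (i / K) (hdiv i hi)
    have h6 : K * (g (i / K) + 1) ≤ K * m := Nat.mul_le_mul_left K h5
    have h7 := hmod i
    rw [Nat.mul_succ] at h6
    omega
  · intro i hi
    rw [j16626_div (hmod i)]
    exact h3 _ (hdiv i hi)
  · intro x hx hne
    have hxm : x / K < m := Nat.div_lt_of_lt_mul hx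
    apply h4 _ hxm
    intro i hi hgi
    have h7 := hmod x
    apply hne (K * i + x % K)
    · have h6 : K * (i + 1) ≤ K * r := Nat.mul_le_mul_left K hi
      rw [Nat.mul_succ] at h6
      omega
    ·
      rw [j16626_div h7, hgi, Nat.mul_add_mod, Nat.mod_mod]
      exact Nat.div_add_mod x K

theorem blow_aux_upper {R θ : ℝ} (S : SpreadNorm R θ) (K : ℕ) (hK : 1 ≤ K) :
    ∀ (r : ℕ) (a : ℕ → ℝ), S.N (K * r) (fun i => a (i / K)) ≤ (R * K) * ∑ i ∈ range r, |a i| := by
  intro r a
  have h := S.upper (K * r) (fun i => a (i / K))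
  rw [j16626_sum' K r (fun i => |a i|)] at h
  rw [mul_assoc]
  exact h

theorem blow_aux_lower {R θ : ℝ} (S : SpreadNorm R θ) (K : ℕ) (hK : 1 ≤ K) :
    ∀ (r : ℕ) (a : ℕ → ℝ) (k : ℕ), (θ * K) * |∑ i ∈ Ico k r, a i| ≤ S.N (K * r) (fun i => a (i / K)) := by
  intro r a k
  have h := S.lower (K * r) (fun i => a (i / K)) (K * k)
  have e : ∑ i ∈ Ico (K * k) (K * r), a (i / K) = K * ∑ i ∈ Ico k r, a i := by
    rcases Nat.lt_or_ge r k with hr | hr
    · have h6 : K * r ≤ K * k := Nat.mul_le_mul_left K hr.le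
      rw [Ico_eq_empty (by omega), Ico_eq_empty (by omega)]
      simp
    · rw [Finset.sum_Ico_eq_sub _ hr, Finset.sum_Ico_eq_sub _ (Nat.mul_le_mul_left K hr),
        j16626_sum', j16626_sum']
      ring
  rw [e, abs_mul, Nat.abs_cast, ← mul_assoc] at h
  exact h

/-- Blow-up: every entry repeated K times. -/
def blow {R θ : ℝ} (S : SpreadNorm R θ) (K : ℕ) (hK : 1 ≤ K) : SpreadNorm (R * K) (θ * K) where
  N r a := S.N (K * r) (fun i => a (i / K))
  add_le r a b := S.add_le (K * r) (fun i => a (i / K)) (fun i => b (i / K))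
  smul r c a := S.smul (K * r) c (fun i => a (i / K))
  spread := blow_aux_spread S K hK
  upper := blow_aux_upper S K hK
  lower := blow_aux_lower S K hK

theorem blow_repr {R θ : ℝ} (S : SpreadNorm R θ) (K : ℕ) (hK : 1 ≤ K) (X : Type*) [NormedAddCommGroup X]
    [NormedSpace ℝ X] (h : Repr S X) : Repr (blow S K hK) X := by
  classical
  intro m F ε hε
  obtain ⟨x, hx⟩ := h (K * m) (F.image (fun (a : ℕ → ℝ) (i : ℕ) => a (i / K))) ε hε
  refine ⟨fun i => ∑ l ∈ range K, x (K * i + l), fun a ha => ?_⟩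
  have h1 := hx (fun i => a (i / K)) (mem_image_of_mem _ ha)
  have e : ∑ i ∈ range (K * m), a (i / K) • x i =
      ∑ i ∈ range m, a i • ∑ l ∈ range K, x (K * i + l) := by
    rw [j16626_sum K m (fun q => a (q / K) • x q)]
    refine Finset.sum_congr rfl fun i _ => ?_
    rw [Finset.smul_sum]
    refine Finset.sum_congr rfl fun l hl => ?_
    rw [j16626_div (mem_range.1 hl)]
  rw [e] at h1
  exact h1

theorem blow_u {R θ : ℝ} (S : SpreadNorm R θ) (K : ℕ) (hK : 1 ≤ K) (t b : ℕ) (ht : 1 ≤ t) :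
    (blow S K hK).N (2 * t * b) (u t) = S.N (2 * (t * K) * b) (u (t * K)) := by
  show S.N (K * (2 * t * b)) (fun i => u t (i / K)) = S.N (2 * (t * K) * b) (u (t * K))
  have e1 : K * (2 * t * b) = 2 * (t * K) * b := by ring
  have e2 : (fun i => u t (i / K)) = u (t * K) := by
    funext i
    unfold u
    rw [Nat.div_div_eq_div_mul, mul_comm K t]
  rw [e1, e2]



theorem aux_norm_smul (Y : Type*) [NormedAddCommGroup Y] [NormedSpace ℝ Y]
    (w : StrongDual ℝ (StrongDual ℝ Y)) (c : ℝ) (hc : c ≠ 0) : |c| * ‖w‖ ≤ ‖c • w‖ := by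
  have h1 : ‖c⁻¹ • (c • w)‖ ≤ ‖c⁻¹‖ * ‖c • w‖ := ContinuousLinearMap.opNorm_smul_le _ _
  rw [smul_smul, inv_mul_cancel₀ hc, one_smul, norm_inv, Real.norm_eq_abs] at h1
  have h2 : 0 < |c| := abs_pos.2 hc
  calc |c| * ‖w‖ ≤ |c| * (|c|⁻¹ * ‖c • w‖) := by gcongr
    _ = ‖c • w‖ := by field_simp

theorem goldstine_fin (Y : Type*) [NormedAddCommGroup Y] [NormedSpace ℝ Y]
    (ψ : StrongDual ℝ (StrongDual ℝ Y)) (R : ℝ) (hR : ‖ψ‖ < R) (I : Finset (StrongDual ℝ Y)) :
    (fun φ : I => ψ φ.1) ∈ closure ((fun (y : Y) (φ : I) => φ.1 y) '' Metric.closedBall 0 R) := by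
  classical
  have hR0 : 0 < R := (norm_nonneg ψ).trans_lt hR
  let T : Y →L[ℝ] (I → ℝ) := ContinuousLinearMap.pi (fun φ : I => φ.1)
  have hT : (fun (y : Y) (φ : I) => φ.1 y) = T := by
    funext y φ
    rfl
  rw [hT]
  by_contra hcon
  have hconv : Convex ℝ (closure (T '' Metric.closedBall 0 R)) :=
    ((convex_closedBall (0 : Y) R).linear_image (T : Y →ₗ[ℝ] (I → ℝ))).closure
  obtain ⟨f, u, hf1, hf2⟩ := geometric_hahn_banach_closed_point hconv isClosed_closure hcon
  have hball : ∀ y : Y, ‖y‖ ≤ R → f (T y) < u := by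
    intro y hy
    apply hf1
    apply subset_closure
    exact ⟨y, by simpa using hy, rfl⟩
  have hu : 0 < u := by
    have := hball 0 (by simpa using hR0.le)
    simpa using this
  let Φ : StrongDual ℝ Y := f.comp T
  have hbd : ‖Φ‖ ≤ u / R := by
    apply ContinuousLinearMap.opNorm_le_bound _ (by positivity)
    intro y
    by_cases hy : y = 0
    · simp [hy]
    · have hy0 : 0 < ‖y‖ := norm_pos_iff.2 hy
      have h1 : ∀ σ : ℝ, |σ| = 1 → σ * (R / ‖y‖) * Φ y < u := by
        intro σ hσ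
        have := hball ((σ * (R / ‖y‖)) • y) (by
          rw [norm_smul, norm_mul, Real.norm_eq_abs, hσ, one_mul, Real.norm_of_nonneg (by positivity),
            div_mul_cancel₀ _ hy0.ne'])
        rw [map_smul, map_smul, smul_eq_mul] at this
        exact this
      have h2 := h1 1 (by simp)
      have h3 := h1 (-1) (by simp)
      rw [Real.norm_eq_abs]
      have h4 : |Φ y| * (R / ‖y‖) ≤ u := by
        rcases abs_cases (Φ y) with ⟨h, _⟩ | ⟨h, _⟩
        · rw [h]; nlinarith
        · rw [h]; nlinarith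
      calc |Φ y| = (|Φ y| * (R / ‖y‖)) * (‖y‖ / R) := by field_simp
        _ ≤ u * (‖y‖ / R) := by gcongr
        _ = u / R * ‖y‖ := by ring
  have hΦ : Φ = ∑ φ : I, f (Pi.single φ 1) • φ.1 := by
    ext y
    have h1 : T y = ∑ φ : I, (φ.1 y) • (Pi.single φ (1 : ℝ) : I → ℝ) := by
      funext j
      rw [Finset.sum_apply, Finset.sum_eq_single j]
      · simp [T]
      · intro b _ hb
        simp [Pi.single_apply, Ne.symm hb]
      · simp
    change f (T y) = _
    rw [h1, map_sum, ContinuousLinearMap.sum_apply]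
    refine Finset.sum_congr rfl fun φ _ => ?_
    rw [map_smul, ContinuousLinearMap.smul_apply, smul_eq_mul, smul_eq_mul, mul_comm]
  have hψ : ψ Φ = f (fun φ : I => ψ φ.1) := by
    have h1 : (fun φ : I => ψ φ.1) = ∑ φ : I, (ψ φ.1) • (Pi.single φ (1 : ℝ) : I → ℝ) := by
      funext j
      rw [Finset.sum_apply, Finset.sum_eq_single j]
      · simp
      · intro b _ hb
        simp [Pi.single_apply, Ne.symm hb]
      · simp
    rw [hΦ, map_sum, h1, map_sum]
    refine Finset.sum_congr rfl fun φ _ => ?_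
    rw [map_smul, map_smul, smul_eq_mul, smul_eq_mul, mul_comm]
  have h5 : ψ Φ ≤ ‖ψ‖ * (u / R) :=
    (le_abs_self _).trans ((ψ.le_opNorm Φ).trans (by gcongr))
  have h6 : ‖ψ‖ * (u / R) < u := by
    rw [mul_div_assoc', div_lt_iff₀ hR0, mul_comm]
    gcongr
  rw [← hψ] at hf2
  linarith

theorem goldstine_ultra (Y : Type*) [NormedAddCommGroup Y] [NormedSpace ℝ Y]
    (ψ : StrongDual ℝ (StrongDual ℝ Y)) (R : ℝ) (hR : ‖ψ‖ < R) :
    ∃ U : Ultrafilter Y, Metric.closedBall (0 : Y) R ∈ U ∧
      ∀ φ : StrongDual ℝ Y, Tendsto (fun y => φ y) (U : Filter Y) (𝓝 (ψ φ)) := by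
  classical
  let ev : Y → (StrongDual ℝ Y → ℝ) := fun y φ => φ y
  have hmem : (fun φ : StrongDual ℝ Y => ψ φ) ∈ closure (ev '' Metric.closedBall 0 R) := by
    rw [mem_closure_iff_nhds]
    intro t ht
    rw [nhds_pi, Filter.mem_pi] at ht
    obtain ⟨I, hI, tt, htt, hsub⟩ := ht
    have h1 := goldstine_fin Y ψ R hR hI.toFinset
    rw [mem_closure_iff_nhds] at h1
    obtain ⟨q, hq1, y, hy, rfl⟩ := h1 (Set.pi Set.univ (fun i : hI.toFinset => tt i.1))
      (set_pi_mem_nhds Set.finite_univ (fun i _ => htt i.1))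
    refine ⟨ev y, hsub ?_, y, hy, rfl⟩
    intro φ hφ
    exact hq1 ⟨φ, hI.mem_toFinset.2 hφ⟩ (Set.mem_univ _)
  rw [mem_closure_iff_ultrafilter] at hmem
  obtain ⟨u, hu1, hu2⟩ := hmem
  have hne : NeBot (comap ev (u : Filter (StrongDual ℝ Y → ℝ)) ⊓ 𝓟 (Metric.closedBall 0 R)) :=
    Filter.comap_inf_principal_neBot_of_image_mem u.neBot hu1
  refine ⟨Ultrafilter.of (comap ev (u : Filter (StrongDual ℝ Y → ℝ)) ⊓
    𝓟 (Metric.closedBall 0 R)), ?_, ?_⟩
  · have h1 := (Ultrafilter.of_le (comap ev (u : Filter (StrongDual ℝ Y → ℝ)) ⊓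
      𝓟 (Metric.closedBall 0 R))).trans inf_le_right
    exact h1 (mem_principal_self _)
  · have h1 := (Ultrafilter.of_le (comap ev (u : Filter (StrongDual ℝ Y → ℝ)) ⊓
      𝓟 (Metric.closedBall 0 R))).trans inf_le_left
    have h2 : Tendsto ev (Ultrafilter.of (comap ev (u : Filter (StrongDual ℝ Y → ℝ)) ⊓
      𝓟 (Metric.closedBall 0 R)) : Filter Y) (𝓝 (fun φ : StrongDual ℝ Y => ψ φ)) :=
      (tendsto_comap.mono_left h1).trans hu2
    rw [tendsto_pi_nhds] at h2
    exact h2

/-- A nonreflexive Banach space: a point of the bidual at positive distance of the space, and an ultrafilter on a ball converging weak-star to it (Goldstine). -/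
theorem exists_ultrafilter (Y : Type*) [NormedAddCommGroup Y] [NormedSpace ℝ Y] [CompleteSpace Y]
    (h : ¬ Function.Surjective (NormedSpace.inclusionInDoubleDual ℝ Y)) :
    ∃ (R θ : ℝ) (ψ : StrongDual ℝ (StrongDual ℝ Y)) (U : Ultrafilter Y), 0 < R ∧ 0 < θ ∧
      (∀ (y : Y) (c : ℝ), θ * |c| ≤ ‖NormedSpace.inclusionInDoubleDual ℝ Y y + c • ψ‖) ∧
      Metric.closedBall (0 : Y) R ∈ U ∧
      ∀ φ : StrongDual ℝ Y, Tendsto (fun y => φ y) (U : Filter Y) (𝓝 (ψ φ)) := by
  classical
  rw [Function.Surjective] at h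
  push Not at h
  obtain ⟨ψ, hψ⟩ := h
  have hiso : Isometry (NormedSpace.inclusionInDoubleDual ℝ Y) :=
    (NormedSpace.inclusionInDoubleDualLi ℝ (E := Y)).isometry
  have hcl : IsClosed (Set.range (NormedSpace.inclusionInDoubleDual ℝ Y)) :=
    hiso.isClosedEmbedding.isClosed_range
  have hnm : ψ ∉ Set.range (NormedSpace.inclusionInDoubleDual ℝ Y) := by
    rintro ⟨y, hy⟩
    exact hψ y hy
  have hpos := (hcl.notMem_iff_infDist_pos ⟨_, Set.mem_range_self 0⟩).1 hnm
  obtain ⟨U, hU1, hU2⟩ := goldstine_ultra Y ψ (‖ψ‖ + 1) (lt_add_one _)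
  refine ⟨‖ψ‖ + 1, _, ψ, U, by positivity, hpos, ?_, hU1, hU2⟩
  intro y c
  by_cases hc : c = 0
  · subst hc
    rw [abs_zero, mul_zero]
    exact norm_nonneg (NormedSpace.inclusionInDoubleDual ℝ Y y + (0 : ℝ) • ψ)
  · have h1 := Metric.infDist_le_dist_of_mem (x := ψ)
      (Set.mem_range_self (f := NormedSpace.inclusionInDoubleDual ℝ Y) (-(c⁻¹ • y)))
    have h2 : NormedSpace.inclusionInDoubleDual ℝ Y y + c • ψ =
        c • (ψ - NormedSpace.inclusionInDoubleDual ℝ Y (-(c⁻¹ • y))) := by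
      rw [map_neg, map_smul, sub_neg_eq_add, smul_add, smul_smul, mul_inv_cancel₀ hc, one_smul,
        add_comm]
    rw [h2, mul_comm]
    refine le_trans ?_ (aux_norm_smul Y _ c hc)
    have h3 : dist ψ ((NormedSpace.inclusionInDoubleDual ℝ Y) (-(c⁻¹ • y))) =
        ‖ψ - (NormedSpace.inclusionInDoubleDual ℝ Y) (-(c⁻¹ • y))‖ :=
      dist_eq_norm ψ ((NormedSpace.inclusionInDoubleDual ℝ Y) (-(c⁻¹ • y)))
    rw [← h3]
    exact mul_le_mul_of_nonneg_left h1 (abs_nonneg c)




section Aux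
variable {Y : Type*} [NormedAddCommGroup Y] [NormedSpace ℝ Y]

/-- iterated limit norm -/
noncomputable def Nrec (U : Ultrafilter Y) : ℕ → (ℕ → ℝ) → Y → ℝ
  | 0, _, y => ‖y‖
  | r+1, a, y => limUnder (U : Filter Y) (fun x => Nrec U r (fun i => a (i+1)) (y + a 0 • x))

lemma Nrec_succ (U : Ultrafilter Y) (r : ℕ) (a : ℕ → ℝ) (y : Y) :
    Nrec U (r+1) a y = limUnder (U : Filter Y) (fun x => Nrec U r (fun i => a (i+1)) (y + a 0 • x)) := rfl

lemma Nrec_zero (U : Ultrafilter Y) (a : ℕ → ℝ) (y : Y) : Nrec U 0 a y = ‖y‖ := rfl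

lemma tendsto_limU (U : Ultrafilter Y) (f : Y → ℝ) (C : ℝ)
    (h : ∀ᶠ x in (U : Filter Y), f x ∈ Set.Icc 0 C) :
    Tendsto f (U : Filter Y) (𝓝 (limUnder (U : Filter Y) f)) ∧
      limUnder (U : Filter Y) f ∈ Set.Icc 0 C := by
  have h' : Set.Icc 0 C ∈ (U.map f) := h
  obtain ⟨x, hx, hle⟩ := isCompact_Icc.ultrafilter_le_nhds' (U.map f) h'
  have ht : Tendsto f (U : Filter Y) (𝓝 x) := hle
  rw [ht.limUnder_eq]
  exact ⟨ht, hx⟩

variable {U : Ultrafilter Y} {R : ℝ}

lemma Nrec_bound (hR : 0 < R) (h2 : Metric.closedBall (0 : Y) R ∈ U) :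
    ∀ (r : ℕ) (a : ℕ → ℝ) (y : Y),
    0 ≤ Nrec U r a y ∧ Nrec U r a y ≤ ‖y‖ + R * ∑ i ∈ range r, |a i| := by
  intro r
  induction r with
  | zero => intro a y; simp [Nrec_zero]
  | succ r ih =>
    intro a y
    have key : ∀ᶠ x in (U : Filter Y), Nrec U r (fun i => a (i+1)) (y + a 0 • x) ∈
        Set.Icc 0 (‖y‖ + R * ∑ i ∈ range (r+1), |a i|) := by
      have h2' : ∀ᶠ x in (U : Filter Y), x ∈ Metric.closedBall (0 : Y) R := h2
      filter_upwards [h2'] with x hx
      have hx' : ‖x‖ ≤ R := by simpa using hx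
      refine ⟨(ih _ _).1, (ih _ _).2.trans ?_⟩
      have e1 : ‖y + a 0 • x‖ ≤ ‖y‖ + |a 0| * R := by
        refine (norm_add_le _ _).trans ?_
        rw [norm_smul, Real.norm_eq_abs]
        gcongr
      rw [Finset.sum_range_succ']
      nlinarith [e1]
    exact (tendsto_limU U _ _ key).2

lemma Nrec_tendsto (hR : 0 < R) (h2 : Metric.closedBall (0 : Y) R ∈ U) (r : ℕ) (a : ℕ → ℝ) (y : Y) :
    Tendsto (fun x => Nrec U r (fun i => a (i+1)) (y + a 0 • x)) (U : Filter Y)
      (𝓝 (Nrec U (r+1) a y)) := by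
  have key : ∀ᶠ x in (U : Filter Y), Nrec U r (fun i => a (i+1)) (y + a 0 • x) ∈
        Set.Icc 0 (‖y‖ + R * ∑ i ∈ range (r+1), |a i|) := by
      have h2' : ∀ᶠ x in (U : Filter Y), x ∈ Metric.closedBall (0 : Y) R := h2
      filter_upwards [h2'] with x hx
      have hx' : ‖x‖ ≤ R := by simpa using hx
      refine ⟨(Nrec_bound hR h2 _ _ _).1, (Nrec_bound hR h2 _ _ _).2.trans ?_⟩
      have e1 : ‖y + a 0 • x‖ ≤ ‖y‖ + |a 0| * R := by
        refine (norm_add_le _ _).trans ?_
        rw [norm_smul, Real.norm_eq_abs]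
        gcongr
      rw [Finset.sum_range_succ']
      nlinarith [e1]
  exact (tendsto_limU U _ _ key).1

lemma Nrec_add (hR : 0 < R) (h2 : Metric.closedBall (0 : Y) R ∈ U) :
    ∀ (r : ℕ) (a b : ℕ → ℝ) (y z : Y),
    Nrec U r (fun i => a i + b i) (y + z) ≤ Nrec U r a y + Nrec U r b z := by
  intro r
  induction r with
  | zero => intro a b y z; simp only [Nrec_zero]; exact norm_add_le _ _
  | succ r ih =>
    intro a b y z
    have t1 := Nrec_tendsto hR h2 r a y
    have t2 := Nrec_tendsto hR h2 r b z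
    have t3 := Nrec_tendsto hR h2 r (fun i => a i + b i) (y + z)
    refine le_of_tendsto_of_tendsto' t3 (t1.add t2) ?_
    intro x
    have h := ih (fun i => a (i+1)) (fun i => b (i+1)) (y + a 0 • x) (z + b 0 • x)
    have e : y + z + (a 0 + b 0) • x = (y + a 0 • x) + (z + b 0 • x) := by
      rw [add_smul]; abel
    show Nrec U r (fun i => a (i+1) + b (i+1)) (y + z + (a 0 + b 0) • x) ≤ _
    rw [e]
    exact h

lemma Nrec_smul (hR : 0 < R) (h2 : Metric.closedBall (0 : Y) R ∈ U) :
    ∀ (r : ℕ) (c : ℝ) (a : ℕ → ℝ) (y : Y),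
    Nrec U r (fun i => c * a i) (c • y) = |c| * Nrec U r a y := by
  intro r
  induction r with
  | zero => intro c a y; simp only [Nrec_zero]; rw [norm_smul, Real.norm_eq_abs]
  | succ r ih =>
    intro c a y
    have t1 := (Nrec_tendsto hR h2 r a y).const_mul |c|
    have t3 := Nrec_tendsto hR h2 r (fun i => c * a i) (c • y)
    refine tendsto_nhds_unique t3 (t1.congr ?_)
    intro x
    have h := ih c (fun i => a (i+1)) (y + a 0 • x)
    have e : c • y + (c * a 0) • x = c • (y + a 0 • x) := by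
      rw [smul_add, smul_smul]
    show _ = Nrec U r (fun i => c * a (i+1)) (c • y + (c * a 0) • x)
    rw [e, h]

lemma Nrec_drop (r : ℕ) (a : ℕ → ℝ) (y : Y) (h0 : a 0 = 0) :
    Nrec U (r+1) a y = Nrec U r (fun i => a (i+1)) y := by
  rw [Nrec_succ]
  have : (fun x : Y => Nrec U r (fun i => a (i+1)) (y + a 0 • x)) =
      fun _ => Nrec U r (fun i => a (i+1)) y := by
    funext x
    rw [h0, zero_smul, add_zero]
  rw [this]
  exact tendsto_const_nhds.limUnder_eq

lemma Nrec_spread : ∀ (m r : ℕ) (g : ℕ → ℕ) (a a' : ℕ → ℝ) (y : Y),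
    (∀ i j, i < j → j < r → g i < g j) → (∀ i, i < r → g i < m) →
    (∀ i, i < r → a' (g i) = a i) → (∀ x, x < m → (∀ i, i < r → g i ≠ x) → a' x = 0) →
    Nrec U m a' y = Nrec U r a y := by
  intro m
  induction m with
  | zero =>
    intro r g a a' y _ hlt _ _
    rcases r with _ | r
    · rfl
    · exact absurd (hlt 0 (Nat.succ_pos _)) (Nat.not_lt_zero _)
  | succ m ih =>
    intro r g a a' y hmono hlt hval hzero
    rcases r with _ | r
    · have h0 : a' 0 = 0 := hzero 0 (Nat.succ_pos _) (fun i hi => absurd hi (Nat.not_lt_zero _))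
      rw [Nrec_drop m a' y h0]
      refine ih 0 g a (fun i => a' (i+1)) y ?_ ?_ ?_ ?_
      · intro i j _ hj; exact absurd hj (Nat.not_lt_zero _)
      · intro i hi; exact absurd hi (Nat.not_lt_zero _)
      · intro i hi; exact absurd hi (Nat.not_lt_zero _)
      · intro x hx _
        exact hzero (x+1) (by omega) (fun i hi => absurd hi (Nat.not_lt_zero _))
    · rcases Nat.eq_zero_or_pos (g 0) with hg | hg
      · rw [Nrec_succ, Nrec_succ]
        have ha : a' 0 = a 0 := by
          have := hval 0 (Nat.succ_pos _)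
          rwa [hg] at this
        have hpos : ∀ i, i < r → 0 < g (i+1) := by
          intro i hi
          have := hmono 0 (i+1) (Nat.succ_pos _) (by omega)
          omega
        congr 1
        funext x
        rw [ha]
        refine ih r (fun i => g (i+1) - 1) (fun i => a (i+1)) (fun i => a' (i+1)) _ ?_ ?_ ?_ ?_
        · intro i j hij hj
          have h1 := hmono (i+1) (j+1) (by omega) (by omega)
          have h2 := hpos i (by omega)
          have h3 := hpos j hj
          show g (i+1) - 1 < g (j+1) - 1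
          omega
        · intro i hi
          have h1 := hlt (i+1) (by omega)
          have h2 := hpos i hi
          show g (i+1) - 1 < m
          omega
        · intro i hi
          have h2 := hpos i hi
          show a' (g (i+1) - 1 + 1) = a (i+1)
          rw [Nat.sub_add_cancel h2]
          exact hval (i+1) (by omega)
        · intro x hx hne
          show a' (x+1) = 0
          refine hzero (x+1) (by omega) ?_
          intro i hi
          rcases i with _ | i
          · rw [hg]; omega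
          · have h2 := hpos i (by omega)
            have h3 := hne i (by omega)
            change g (i+1) - 1 ≠ x at h3
            omega
      · have hpos : ∀ i, i < r + 1 → 0 < g i := by
          intro i hi
          rcases i with _ | i
          · exact hg
          · have := hmono 0 (i+1) (Nat.succ_pos _) hi
            omega
        have h0 : a' 0 = 0 := hzero 0 (Nat.succ_pos _) (fun i hi => by
          have := hpos i hi
          omega)
        rw [Nrec_drop m a' y h0]
        refine ih (r+1) (fun i => g i - 1) a (fun i => a' (i+1)) y ?_ ?_ ?_ ?_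
        · intro i j hij hj
          have h1 := hmono i j hij hj
          have h2 := hpos i (by omega)
          have h3 := hpos j hj
          show g i - 1 < g j - 1
          omega
        · intro i hi
          have h1 := hlt i hi
          have h2 := hpos i hi
          show g i - 1 < m
          omega
        · intro i hi
          have h2 := hpos i hi
          show a' (g i - 1 + 1) = a i
          rw [Nat.sub_add_cancel h2]
          exact hval i hi
        · intro x hx hne
          show a' (x+1) = 0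
          refine hzero (x+1) (by omega) ?_
          intro i hi
          have h2 := hpos i hi
          have h3 := hne i hi
          change g i - 1 ≠ x at h3
          omega

lemma Nrec_lower0 (hR : 0 < R) (h2 : Metric.closedBall (0 : Y) R ∈ U)
    (ψ : StrongDual ℝ (StrongDual ℝ Y))
    (h3 : ∀ φ : StrongDual ℝ Y, Tendsto (fun y => φ y) (U : Filter Y) (𝓝 (ψ φ))) :
    ∀ (r : ℕ) (a : ℕ → ℝ) (y : Y),
    ‖NormedSpace.inclusionInDoubleDual ℝ Y y + (∑ i ∈ range r, a i) • ψ‖ ≤ Nrec U r a y := by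
  intro r
  induction r with
  | zero =>
    intro a y
    simp only [Finset.range_zero, Finset.sum_empty, zero_smul, add_zero, Nrec_zero]
    exact NormedSpace.double_dual_bound ℝ Y y
  | succ r ih =>
    intro a y
    refine ContinuousLinearMap.opNorm_le_bound _ (Nrec_bound hR h2 _ _ _).1 ?_
    intro φ
    have t1 := (Nrec_tendsto hR h2 r a y).mul_const ‖φ‖
    have t2 : Tendsto (fun x : Y => ‖φ (y + a 0 • x) + (∑ i ∈ range r, a (i+1)) * ψ φ‖)
        (U : Filter Y) (𝓝 ‖φ y + a 0 * ψ φ + (∑ i ∈ range r, a (i+1)) * ψ φ‖) := by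
      have t3 : Tendsto (fun x : Y => φ y + a 0 * φ x + (∑ i ∈ range r, a (i+1)) * ψ φ)
          (U : Filter Y) (𝓝 (φ y + a 0 * ψ φ + (∑ i ∈ range r, a (i+1)) * ψ φ)) :=
        (((h3 φ).const_mul (a 0)).const_add (φ y)).add_const _
      refine (t3.norm).congr ?_
      intro x
      simp [map_add, map_smul]
    have e : (NormedSpace.inclusionInDoubleDual ℝ Y y + (∑ i ∈ range (r+1), a i) • ψ) φ
        = φ y + a 0 * ψ φ + (∑ i ∈ range r, a (i+1)) * ψ φ := by
      rw [Finset.sum_range_succ']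
      simp [NormedSpace.dual_def]
      ring
    rw [e]
    refine le_of_tendsto_of_tendsto' t2 t1 ?_
    intro x
    have h := ih (fun i => a (i+1)) (y + a 0 • x)
    have h' := (NormedSpace.inclusionInDoubleDual ℝ Y (y + a 0 • x) +
      (∑ i ∈ range r, a (i+1)) • ψ).le_of_opNorm_le h φ
    simpa [NormedSpace.dual_def] using h'

lemma Nrec_lower (hR : 0 < R) (h2 : Metric.closedBall (0 : Y) R ∈ U) {θ : ℝ}
    (ψ : StrongDual ℝ (StrongDual ℝ Y))
    (h1 : ∀ (y : Y) (c : ℝ), θ * |c| ≤ ‖NormedSpace.inclusionInDoubleDual ℝ Y y + c • ψ‖)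
    (h3 : ∀ φ : StrongDual ℝ Y, Tendsto (fun y => φ y) (U : Filter Y) (𝓝 (ψ φ))) :
    ∀ (r k : ℕ) (a : ℕ → ℝ) (y : Y),
    θ * |∑ i ∈ Ico k r, a i| ≤ Nrec U r a y := by
  intro r
  induction r with
  | zero =>
    intro k a y
    simp [Nrec_zero]
  | succ r ih =>
    intro k a y
    rcases k with _ | k
    · have := Nrec_lower0 hR h2 ψ h3 (r+1) a y
      rw [← Finset.range_eq_Ico]
      exact (h1 _ _).trans this
    · refine ge_of_tendsto' (Nrec_tendsto hR h2 r a y) ?_
      intro x
      have h := ih k (fun i => a (i+1)) (y + a 0 • x)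
      rw [← Finset.sum_Ico_add' (fun i => a i) k r 1]
      exact h

lemma Nrec_repr (hR : 0 < R) (h2 : Metric.closedBall (0 : Y) R ∈ U) :
    ∀ (m : ℕ) (G : Finset ((ℕ → ℝ) × Y)) (ε : ℝ), 0 < ε → ∃ x : ℕ → Y, ∀ p ∈ G,
      |‖p.2 + ∑ i ∈ range m, p.1 i • x i‖ - Nrec U m p.1 p.2| ≤ ε := by
  classical
  intro m
  induction m with
  | zero =>
    intro G ε hε
    refine ⟨fun _ => 0, ?_⟩
    intro p _
    simp [Nrec_zero, hε.le]
  | succ m ih =>
    intro G ε hε
    have hev : ∀ᶠ x in (U : Filter Y), ∀ p ∈ G,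
        |Nrec U m (fun i => p.1 (i+1)) (p.2 + p.1 0 • x) - Nrec U (m+1) p.1 p.2| ≤ ε/2 := by
      rw [Filter.eventually_all_finset]
      intro p _
      have t := Nrec_tendsto hR h2 m p.1 p.2
      rw [Metric.tendsto_nhds] at t
      filter_upwards [t (ε/2) (by linarith)] with x hx
      rw [Real.dist_eq] at hx
      exact hx.le
    obtain ⟨x0, hx0⟩ := hev.exists
    obtain ⟨x', hx'⟩ := ih (G.image (fun p => ((fun i => p.1 (i+1)), p.2 + p.1 0 • x0))) (ε/2) (by linarith)
    refine ⟨fun i => Nat.casesOn i x0 x', ?_⟩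
    intro p hp
    have k1 := hx0 p hp
    have k2 := hx' _ (Finset.mem_image_of_mem _ hp)
    have e : p.2 + ∑ i ∈ range (m+1), p.1 i • (Nat.casesOn i x0 x' : Y)
        = (p.2 + p.1 0 • x0) + ∑ i ∈ range m, p.1 (i+1) • x' i := by
      rw [Finset.sum_range_succ']
      show p.2 + (∑ i ∈ range m, p.1 (i+1) • x' i + p.1 0 • x0) = _
      abel
    show |‖p.2 + ∑ i ∈ range (m+1), p.1 i • (Nat.casesOn i x0 x' : Y)‖ - Nrec U (m+1) p.1 p.2| ≤ ε
    rw [e]
    simp only at k2
    rw [abs_le] at k1 k2 ⊢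
    constructor <;> linarith [k1.1, k1.2, k2.1, k2.2]

end Aux

theorem exists_spread (Y : Type*) [NormedAddCommGroup Y] [NormedSpace ℝ Y] (R θ : ℝ) (hR : 0 < R) (hθ : 0 < θ)
    (ψ : StrongDual ℝ (StrongDual ℝ Y)) (U : Ultrafilter Y)
    (h1 : ∀ (y : Y) (c : ℝ), θ * |c| ≤ ‖NormedSpace.inclusionInDoubleDual ℝ Y y + c • ψ‖)
    (h2 : Metric.closedBall (0 : Y) R ∈ U)
    (h3 : ∀ φ : StrongDual ℝ Y, Tendsto (fun y => φ y) (U : Filter Y) (𝓝 (ψ φ))) :
    ∃ S : SpreadNorm R θ, Repr S Y := by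
  classical
  refine ⟨{ N := fun r a => Nrec U r a 0
            add_le := ?_
            smul := ?_
            spread := ?_
            upper := ?_
            lower := ?_ }, ?_⟩
  · intro r a b
    have h := Nrec_add hR h2 r a b 0 0
    rwa [add_zero] at h
  · intro r c a
    have h := Nrec_smul hR h2 r c a 0
    rwa [smul_zero] at h
  · intro r m g a a' hg1 hg2 hg3 hg4
    exact Nrec_spread m r g a a' 0 hg1 hg2 hg3 hg4
  · intro r a
    have h := (Nrec_bound hR h2 r a 0).2
    rwa [norm_zero, zero_add] at h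
  · intro r a k
    exact Nrec_lower hR h2 ψ h1 h3 r k a 0
  · intro m F ε hε
    obtain ⟨x, hx⟩ := Nrec_repr hR h2 m (F.image (fun a => (a, (0 : Y)))) ε hε
    refine ⟨x, ?_⟩
    intro a ha
    have h := hx _ (Finset.mem_image_of_mem _ ha)
    simpa using h



/-- the enumeration of the blocks -/
def j17085_g (t : ℕ) (P Q : ℕ → ℕ → ℕ) (q : ℕ) : ℕ :=
  if (q / t) % 2 = 0 then P (q % t) (q / t / 2) else Q (t - 1 - q % t) (q / t / 2)

theorem j17085_div (t : ℕ) {s j : ℕ} (hj : j < t) :
    (t * s + j) / t = s ∧ (t * s + j) % t = j := by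
  constructor
  · rw [Nat.mul_add_div (by omega), Nat.div_eq_of_lt hj, add_zero]
  · rw [Nat.mul_add_mod, Nat.mod_eq_of_lt hj]

theorem j17085_gP (t : ℕ) (P Q : ℕ → ℕ → ℕ) {i j : ℕ} (hj : j < t) :
    j17085_g t P Q (t * (2 * i) + j) = P j i := by
  unfold j17085_g
  rw [(j17085_div t hj).1, (j17085_div t hj).2, if_pos (by omega)]
  congr 1
  omega

theorem j17085_gQ (t : ℕ) (P Q : ℕ → ℕ → ℕ) {i j : ℕ} (hj : j < t) :
    j17085_g t P Q (t * (2 * i + 1) + j) = Q (t - 1 - j) i := by
  unfold j17085_g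
  rw [(j17085_div t hj).1, (j17085_div t hj).2, if_neg (by omega)]
  congr 1
  omega

theorem j17085_decomp (t : ℕ) (ht : 1 ≤ t) (M q : ℕ) (hq : q < 2 * t * M) :
    ∃ i j, i < M ∧ j < t ∧ (q = t * (2 * i) + j ∨ q = t * (2 * i + 1) + j) := by
  have h1 : t * (q / t) + q % t = q := Nat.div_add_mod q t
  have h2 : q / t < 2 * M := by
    rw [Nat.div_lt_iff_lt_mul (by omega)]
    calc q < 2 * t * M := hq
      _ = 2 * M * t := by ring
  refine ⟨q / t / 2, q % t, by omega, Nat.mod_lt _ (by omega), ?_⟩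
  rcases Nat.mod_two_eq_zero_or_one (q / t) with h | h
  · left
    have : 2 * (q / t / 2) = q / t := by omega
    rw [this]; exact h1.symm
  · right
    have : 2 * (q / t / 2) + 1 = q / t := by omega
    rw [this]; exact h1.symm

theorem j17085_mono (g : ℕ → ℕ) (r : ℕ) (h : ∀ q, q + 1 < r → g q < g (q + 1)) :
    ∀ i j, i < j → j < r → g i < g j := by
  intro i j hij
  induction j, hij using Nat.le_induction with
  | base => intro hr; exact h i hr
  | succ j hj ih =>
    intro hr
    exact (ih (by omega)).trans (h j hr)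

theorem nested_norm {R θ : ℝ} (hθ : 0 < θ) (hR : 0 ≤ R) (S : SpreadNorm R θ)
    (hint : ∀ (r k l : ℕ) (a : ℕ → ℝ),
      S.N r (fun i => if k ≤ i ∧ i < l then a i else 0) ≤ (1 + R / θ) * (2 + R / θ) * S.N r a)
    (t M m : ℕ) (ht : 1 ≤ t) (hM : 1 ≤ M) (P Q : ℕ → ℕ → ℕ)
    (hP : ∀ j i, j + 1 < t → i < M → P j i < P (j + 1) i)
    (hPQ : ∀ i, i < M → P (t - 1) i < Q (t - 1) i)
    (hQ : ∀ j i, j + 1 < t → i < M → Q (j + 1) i < Q j i)
    (hnext : ∀ i, i + 1 < M → Q 0 i < P 0 (i + 1))
    (hm : ∀ i, i < M → Q 0 i < m)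
    (H : ℕ → ℝ)
    (hHP : ∀ j i, j < t → i < M → H (P j i) = -1)
    (hHQ : ∀ j i, j < t → i < M → H (Q j i) = 1)
    (hH0 : ∀ x, P 0 0 ≤ x → x ≤ Q 0 (M - 1) →
      (∀ j i, j < t → i < M → P j i ≠ x ∧ Q j i ≠ x) → H x = 0) :
    S.N (2 * t * M) (u t) ≤ (1 + R / θ) * (2 + R / θ) * S.N m H := by
  have hstep : ∀ q, q + 1 < 2 * t * M → j17085_g t P Q q < j17085_g t P Q (q + 1) := by
    intro q hq
    obtain ⟨i, j, hi, hj, h | h⟩ := j17085_decomp t ht M q (by omega)
    · by_cases hj1 : j + 1 < t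
      · have e : q + 1 = t * (2 * i) + (j + 1) := by omega
        rw [e, h, j17085_gP t P Q hj, j17085_gP t P Q hj1]
        exact hP j i hj1 hi
      · have hjt : j = t - 1 := by omega
        have e : q + 1 = t * (2 * i + 1) + 0 := by
          rw [h, mul_add, mul_one]; omega
        rw [e, h, j17085_gP t P Q hj, j17085_gQ t P Q (by omega), hjt, Nat.sub_zero]
        exact hPQ i hi
    · by_cases hj1 : j + 1 < t
      · have e : q + 1 = t * (2 * i + 1) + (j + 1) := by omega
        rw [e, h, j17085_gQ t P Q hj, j17085_gQ t P Q hj1]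
        have h1 := hQ (t - 1 - (j + 1)) i (by omega) hi
        have h2 : t - 1 - (j + 1) + 1 = t - 1 - j := by omega
        rwa [h2] at h1
      · have hjt : j = t - 1 := by omega
        have e : q + 1 = t * (2 * (i + 1)) + 0 := by
          have : t * (2 * (i + 1)) = t * (2 * i + 1) + t := by ring
          rw [h, this]; omega
        have hi1 : i + 1 < M := by
          by_contra hcon
          have hiM : i + 1 = M := by omega
          rw [e, hiM] at hq
          have : t * (2 * M) = 2 * t * M := by ring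
          omega
        rw [e, h, j17085_gQ t P Q hj, j17085_gP t P Q (by omega), hjt, Nat.sub_self]
        exact hnext i hi1
  have hmono := j17085_mono (j17085_g t P Q) (2 * t * M) hstep
  have htM : 1 ≤ t * M := Nat.mul_pos ht hM
  have e2 : 2 * t * M = 2 * (t * M) := by ring
  have h0 : j17085_g t P Q 0 = P 0 0 := by
    have := j17085_gP t P Q (i := 0) (j := 0) ht
    simpa using this
  have hlast : j17085_g t P Q (2 * t * M - 1) = Q 0 (M - 1) := by
    have e : 2 * t * M - 1 = t * (2 * (M - 1) + 1) + (t - 1) := by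
      obtain ⟨M', rfl⟩ : ∃ M', M = M' + 1 := ⟨M - 1, by omega⟩
      obtain ⟨t', rfl⟩ : ∃ t', t = t' + 1 := ⟨t - 1, by omega⟩
      simp only [Nat.add_sub_cancel]
      have : 2 * (t' + 1) * (M' + 1) = (t' + 1) * (2 * M' + 1) + t' + 1 := by ring
      rw [this]
      omega
    rw [e, j17085_gQ t P Q (by omega), Nat.sub_self]
  have hge : ∀ q, q < 2 * t * M → P 0 0 ≤ j17085_g t P Q q := by
    intro q hq
    rcases Nat.eq_zero_or_pos q with h | h
    · rw [h, h0]
    · rw [← h0]; exact (hmono 0 q h hq).le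
  have hle : ∀ q, q < 2 * t * M → j17085_g t P Q q ≤ Q 0 (M - 1) := by
    intro q hq
    rw [← hlast]
    rcases Nat.lt_or_ge q (2 * t * M - 1) with h | h
    · exact (hmono q _ h (by omega)).le
    · have : q = 2 * t * M - 1 := by omega
      rw [← this]
  have hsp := S.spread (2 * t * M) m (j17085_g t P Q) (u t)
    (fun x => if P 0 0 ≤ x ∧ x < Q 0 (M - 1) + 1 then H x else 0) hmono ?_ ?_ ?_
  · rw [← hsp]
    exact hint m (P 0 0) (Q 0 (M - 1) + 1) H
  · intro q hq
    exact lt_of_le_of_lt (hle q hq) (hm (M - 1) (by omega))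
  · intro q hq
    show (if P 0 0 ≤ j17085_g t P Q q ∧ j17085_g t P Q q < Q 0 (M - 1) + 1 then
      H (j17085_g t P Q q) else 0) = u t q
    rw [if_pos ⟨hge q hq, Nat.lt_succ_of_le (hle q hq)⟩]
    obtain ⟨i, j, hi, hj, h | h⟩ := j17085_decomp t ht M q hq
    · rw [h, j17085_gP t P Q hj, hHP j i hj hi]
      unfold u
      rw [(j17085_div t hj).1, if_pos (by omega)]
    · rw [h, j17085_gQ t P Q hj, hHQ _ i (by omega) hi]
      unfold u
      rw [(j17085_div t hj).1, if_neg (by omega)]
  · intro x hx hne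
    show (if P 0 0 ≤ x ∧ x < Q 0 (M - 1) + 1 then H x else 0) = 0
    split_ifs with h
    · refine hH0 x h.1 (Nat.le_of_lt_succ h.2) fun j i hj hi => ⟨?_, ?_⟩
      · rw [← j17085_gP t P Q hj]
        apply hne
        calc t * (2 * i) + j < t * (2 * i) + t := by omega
          _ = t * (2 * i + 1) := by ring
          _ ≤ t * (2 * M) := Nat.mul_le_mul_left _ (by omega)
          _ = 2 * t * M := by ring
      · have h1 := j17085_gQ t P Q (i := i) (j := t - 1 - j) (by omega)
        have h2 : t - 1 - (t - 1 - j) = j := by omega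
        rw [h2] at h1
        rw [← h1]
        apply hne
        calc t * (2 * i + 1) + (t - 1 - j) < t * (2 * i + 1) + t := by omega
          _ = t * (2 * (i + 1)) := by ring
          _ ≤ t * (2 * M) := Nat.mul_le_mul_left _ (by omega)
          _ = 2 * t * M := by ring
    · rfl


/-- position of the q-th boundary point of colour c in a tuple with n colours -/
def idx (n c q : ℕ) : ℕ := 2 * (n * (q / 2) + c) + q % 2

theorem nest_even (n c I : ℕ) : idx n c (2 * I) = 2 * (n * I + c) := by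
  unfold idx
  have h1 : 2 * I / 2 = I := by omega
  have h2 : 2 * I % 2 = 0 := by omega
  rw [h1, h2, add_zero]

theorem nest_odd (n c I : ℕ) : idx n c (2 * I + 1) = 2 * (n * I + c) + 1 := by
  unfold idx
  have h1 : (2 * I + 1) / 2 = I := by omega
  have h2 : (2 * I + 1) % 2 = 1 := by omega
  rw [h1, h2]

theorem nest (n b t : ℕ) (ht : 1 ≤ t) (s : ℕ → ℕ → ℕ) (c c' o : ℕ → ℕ)
    (hs : ∀ j, j ≤ t → ∀ i i', i < i' → i' < 2 * n * (b + 1) → s j i < s j i')
    (hc : ∀ j, j < t → c j < n) (hc' : ∀ j, j < t → c' j < n) (ho : ∀ j, j < t → o j ≤ 1)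
    (hcore : ∀ j, j < t → ∀ q, q < 2 * b →
      s j (idx n (c j) (q + o j)) = s (j + 1) (idx n (c' j) (q + (1 - o j))))
    (hnb : ∀ j, j + 1 < t → c (j + 1) ≠ c' j) :
    ∃ e : ℕ → ℕ, (∀ j, j < t → 1 ≤ e j ∧ e j ≤ 2 * t - 1) ∧
      ∀ j, j + 1 < t → ∀ i, i + e j + 1 ≤ b → i + e (j + 1) ≤ b ∧
        s j (idx n (c j) (2 * (i + e j))) < s (j + 1) (idx n (c (j + 1)) (2 * (i + e (j + 1)))) ∧
        s (j + 1) (idx n (c (j + 1)) (2 * (i + e (j + 1)) + 1)) < s j (idx n (c j) (2 * (i + e j) + 1)) := by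
  let e : ℕ → ℕ := fun j => Nat.rec t (fun j ej => if o j = 0 ∧ c (j + 1) < c' j then ej + 1
    else if o j = 1 ∧ c' j < c (j + 1) then ej - 1 else ej) j
  have he0 : e 0 = t := rfl
  have he : ∀ j, e (j + 1) = if o j = 0 ∧ c (j + 1) < c' j then e j + 1
    else if o j = 1 ∧ c' j < c (j + 1) then e j - 1 else e j := fun j => rfl
  clear_value e
  have hbd : ∀ j, t - j ≤ e j ∧ e j ≤ t + j := by
    intro j
    induction j with
    | zero => rw [he0]; omega
    | succ j ih =>
      rw [he j]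
      split_ifs <;> omega
  refine ⟨e, fun j hj => ?_, ?_⟩
  · have := hbd j
    omega
  · intro j hj i hi
    have hbj := hbd j
    have hI1 : 1 ≤ i + e j := by omega
    have hcj1 := hc (j + 1) hj
    have hcj' := hc' j (by omega)
    have hne := hnb j hj
    have hcomp : ∀ p q, p < q → q < 2 * (n * b + n) → s (j + 1) p < s (j + 1) q := by
      intro p q hpq hq
      refine hs (j + 1) (by omega) p q hpq ?_
      have : 2 * n * (b + 1) = 2 * (n * b + n) := by ring
      omega
    rcases (show o j = 0 ∨ o j = 1 by have := ho j (by omega); omega) with h0 | h0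
    · -- o j = 0
      have c1 := hcore j (by omega) (2 * (i + e j)) (by omega)
      have c2 := hcore j (by omega) (2 * (i + e j) + 1) (by omega)
      rw [h0, Nat.sub_zero, add_zero, nest_odd n (c' j)] at c1
      rw [h0, Nat.sub_zero, add_zero, show 2 * (i + e j) + 1 + 1 = 2 * (i + e j + 1) by ring,
        nest_even n (c' j), Nat.mul_succ] at c2
      rw [c1, c2]
      have hmul : n * (i + e j) + n ≤ n * b := by
        rw [← Nat.mul_succ]
        exact Nat.mul_le_mul_left n (by omega)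
      rcases Nat.lt_or_gt_of_ne hne with h | h
      · have hej : e (j + 1) = e j + 1 := by rw [he j, if_pos ⟨h0, h⟩]
        rw [hej, ← add_assoc, nest_even, nest_odd, Nat.mul_succ]
        refine ⟨by omega, hcomp _ _ (by omega) (by omega), hcomp _ _ (by omega) (by omega)⟩
      · have hej : e (j + 1) = e j := by
          rw [he j, if_neg (by omega), if_neg (by omega)]
        rw [hej, nest_even, nest_odd]
        refine ⟨by omega, hcomp _ _ (by omega) (by omega), hcomp _ _ (by omega) (by omega)⟩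
    · -- o j = 1
      obtain ⟨I, hI⟩ : ∃ I, i + e j = I + 1 := ⟨i + e j - 1, by omega⟩
      have c1 := hcore j (by omega) (2 * I + 1) (by omega)
      have c2 := hcore j (by omega) (2 * (I + 1)) (by omega)
      rw [h0, Nat.sub_self, add_zero, show 2 * I + 1 + 1 = 2 * (I + 1) by ring,
        nest_odd n (c' j)] at c1
      rw [h0, Nat.sub_self, add_zero, nest_even n (c' j), Nat.mul_succ n I] at c2
      rw [hI, c1, c2]
      have hmul : n * I + n + n ≤ n * b := by
        rw [← Nat.mul_succ, ← Nat.mul_succ]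
        exact Nat.mul_le_mul_left n (by omega)
      rcases Nat.lt_or_gt_of_ne hne with h | h
      · have hej : e (j + 1) = e j := by
          rw [he j, if_neg (by omega), if_neg (by omega)]
        rw [hej, hI, nest_even, nest_odd, Nat.mul_succ n I]
        refine ⟨by omega, hcomp _ _ (by omega) (by omega), hcomp _ _ (by omega) (by omega)⟩
      · have hej : e (j + 1) = e j - 1 := by
          rw [he j, if_neg (by omega), if_pos ⟨h0, h⟩]
        have hI2 : i + e (j + 1) = I := by omega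
        rw [hI2, nest_even, nest_odd]
        refine ⟨by omega, hcomp _ _ (by omega) (by omega), hcomp _ _ (by omega) (by omega)⟩



theorem idx_lt17 {n c r r' : ℕ} (hc : c < n) (h : r < r') : idx n c r < idx n c r' := by
  unfold idx
  rcases Nat.lt_or_ge (r / 2) (r' / 2) with h2 | h2
  · have h3 : n * (r / 2 + 1) ≤ n * (r' / 2) := Nat.mul_le_mul_left n h2
    have h4 : n * (r / 2 + 1) = n * (r / 2) + n := by ring
    have h5 : r % 2 < 2 := Nat.mod_lt _ (by norm_num)
    omega
  · have h3 : r / 2 = r' / 2 := by omega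
    rw [h3]
    omega

theorem idx_bd17 {n c r b : ℕ} (hc : c < n) (h : r ≤ 2 * b + 1) : idx n c r < 2 * n * (b + 1) := by
  unfold idx
  have h2 : r / 2 ≤ b := by omega
  have h3 : n * (r / 2) ≤ n * b := Nat.mul_le_mul_left n h2
  have h4 : 2 * n * (b + 1) = 2 * (n * b) + 2 * n := by ring
  have h5 : r % 2 < 2 := Nat.mod_lt _ (by norm_num)
  omega

theorem core_lt17 {n b t : ℕ} (s : ℕ → ℕ → ℕ) (c : ℕ → ℕ)
    (hs : ∀ j, j ≤ t → ∀ i i', i < i' → i' < 2 * n * (b + 1) → s j i < s j i')
    (hc : ∀ j, j < t → c j < n) {j r r' : ℕ} (hj : j < t) (h : r < r') (hr : r' ≤ 2 * b + 1) :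
    s j (idx n (c j) r) < s j (idx n (c j) r') :=
  hs j hj.le _ _ (idx_lt17 (hc j hj) h) (idx_bd17 (hc j hj) hr)

theorem core_inj17 {n b t : ℕ} (s : ℕ → ℕ → ℕ) (c : ℕ → ℕ)
    (hs : ∀ j, j ≤ t → ∀ i i', i < i' → i' < 2 * n * (b + 1) → s j i < s j i')
    (hc : ∀ j, j < t → c j < n) {j r r' : ℕ} (hj : j < t) (hr : r ≤ 2 * b + 1) (hr' : r' ≤ 2 * b + 1)
    (h : s j (idx n (c j) r) = s j (idx n (c j) r')) : r = r' := by
  rcases lt_trichotomy r r' with h1 | h1 | h1
  · have := core_lt17 s c hs hc hj h1 hr'; omega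
  · exact h1
  · have := core_lt17 s c hs hc hj h1 hr; omega

theorem core_le17 {n b t : ℕ} (s : ℕ → ℕ → ℕ) (c : ℕ → ℕ)
    (hs : ∀ j, j ≤ t → ∀ i i', i < i' → i' < 2 * n * (b + 1) → s j i < s j i')
    (hc : ∀ j, j < t → c j < n) {j r r' : ℕ} (hj : j < t) (h : r ≤ r') (hr : r' ≤ 2 * b + 1) :
    s j (idx n (c j) r) ≤ s j (idx n (c j) r') := by
  rcases Nat.lt_or_ge r r' with h1 | h1
  · exact (core_lt17 s c hs hc hj h1 hr).le
  · have : r = r' := le_antisymm h h1
    rw [this]

/-- a point strictly between two consecutive core points is no core point -/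
theorem core_ne17 {n b t : ℕ} (s : ℕ → ℕ → ℕ) (c : ℕ → ℕ)
    (hs : ∀ j, j ≤ t → ∀ i i', i < i' → i' < 2 * n * (b + 1) → s j i < s j i')
    (hc : ∀ j, j < t → c j < n) {j k r x : ℕ} (hj : j < t) (hk : k + 1 ≤ 2 * b + 1) (hr : r ≤ 2 * b + 1)
    (h1 : s j (idx n (c j) k) < x) (h2 : x < s j (idx n (c j) (k + 1))) :
    s j (idx n (c j) r) ≠ x := by
  intro h
  rcases Nat.lt_or_ge k r with h3 | h3
  · have := core_le17 s c hs hc hj (show k + 1 ≤ r from h3) hr
    omega
  · have := core_le17 s c hs hc hj h3 (by omega : k ≤ 2 * b + 1)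
    omega

theorem nest17 {n b t : ℕ} (s : ℕ → ℕ → ℕ) (c : ℕ → ℕ) (e : ℕ → ℕ)
    (he : ∀ j, j < t → 1 ≤ e j ∧ e j ≤ 2 * t - 1)
    (hnest : ∀ j, j + 1 < t → ∀ i, i + e j + 1 ≤ b → i + e (j + 1) ≤ b ∧
        s j (idx n (c j) (2 * (i + e j))) < s (j + 1) (idx n (c (j + 1)) (2 * (i + e (j + 1)))) ∧
        s (j + 1) (idx n (c (j + 1)) (2 * (i + e (j + 1)) + 1)) < s j (idx n (c j) (2 * (i + e j) + 1)))
    {i : ℕ} (hi : i + (2 * t - 1) + 1 ≤ b) {j : ℕ} :
    ∀ d, 1 ≤ d → j + d < t →
      s j (idx n (c j) (2 * (i + e j))) < s (j + d) (idx n (c (j + d)) (2 * (i + e (j + d)))) ∧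
        s (j + d) (idx n (c (j + d)) (2 * (i + e (j + d)) + 1)) < s j (idx n (c j) (2 * (i + e j) + 1)) := by
  intro d
  induction d with
  | zero => intro h; omega
  | succ d ih =>
    intro _ h
    have h1 := hnest (j + d) (by omega) i (by have := he (j + d) (by omega); omega)
    have h2 : j + (d + 1) = j + d + 1 := by ring
    rw [h2]
    rcases Nat.eq_zero_or_pos d with h0 | h0
    · subst h0
      exact ⟨h1.2.1, h1.2.2⟩
    · have h3 := ih h0 (by omega)
      exact ⟨lt_trans h3.1 h1.2.1, lt_trans h1.2.2 h3.2⟩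

theorem pattern {R θ : ℝ} (hθ : 0 < θ) (hR : 0 ≤ R) (S : SpreadNorm R θ) (n b m t : ℕ) (ht : 1 ≤ t)
    (hb : 2 * t + 3 ≤ b)
    (hnn : ∀ (M : ℕ) (P Q : ℕ → ℕ → ℕ) (H : ℕ → ℝ), 1 ≤ M →
      (∀ j i, j + 1 < t → i < M → P j i < P (j + 1) i) →
      (∀ i, i < M → P (t - 1) i < Q (t - 1) i) →
      (∀ j i, j + 1 < t → i < M → Q (j + 1) i < Q j i) →
      (∀ i, i + 1 < M → Q 0 i < P 0 (i + 1)) →
      (∀ i, i < M → Q 0 i < m) →
      (∀ j i, j < t → i < M → H (P j i) = -1) →
      (∀ j i, j < t → i < M → H (Q j i) = 1) →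
      (∀ x, P 0 0 ≤ x → x ≤ Q 0 (M - 1) →
        (∀ j i, j < t → i < M → P j i ≠ x ∧ Q j i ≠ x) → H x = 0) →
      S.N (2 * t * M) (u t) ≤ (1 + R / θ) * (2 + R / θ) * S.N m H)
    (s : ℕ → ℕ → ℕ) (c o : ℕ → ℕ)
    (hs : ∀ j, j ≤ t → ∀ i i', i < i' → i' < 2 * n * (b + 1) → s j i < s j i')
    (hsm : ∀ j, j ≤ t → ∀ i, i < 2 * n * (b + 1) → s j i < m)
    (hc : ∀ j, j < t → c j < n) (ho : ∀ j, j < t → o j ≤ 1)
    (e : ℕ → ℕ) (he : ∀ j, j < t → 1 ≤ e j ∧ e j ≤ 2 * t - 1)
    (hnest : ∀ j, j + 1 < t → ∀ i, i + e j + 1 ≤ b → i + e (j + 1) ≤ b ∧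
        s j (idx n (c j) (2 * (i + e j))) < s (j + 1) (idx n (c (j + 1)) (2 * (i + e (j + 1)))) ∧
        s (j + 1) (idx n (c (j + 1)) (2 * (i + e (j + 1)) + 1)) < s j (idx n (c j) (2 * (i + e j) + 1))) :
    S.N (2 * t * (b - 2 * t - 2)) (u t) ≤ (1 + R / θ) * (2 + R / θ) *
      S.N m (fun x => ∑ j ∈ range t, ∑ q ∈ range (2 * b),
        if s j (idx n (c j) (q + o j)) = x then (-1 : ℝ) ^ (q + o j + 1) else 0) := by

  classical
  set M : ℕ := b - 2 * t - 2 with hM
  have hM1 : 1 ≤ M := by omega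
  have hnestA : ∀ {i : ℕ}, i ≤ M + 1 → ∀ {j j' : ℕ}, j < j' → j' < t →
      s j (idx n (c j) (2 * (i + e j))) < s j' (idx n (c j') (2 * (i + e j'))) ∧
        s j' (idx n (c j') (2 * (i + e j') + 1)) < s j (idx n (c j) (2 * (i + e j) + 1)) := by
    intro i hi j j' hjj hj'
    have h := nest17 s c e he hnest (i := i) (by omega) (j := j) (j' - j) (by omega) (by omega)
    have h2 : j + (j' - j) = j' := by omega
    rw [h2] at h
    exact h
  have hsb : ∀ {j : ℕ}, j < t → e j ≤ 2 * t - 1 := fun hj => (he _ hj).2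
  -- core points avoid those of other colours
  have hneS : ∀ {i j j' r : ℕ}, i < M → j < t → j' < t → j ≠ j' → r ≤ 2 * b + 1 →
      s j' (idx n (c j') r) ≠ s j (idx n (c j) (2 * ((i + 1) + e j))) := by
    intro i j j' r hi hj hj' hne hr
    have e1 := hsb hj
    have e2 := hsb hj'
    rcases Nat.lt_or_gt_of_ne hne with hlt | hgt
    · -- j < j'
      have h1 := (hnestA (i := i + 1) (by omega) hlt hj').1
      have h2 := (hnestA (i := i) (by omega) hlt hj').2
      have h3 : s j (idx n (c j) (2 * (i + e j) + 1)) < s j (idx n (c j) (2 * ((i + 1) + e j))) :=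
        core_lt17 s c hs hc hj (by omega) (by omega)
      apply core_ne17 s c hs hc hj' (k := 2 * (i + e j') + 1) (by omega) hr
      · exact lt_trans h2 h3
      · have h4 : 2 * (i + e j') + 1 + 1 = 2 * (i + 1 + e j') := by ring
        rw [h4]
        exact h1
    · -- j' < j
      have h1 := (hnestA (i := i + 1) (by omega) hgt hj).1
      have h2 := (hnestA (i := i + 1) (by omega) hgt hj).2
      have h3 : s j (idx n (c j) (2 * ((i + 1) + e j))) < s j (idx n (c j) (2 * ((i + 1) + e j) + 1)) :=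
        core_lt17 s c hs hc hj (by omega) (by omega)
      apply core_ne17 s c hs hc hj' (k := 2 * (i + 1 + e j')) (by omega) hr
      · exact h1
      · exact lt_trans h3 h2
  have hneE : ∀ {i j j' r : ℕ}, i < M → j < t → j' < t → j ≠ j' → r ≤ 2 * b + 1 →
      s j' (idx n (c j') r) ≠ s j (idx n (c j) (2 * ((i + 1) + e j) + 1)) := by
    intro i j j' r hi hj hj' hne hr
    have e1 := hsb hj
    have e2 := hsb hj'
    rcases Nat.lt_or_gt_of_ne hne with hlt | hgt
    · -- j < j'
      have h1 := (hnestA (i := i + 1) (by omega) hlt hj').2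
      have h2 := (hnestA (i := i + 2) (by omega) hlt hj').1
      have h3 : s j (idx n (c j) (2 * ((i + 1) + e j) + 1)) < s j (idx n (c j) (2 * ((i + 2) + e j))) :=
        core_lt17 s c hs hc hj (by omega) (by omega)
      apply core_ne17 s c hs hc hj' (k := 2 * (i + 1 + e j') + 1) (by omega) hr
      · exact h1
      · have h4 : 2 * (i + 1 + e j') + 1 + 1 = 2 * (i + 2 + e j') := by ring
        rw [h4]
        exact lt_trans h3 h2
    · -- j' < j
      have h1 := (hnestA (i := i + 1) (by omega) hgt hj).1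
      have h2 := (hnestA (i := i + 1) (by omega) hgt hj).2
      have h3 : s j (idx n (c j) (2 * ((i + 1) + e j))) < s j (idx n (c j) (2 * ((i + 1) + e j) + 1)) :=
        core_lt17 s c hs hc hj (by omega) (by omega)
      apply core_ne17 s c hs hc hj' (k := 2 * (i + 1 + e j')) (by omega) hr
      · exact lt_trans h1 h3
      · exact h2
  refine hnn M (fun j i => s j (idx n (c j) (2 * ((i + 1) + e j))))
    (fun j i => s j (idx n (c j) (2 * ((i + 1) + e j) + 1))) _ hM1 ?_ ?_ ?_ ?_ ?_ ?_ ?_ ?_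
  · intro j i hj hi
    exact (hnestA (i := i + 1) (by omega) (Nat.lt_succ_self j) hj).1
  · intro i hi
    have e1 := hsb (j := t - 1) (by omega)
    exact core_lt17 s c hs hc (by omega) (by omega) (by omega)
  · intro j i hj hi
    exact (hnestA (i := i + 1) (by omega) (Nat.lt_succ_self j) hj).2
  · intro i hi
    have e1 := hsb (j := 0) (by omega)
    exact core_lt17 s c hs hc (by omega) (by omega) (by omega)
  · intro i hi
    have e1 := hsb (j := 0) (by omega)
    exact hsm 0 (by omega) _ (idx_bd17 (hc 0 (by omega)) (by omega))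
  · intro j i hj hi
    have e1 := hsb hj
    have o1 := ho j hj
    have e0 := (he j hj).1
    show (∑ j' ∈ range t, ∑ q ∈ range (2 * b),
        if s j' (idx n (c j') (q + o j')) = s j (idx n (c j) (2 * ((i + 1) + e j)))
          then (-1 : ℝ) ^ (q + o j' + 1) else 0) = -1
    rw [Finset.sum_eq_single j]
    · rw [Finset.sum_eq_single (2 * ((i + 1) + e j) - o j)]
      · have h1 : 2 * ((i + 1) + e j) - o j + o j = 2 * ((i + 1) + e j) := by omega
        rw [h1, if_pos rfl]
        rw [pow_succ, pow_mul]; norm_num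
      · intro q hq hne
        rw [if_neg]
        intro h
        have hq' := Finset.mem_range.1 hq
        have := core_inj17 s c hs hc hj (by omega) (by omega) h
        omega
      · intro h
        exact absurd (Finset.mem_range.2 (by omega)) h
    · intro j' hj' hne
      have hj'' := Finset.mem_range.1 hj'
      apply Finset.sum_eq_zero
      intro q hq
      have hq' := Finset.mem_range.1 hq
      have o2 := ho j' hj''
      rw [if_neg]
      exact hneS hi hj hj'' (Ne.symm hne) (by omega)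
    · intro h
      exact absurd (Finset.mem_range.2 hj) h
  · intro j i hj hi
    have e1 := hsb hj
    have o1 := ho j hj
    have e0 := (he j hj).1
    show (∑ j' ∈ range t, ∑ q ∈ range (2 * b),
        if s j' (idx n (c j') (q + o j')) = s j (idx n (c j) (2 * ((i + 1) + e j) + 1))
          then (-1 : ℝ) ^ (q + o j' + 1) else 0) = 1
    rw [Finset.sum_eq_single j]
    · rw [Finset.sum_eq_single (2 * ((i + 1) + e j) + 1 - o j)]
      · have h1 : 2 * ((i + 1) + e j) + 1 - o j + o j = 2 * ((i + 1) + e j) + 1 := by omega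
        rw [h1, if_pos rfl]
        rw [pow_succ, pow_succ, pow_mul]; norm_num
      · intro q hq hne
        rw [if_neg]
        intro h
        have hq' := Finset.mem_range.1 hq
        have := core_inj17 s c hs hc hj (by omega) (by omega) h
        omega
      · intro h
        exact absurd (Finset.mem_range.2 (by omega)) h
    · intro j' hj' hne
      have hj'' := Finset.mem_range.1 hj'
      apply Finset.sum_eq_zero
      intro q hq
      have hq' := Finset.mem_range.1 hq
      have o2 := ho j' hj''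
      rw [if_neg]
      exact hneE hi hj hj'' (Ne.symm hne) (by omega)
    · intro h
      exact absurd (Finset.mem_range.2 hj) h
  · intro x hx1 hx2 hx
    show (∑ j' ∈ range t, ∑ q ∈ range (2 * b),
        if s j' (idx n (c j') (q + o j')) = x
          then (-1 : ℝ) ^ (q + o j' + 1) else 0) = 0
    apply Finset.sum_eq_zero
    intro j hj
    apply Finset.sum_eq_zero
    intro q hq
    rw [if_neg]
    intro h
    have hj' := Finset.mem_range.1 hj
    have hq' := Finset.mem_range.1 hq
    have o2 := ho j hj'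
    have e1 := hsb hj'
    have e0 := hsb (j := 0) (by omega)
    set r := q + o j with hr
    have hrb : r ≤ 2 * b + 1 := by omega
    rcases Nat.lt_or_ge (r / 2) (e j + 1) with h1 | h1
    · -- r ≤ 2 e j + 1
      have h2 : s j (idx n (c j) r) ≤ s j (idx n (c j) (2 * (0 + e j) + 1)) :=
        core_le17 s c hs hc hj' (by omega) (by omega)
      have h3 : s j (idx n (c j) (2 * (0 + e j) + 1)) ≤ s 0 (idx n (c 0) (2 * (0 + e 0) + 1)) := by
        rcases Nat.eq_zero_or_pos j with h0 | h0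
        · subst h0; exact le_refl _
        · exact (hnestA (i := 0) (by omega) h0 hj').2.le
      have h4 : s 0 (idx n (c 0) (2 * (0 + e 0) + 1)) < s 0 (idx n (c 0) (2 * ((0 + 1) + e 0))) :=
        core_lt17 s c hs hc (by omega) (by omega) (by omega)
      have h5 : s 0 (idx n (c 0) (2 * ((0 + 1) + e 0))) ≤ x := hx1
      omega
    rcases Nat.lt_or_ge (r / 2) (e j + 1 + M) with h2 | h2
    · have h3 := hx j (r / 2 - e j - 1) hj' (by omega)
      have h6 : 2 * ((r / 2 - e j - 1) + 1 + e j) = 2 * (r / 2) := by omega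
      have h7 : s j (idx n (c j) (2 * (r / 2))) ≠ x ∧ s j (idx n (c j) (2 * (r / 2) + 1)) ≠ x := by
        have h8 := h3
        simp only [h6] at h8
        exact h8
      rcases Nat.mod_two_eq_zero_or_one r with h4 | h4
      · have h5 : 2 * (r / 2) = r := by omega
        rw [h5] at h7
        exact h7.1 h
      · have h5 : 2 * (r / 2) + 1 = r := by omega
        rw [h5] at h7
        exact h7.2 h
    · have h3 : s j (idx n (c j) (2 * (M + 1 + e j))) ≤ s j (idx n (c j) r) :=
        core_le17 s c hs hc hj' (by omega) hrb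
      have h4 : s 0 (idx n (c 0) (2 * (M + 1 + e 0))) ≤ s j (idx n (c j) (2 * (M + 1 + e j))) := by
        rcases Nat.eq_zero_or_pos j with h0 | h0
        · subst h0; exact le_refl _
        · exact (hnestA (i := M + 1) (by omega) h0 hj').1.le
      have h5 : s 0 (idx n (c 0) (2 * (M + e 0) + 1)) < s 0 (idx n (c 0) (2 * (M + 1 + e 0))) :=
        core_lt17 s c hs hc (by omega) (by omega) (by omega)
      have h6 : x ≤ s 0 (idx n (c 0) (2 * ((M - 1) + 1 + e 0) + 1)) := hx2
      have h7 : M - 1 + 1 = M := by omega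
      rw [h7] at h6
      omega


/-- Y is finitely representable in X: every finite-dimensional subspace of Y embeds into X almost isometrically. -/
def FinRep (Y X : Type*) [NormedAddCommGroup Y] [NormedSpace ℝ Y] [NormedAddCommGroup X] [NormedSpace ℝ X] : Prop :=
  ∀ (F : Submodule ℝ Y), FiniteDimensional ℝ F → ∀ ε : ℝ, 0 < ε →
    ∃ T : F →ₗ[ℝ] X, ∀ v : F, ‖v‖ ≤ ‖T v‖ ∧ ‖T v‖ ≤ (1 + ε) * ‖v‖

theorem repr_of_finrep {R θ : ℝ} (S : SpreadNorm R θ) (Y X : Type*) [NormedAddCommGroup Y] [NormedSpace ℝ Y]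
    [NormedAddCommGroup X] [NormedSpace ℝ X] (h : Repr S Y) (hYX : FinRep Y X) : Repr S X := by
  classical
  intro m F ε hε
  obtain ⟨x, hx⟩ := h m F (ε / 2) (half_pos hε)
  set W : Submodule ℝ Y := Submodule.span ℝ (x '' (Finset.range m : Set ℕ)) with hW
  have hfd : FiniteDimensional ℝ W :=
    FiniteDimensional.span_of_finite ℝ ((Finset.finite_toSet _).image _)
  set M : ℝ := ∑ a ∈ F, ‖∑ i ∈ range m, a i • x i‖ with hM
  have hM0 : 0 ≤ M := Finset.sum_nonneg fun _ _ => norm_nonneg _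
  obtain ⟨T, hT⟩ := hYX W hfd (ε / (2 * (M + 1))) (by positivity)
  refine ⟨fun i => if h : x i ∈ W then T ⟨x i, h⟩ else 0, ?_⟩
  intro a ha
  have hmem : ∀ i ∈ range m, x i ∈ W := fun i hi =>
    Submodule.subset_span ⟨i, by simpa using hi, rfl⟩
  have hv : (∑ i ∈ range m, a i • x i) ∈ W :=
    Submodule.sum_mem _ fun i hi => Submodule.smul_mem _ _ (hmem i hi)
  have hsum : (∑ i ∈ range m, a i • (if h : x i ∈ W then T ⟨x i, h⟩ else 0)) =
      T ⟨∑ i ∈ range m, a i • x i, hv⟩ := by
    have h1 : (⟨∑ i ∈ range m, a i • x i, hv⟩ : W) =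
        ∑ i ∈ range m, a i • (if h : x i ∈ W then (⟨x i, h⟩ : W) else 0) := by
      apply Subtype.ext
      rw [AddSubmonoidClass.coe_finsetSum]
      change (∑ i ∈ range m, a i • x i) = _
      refine Finset.sum_congr rfl fun i hi => ?_
      rw [dif_pos (hmem i hi)]
      rfl
    rw [h1, map_sum]
    refine Finset.sum_congr rfl fun i hi => ?_
    rw [dif_pos (hmem i hi), dif_pos (hmem i hi), map_smul]
  rw [hsum]
  obtain ⟨h2, h3⟩ := hT ⟨∑ i ∈ range m, a i • x i, hv⟩
  have h4 : ‖(⟨∑ i ∈ range m, a i • x i, hv⟩ : W)‖ = ‖∑ i ∈ range m, a i • x i‖ := rfl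
  rw [h4] at h2 h3
  have h5 : ‖∑ i ∈ range m, a i • x i‖ ≤ M :=
    Finset.single_le_sum (f := fun a : ℕ → ℝ => ‖∑ i ∈ range m, a i • x i‖)
      (fun _ _ => norm_nonneg _) ha
  have h6 : ε / (2 * (M + 1)) * ‖∑ i ∈ range m, a i • x i‖ ≤ ε / 2 := by
    calc ε / (2 * (M + 1)) * ‖∑ i ∈ range m, a i • x i‖ ≤ ε / (2 * (M + 1)) * (M + 1) := by
          gcongr
          linarith
      _ = ε / 2 := by field_simp
  have h7 := hx a ha
  rw [abs_le] at h7 ⊢
  constructor
  · linarith [h7.1]
  · linarith [h7.2]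




end Pool.Agent.Helper256.Ball
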