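import Mathlib
import Pool.Agent.Helper256.Ball.Norm

set_option autoImplicit false
open Finset Filter Topology

namespace Pool.Agent.Helper256.Ball


/-- Gordan's theorem of the alternative. -/
theorem gordan {I J : Type*} [Fintype I] [Fintype J] [Nonempty I] (M : I → J → ℝ) :
    (∃ μ : I → ℝ, (∀ i, 0 ≤ μ i) ∧ ∑ i, μ i = 1 ∧ ∀ j, ∑ i, μ i * M i j = 0) ∨
    (∃ φ : J → ℝ, ∀ i, 0 < ∑ j, φ j * M i j) := by
  classical
  let L : (I → ℝ) →ₗ[ℝ] (J → ℝ) := Fintype.linearCombination ℝ M
  have hL : ∀ μ j, L μ j = ∑ i, μ i * M i j := by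
    intro μ j
    simp [L, Fintype.linearCombination_apply]
  have hLc : Continuous L := L.continuous_of_finiteDimensional
  have hcomp : IsCompact (L '' stdSimplex ℝ I) := (isCompact_stdSimplex (𝕜 := ℝ) (ι := I)).image hLc
  have hconv : Convex ℝ (L '' stdSimplex ℝ I) := (convex_stdSimplex ℝ I).linear_image L
  by_cases h0 : (0 : J → ℝ) ∈ L '' stdSimplex ℝ I
  · left
    obtain ⟨μ, hμ, h⟩ := h0
    refine ⟨μ, hμ.1, hμ.2, fun j => ?_⟩
    rw [← hL, h]
    rfl
  · right
    obtain ⟨f, u, hf0, hf⟩ := geometric_hahn_banach_point_closed hconv hcomp.isClosed h0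
    rw [map_zero] at hf0
    refine ⟨fun j => f (Pi.single j 1), fun i => ?_⟩
    have h1 : L (Pi.single i 1) = M i := by
      ext j
      rw [hL]
      simp [Pi.single_apply]
    have h2 := hf (M i) ⟨Pi.single i 1, single_mem_stdSimplex ℝ i, h1⟩
    have h3 : f (M i) = ∑ j, f (Pi.single j 1) * M i j := by
      have e : M i = ∑ j, (M i j) • (Pi.single j (1 : ℝ) : J → ℝ) := by
        ext j
        simp [Finset.sum_apply, Pi.single_apply]
      conv_lhs => rw [e]
      rw [map_sum]
      refine Finset.sum_congr rfl fun j _ => ?_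
      rw [map_smul, smul_eq_mul, mul_comm]
    rw [← h3]
    linarith



/-- Ramsey property for r-subsets. -/
def Ram (r : ℕ) : Prop :=
  ∀ n : ℕ, ∃ m : ℕ, ∀ (A : Finset ℕ), m ≤ A.card → ∀ P : Finset ℕ → Prop,
    ∃ B ⊆ A, B.card = n ∧ ((∀ T ⊆ B, T.card = r → P T) ∨ (∀ T ⊆ B, T.card = r → ¬ P T))

theorem ram_end {r : ℕ} (hr : Ram r) (k : ℕ) : ∃ m : ℕ, ∀ (A : Finset ℕ), m ≤ A.card →
    ∀ P : Finset ℕ → Prop, ∃ B ⊆ A, B.card = k ∧ ∃ c : ℕ → Prop,
      ∀ T ⊆ B, T.card = r + 1 → ∀ x ∈ T, (∀ y ∈ T, x ≤ y) → (P T ↔ c x) := by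
  classical
  induction k with
  | zero =>
    refine ⟨0, fun A _ P => ⟨∅, Finset.empty_subset _, rfl, fun _ => True, ?_⟩⟩
    intro T hT hc
    have : T = ∅ := Finset.subset_empty.mp hT
    rw [this] at hc; simp at hc
  | succ k ih =>
    obtain ⟨mk, hmk⟩ := ih
    obtain ⟨m', hm'⟩ := hr mk
    refine ⟨m' + 1, fun A hA P => ?_⟩
    have hne : A.Nonempty := by
      rw [← Finset.card_pos]; omega
    set x := A.min' hne with hx
    have hxA : x ∈ A := Finset.min'_mem _ _
    have hA' : m' ≤ (A.erase x).card := by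
      rw [Finset.card_erase_of_mem hxA]; omega
    obtain ⟨B', hB'A, hB'c, hB'⟩ := hm' (A.erase x) hA' (fun T => P (insert x T))
    obtain ⟨B'', hB''B', hB''c, c, hc⟩ := hmk B' (by omega) P
    have hxB'' : x ∉ B'' := fun h => (Finset.mem_erase.mp (hB'A (hB''B' h))).1 rfl
    have hlt : ∀ y ∈ B'', x < y := by
      intro y hy
      have h1 := Finset.mem_erase.mp (hB'A (hB''B' hy))
      exact lt_of_le_of_ne (Finset.min'_le _ _ h1.2) (Ne.symm h1.1)
    obtain ⟨col, hcol⟩ : ∃ col : Prop, ∀ T ⊆ B', T.card = r → (P (insert x T) ↔ col) := by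
      rcases hB' with h | h
      · exact ⟨True, fun T hT hTc => ⟨fun _ => trivial, fun _ => h T hT hTc⟩⟩
      · exact ⟨False, fun T hT hTc => ⟨fun hp => h T hT hTc hp, fun hf => hf.elim⟩⟩
    refine ⟨insert x B'', ?_, ?_, fun y => if y = x then col else c y, ?_⟩
    · intro y hy
      rcases Finset.mem_insert.mp hy with h | h
      · rw [h]; exact hxA
      · exact (Finset.mem_erase.mp (hB'A (hB''B' h))).2
    · rw [Finset.card_insert_of_notMem hxB'', hB''c]
    · intro T hT hTc z hz hzmin
      by_cases hxT : x ∈ T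
      · have hzx : z = x := by
          apply le_antisymm (hzmin x hxT)
          rcases Finset.mem_insert.mp (hT hz) with h | h
          · exact h.ge
          · exact (hlt z h).le
        simp only [hzx, if_true]
        have h1 : insert x (T.erase x) = T := Finset.insert_erase hxT
        rw [← h1]
        apply hcol
        · intro y hy
          have h2 := Finset.mem_erase.mp hy
          rcases Finset.mem_insert.mp (hT h2.2) with h | h
          · exact absurd h h2.1
          · exact hB''B' h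
        · rw [Finset.card_erase_of_mem hxT]; omega
      · have hzx : z ≠ x := fun h => hxT (h ▸ hz)
        simp only [hzx, if_false]
        apply hc T _ hTc z hz hzmin
        intro y hy
        rcases Finset.mem_insert.mp (hT hy) with h | h
        · exact absurd (h ▸ hy) hxT
        · exact h

theorem ram_all (r : ℕ) : Ram r := by
  classical
  induction r with
  | zero =>
    intro n
    refine ⟨n, fun A hA P => ?_⟩
    obtain ⟨B, hB, hBc⟩ := Finset.exists_subset_card_eq hA
    refine ⟨B, hB, hBc, ?_⟩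
    by_cases h : P ∅
    · left; intro T _ hT; rw [Finset.card_eq_zero.mp hT]; exact h
    · right; intro T _ hT; rw [Finset.card_eq_zero.mp hT]; exact h
  | succ r ih =>
    intro n
    obtain ⟨m, hm⟩ := ram_end ih (2 * n)
    refine ⟨m, fun A hA P => ?_⟩
    obtain ⟨B, hBA, hBc, c, hc⟩ := hm A hA P
    have hmin : ∀ T : Finset ℕ, T.card = r + 1 → ∃ x ∈ T, ∀ y ∈ T, x ≤ y := by
      intro T hT
      have hne : T.Nonempty := by rw [← Finset.card_pos]; omega
      exact ⟨T.min' hne, Finset.min'_mem _ _, fun y hy => Finset.min'_le _ _ hy⟩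
    have hsplit : (B.filter (fun x => c x)).card + (B.filter (fun x => ¬ c x)).card = B.card :=
      Finset.card_filter_add_card_filter_not _
    by_cases h1 : n ≤ (B.filter (fun x => c x)).card
    · obtain ⟨B0, hB0, hB0c⟩ := Finset.exists_subset_card_eq h1
      refine ⟨B0, (hB0.trans (Finset.filter_subset _ _)).trans hBA, hB0c, Or.inl ?_⟩
      intro T hT hTc
      obtain ⟨x, hxT, hx⟩ := hmin T hTc
      exact (hc T (hT.trans (hB0.trans (Finset.filter_subset _ _))) hTc x hxT hx).mpr
        (Finset.mem_filter.mp (hB0 (hT hxT))).2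
    · have h2 : n ≤ (B.filter (fun x => ¬ c x)).card := by omega
      obtain ⟨B0, hB0, hB0c⟩ := Finset.exists_subset_card_eq h2
      refine ⟨B0, (hB0.trans (Finset.filter_subset _ _)).trans hBA, hB0c, Or.inr ?_⟩
      intro T hT hTc
      obtain ⟨x, hxT, hx⟩ := hmin T hTc
      exact fun hP => (Finset.mem_filter.mp (hB0 (hT hxT))).2
        ((hc T (hT.trans (hB0.trans (Finset.filter_subset _ _))) hTc x hxT hx).mp hP)

/-- Finite Ramsey theorem for r-tuples and two colours. -/
theorem ramsey (r N : ℕ) : ∃ m : ℕ, ∀ P : (Fin r → Fin m) → Prop, ∃ s : Fin N → Fin m, StrictMono s ∧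
    ((∀ g : Fin r → Fin N, StrictMono g → P (s ∘ g)) ∨ (∀ g : Fin r → Fin N, StrictMono g → ¬ P (s ∘ g))) := by
  classical
  obtain ⟨m, hm⟩ := ram_all r N
  refine ⟨m, fun P => ?_⟩
  obtain ⟨B, hBA, hBc, hB⟩ := hm (Finset.range m) (by simp)
    (fun T => ∃ f : Fin r → Fin m, StrictMono f ∧ (∀ i, ((f i : Fin m) : ℕ) ∈ T) ∧ P f)
  have hlt : ∀ i : Fin N, B.orderEmbOfFin hBc i < m := fun i =>
    Finset.mem_range.mp (hBA (Finset.orderEmbOfFin_mem B hBc i))
  refine ⟨fun i => ⟨B.orderEmbOfFin hBc i, hlt i⟩, fun i j hij => ?_, ?_⟩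
  · exact Fin.mk_lt_mk.mpr ((B.orderEmbOfFin hBc).strictMono hij)
  · -- uniqueness of increasing enumeration
    have huniq : ∀ (g : Fin r → Fin N), StrictMono g → ∀ f : Fin r → Fin m, StrictMono f →
        (∀ i, ((f i : Fin m) : ℕ) ∈ (Finset.univ.image (fun i => B.orderEmbOfFin hBc (g i)))) →
        f = (fun i : Fin N => (⟨B.orderEmbOfFin hBc i, hlt i⟩ : Fin m)) ∘ g := by
      intro g hg f hf hmem
      have hinj : Function.Injective (fun i => B.orderEmbOfFin hBc (g i)) :=
        (B.orderEmbOfFin hBc).injective.comp hg.injective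
      have hcard : (Finset.univ.image (fun i => B.orderEmbOfFin hBc (g i))).card = r := by
        rw [Finset.card_image_of_injective _ hinj]; simp
      have e1 := Finset.orderEmbOfFin_unique (f := fun i => ((f i : Fin m) : ℕ)) hcard hmem
        (fun i j hij => Fin.lt_def.mp (hf hij))
      have e2 := Finset.orderEmbOfFin_unique (f := fun i => B.orderEmbOfFin hBc (g i)) hcard
        (fun i => Finset.mem_image_of_mem _ (Finset.mem_univ i))
        (fun i j hij => (B.orderEmbOfFin hBc).strictMono (hg hij))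
      funext i
      apply Fin.ext
      have := congrFun (e1.trans e2.symm) i
      exact this
    have hcard : ∀ g : Fin r → Fin N, StrictMono g →
        (Finset.univ.image (fun i => B.orderEmbOfFin hBc (g i))).card = r := by
      intro g hg
      have hinj : Function.Injective (fun i => B.orderEmbOfFin hBc (g i)) :=
        (B.orderEmbOfFin hBc).injective.comp hg.injective
      rw [Finset.card_image_of_injective _ hinj]; simp
    have hsub : ∀ g : Fin r → Fin N,
        (Finset.univ.image (fun i => B.orderEmbOfFin hBc (g i))) ⊆ B := by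
      intro g y hy
      obtain ⟨i, _, rfl⟩ := Finset.mem_image.mp hy
      exact Finset.orderEmbOfFin_mem B hBc _
    rcases hB with h | h
    · left
      intro g hg
      obtain ⟨f, hf, hfm, hPf⟩ := h _ (hsub g) (hcard g hg)
      rw [← huniq g hg f hf hfm]; exact hPf
    · right
      intro g hg hP
      apply h _ (hsub g) (hcard g hg)
      refine ⟨_, ?_, ?_, hP⟩
      · intro i j hij
        exact Fin.mk_lt_mk.mpr ((B.orderEmbOfFin hBc).strictMono (hg hij))
      · intro i
        exact Finset.mem_image_of_mem _ (Finset.mem_univ i)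


theorem idx_lt {n b c q : ℕ} (hc : c < n) (hq : q ≤ 2 * b) : idx n c q < 2 * n * (b + 1) := by
  unfold idx
  have h1 : q / 2 ≤ b := by omega
  have h2 : q % 2 < 2 := Nat.mod_lt _ (by norm_num)
  have h3 : n * (q / 2) ≤ n * b := Nat.mul_le_mul_left _ h1
  have h4 : 2 * n * (b + 1) = 2 * (n * b) + 2 * n := by ring
  rw [h4]
  omega

theorem idx_mono849 {n : ℕ} (hn : 1 ≤ n) (c : ℕ) : StrictMono (idx n c) := by
  refine strictMono_nat_of_lt_succ fun q => ?_
  unfold idx
  rcases Nat.even_or_odd' q with ⟨a, rfl | rfl⟩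
  · have h1 : 2 * a / 2 = a := by omega
    have h2 : 2 * a % 2 = 0 := by omega
    have h3 : (2 * a + 1) / 2 = a := by omega
    have h4 : (2 * a + 1) % 2 = 1 := by omega
    rw [h1, h2, h3, h4]
    omega
  · have h1 : (2 * a + 1) / 2 = a := by omega
    have h2 : (2 * a + 1) % 2 = 1 := by omega
    have h3 : (2 * a + 1 + 1) / 2 = a + 1 := by omega
    have h4 : (2 * a + 1 + 1) % 2 = 0 := by omega
    rw [h1, h2, h3, h4]
    have h5 : n * (a + 1) = n * a + n := by ring
    rw [h5]
    omega

/-- offset of a letter: true = A = 0, false = B = 1 -/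
def off (β : Bool) : ℕ := if β then 0 else 1

/-- the core of the half-edge (v, c) -/
def core (n b : ℕ) {V : Type} (s : V → ℕ → ℕ) (β : V → Fin n → Bool) (v : V) (c : Fin n) : Fin (2 * b) → ℕ :=
  fun q => s v (idx n c (q + off (β v c)))

theorem idx_lt' {n b : ℕ} (β : Fin n → Bool) (c : Fin n) (q : Fin (2 * b)) :
    idx n c (q + off (β c)) < 2 * n * (b + 1) := by
  refine idx_lt c.2 ?_
  have h1 := q.2
  unfold off
  split_ifs <;> omega

/-- the core as a function to `Fin m` -/
def coreF (n b m : ℕ) (s : Fin (2 * n * (b + 1)) → Fin m) (β : Fin n → Bool) (c : Fin n) :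
    Fin (2 * b) → Fin m :=
  fun q => s ⟨idx n c (q + off (β c)), idx_lt' β c q⟩

/-- Exactly balanced measure on coloured increasing tuples. -/
theorem balanced (n b : ℕ) (hn : 1 ≤ n)
    (ramsey : ∀ (r N : ℕ), ∃ m : ℕ, ∀ P : (Fin r → Fin m) → Prop, ∃ s : Fin N → Fin m, StrictMono s ∧
      ((∀ g : Fin r → Fin N, StrictMono g → P (s ∘ g)) ∨ (∀ g : Fin r → Fin N, StrictMono g → ¬ P (s ∘ g))))
    (gordan : ∀ {I J : Type} [Fintype I] [Fintype J] [Nonempty I] (M : I → J → ℝ),
      (∃ μ : I → ℝ, (∀ i, 0 ≤ μ i) ∧ ∑ i, μ i = 1 ∧ ∀ j, ∑ i, μ i * M i j = 0) ∨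
      (∃ φ : J → ℝ, ∀ i, 0 < ∑ j, φ j * M i j)) :
    ∃ (m : ℕ) (V : Type) (_ : Fintype V) (s : V → ℕ → ℕ) (β : V → Fin n → Bool) (μ : V → ℝ),
      (∀ v i j, i < j → j < 2 * n * (b + 1) → s v i < s v j) ∧
      (∀ v i, i < 2 * n * (b + 1) → s v i < m) ∧
      (∀ v, 0 < μ v) ∧ ∑ v, μ v = 1 ∧
      ∀ κ : Fin (2 * b) → ℕ, ∑ v, ∑ c, (if core n b s β v c = κ then (if β v c then μ v else - μ v) else 0) = 0 := by
  classical
  obtain ⟨m, hm⟩ := ramsey (2 * b) (2 * n * (b + 1))
  let I : Type := {s : Fin (2 * n * (b + 1)) → Fin m // StrictMono s} × (Fin n → Bool)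
  let J : Type := Fin (2 * b) → Fin m
  haveI hIne : Nonempty I := by
    obtain ⟨s, hs, _⟩ := hm (fun _ => True)
    exact ⟨(⟨s, hs⟩, fun _ => true)⟩
  let M : I → J → ℝ := fun i κ => ∑ c : Fin n,
    if coreF n b m i.1.1 i.2 c = κ then (if i.2 c then (1 : ℝ) else -1) else 0
  have hcomp : ∀ (s : Fin (2 * n * (b + 1)) → Fin m) (β : Fin n → Bool) (c : Fin n),
      ∃ g : Fin (2 * b) → Fin (2 * n * (b + 1)), StrictMono g ∧ coreF n b m s β c = s ∘ g := by
    intro s β c
    refine ⟨fun q => ⟨idx n c (q + off (β c)), idx_lt' β c q⟩, ?_, rfl⟩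
    intro q q' hqq
    exact idx_mono849 hn c (Nat.add_lt_add_right hqq _)
  rcases gordan M with ⟨μ, hμ0, hμ1, hμM⟩ | ⟨φ, hφ⟩
  · have hsub : ∀ f : I → ℝ, (∀ i, μ i = 0 → f i = 0) →
        ∑ v : {i : I // 0 < μ i}, f v.1 = ∑ i, f i := by
      intro f hf
      rw [← Finset.sum_subtype (Finset.univ.filter fun i => 0 < μ i) (by simp) f,
        Finset.sum_filter]
      refine Finset.sum_congr rfl fun i _ => ?_
      split_ifs with h
      · rfl
      · exact (hf i (le_antisymm (not_lt.mp h) (hμ0 i))).symm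
    refine ⟨m, {i : I // 0 < μ i}, inferInstance,
      fun v k => if h : k < 2 * n * (b + 1) then (v.1.1.1 ⟨k, h⟩ : ℕ) else k,
      fun v => v.1.2, fun v => μ v.1, ?_, ?_, fun v => v.2, ?_, ?_⟩
    · intro v i j hij hj
      have hi : i < 2 * n * (b + 1) := hij.trans hj
      simp only [hi, hj, dif_pos]
      exact v.1.1.2 (show (⟨i, hi⟩ : Fin (2 * n * (b + 1))) < ⟨j, hj⟩ from hij)
    · intro v i hi
      simp only [hi, dif_pos]
      exact (v.1.1.1 ⟨i, hi⟩).2
    · rw [hsub μ (fun i hi => hi), hμ1]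
    · intro κ
      have hcore : ∀ (v : {i : I // 0 < μ i}) (c : Fin n) (q : Fin (2 * b)),
          core n b (fun (v : {i : I // 0 < μ i}) k =>
            if h : k < 2 * n * (b + 1) then (v.1.1.1 ⟨k, h⟩ : ℕ) else k)
            (fun v => v.1.2) v c q = (coreF n b m v.1.1.1 v.1.2 c q : ℕ) := by
        intro v c q
        simp only [core, coreF]
        rw [dif_pos (idx_lt' v.1.2 c q)]
      by_cases hκ : ∀ q, κ q < m
      · have heq : ∀ (v : {i : I // 0 < μ i}) (c : Fin n),
            (core n b (fun (v : {i : I // 0 < μ i}) k =>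
              if h : k < 2 * n * (b + 1) then (v.1.1.1 ⟨k, h⟩ : ℕ) else k)
              (fun v => v.1.2) v c = κ) ↔
              coreF n b m v.1.1.1 v.1.2 c = (fun q => ⟨κ q, hκ q⟩ : J) := by
          intro v c
          constructor
          · intro h
            funext q
            apply Fin.ext
            rw [← hcore v c q, h]
          · intro h
            funext q
            rw [hcore v c q, h]
        have hterm : ∀ v : {i : I // 0 < μ i},
            (∑ c, (if core n b (fun (v : {i : I // 0 < μ i}) k =>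
              if h : k < 2 * n * (b + 1) then (v.1.1.1 ⟨k, h⟩ : ℕ) else k)
              (fun v => v.1.2) v c = κ then (if v.1.2 c then μ v.1 else - μ v.1) else 0)) =
              μ v.1 * M v.1 (fun q => ⟨κ q, hκ q⟩ : J) := by
          intro v
          simp only [M]
          rw [Finset.mul_sum]
          refine Finset.sum_congr rfl fun c _ => ?_
          rw [if_congr (heq v c) rfl rfl]
          split_ifs <;> ring
        rw [Finset.sum_congr rfl fun v _ => hterm v]
        rw [hsub (fun i => μ i * M i (fun q => ⟨κ q, hκ q⟩ : J)) (fun i hi => by simp [hi])]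
        exact hμM _
      · push Not at hκ
        obtain ⟨q, hq⟩ := hκ
        refine Finset.sum_eq_zero fun v _ => Finset.sum_eq_zero fun c _ => ?_
        rw [if_neg]
        intro h
        have h1 := congrFun h q
        rw [hcore v c q] at h1
        have h2 := (coreF n b m v.1.1.1 v.1.2 c q).2
        omega
  · exfalso
    obtain ⟨s, hs, hP | hP⟩ := hm (fun κ => 0 < φ κ)
    · have h1 := hφ (⟨s, hs⟩, fun _ => false)
      have h2 : ∑ κ, φ κ * M (⟨s, hs⟩, fun _ => false) κ =
          ∑ c : Fin n, -φ (coreF n b m s (fun _ => false) c) := by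
        simp only [M, Finset.mul_sum]
        rw [Finset.sum_comm]
        refine Finset.sum_congr rfl fun c _ => ?_
        rw [Finset.sum_eq_single (coreF n b m s (fun _ => false) c)]
        · simp
        · intro κ _ hκ
          rw [if_neg (Ne.symm hκ), mul_zero]
        · intro h
          exact absurd (Finset.mem_univ _) h
      rw [h2] at h1
      have h3 : ∑ c : Fin n, -φ (coreF n b m s (fun _ => false) c) ≤ 0 := by
        refine Finset.sum_nonpos fun c _ => ?_
        obtain ⟨g, hg, he⟩ := hcomp s (fun _ => false) c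
        have := hP g hg
        rw [he]
        linarith
      linarith
    · have h1 := hφ (⟨s, hs⟩, fun _ => true)
      have h2 : ∑ κ, φ κ * M (⟨s, hs⟩, fun _ => true) κ =
          ∑ c : Fin n, φ (coreF n b m s (fun _ => true) c) := by
        simp only [M, Finset.mul_sum]
        rw [Finset.sum_comm]
        refine Finset.sum_congr rfl fun c _ => ?_
        rw [Finset.sum_eq_single (coreF n b m s (fun _ => true) c)]
        · simp
        · intro κ _ hκ
          rw [if_neg (Ne.symm hκ), mul_zero]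
        · intro h
          exact absurd (Finset.mem_univ _) h
      rw [h2] at h1
      have h3 : ∑ c : Fin n, φ (coreF n b m s (fun _ => true) c) ≤ 0 := by
        refine Finset.sum_nonpos fun c _ => ?_
        obtain ⟨g, hg, he⟩ := hcomp s (fun _ => true) c
        have := hP g hg
        rw [he]
        exact not_lt.mp this
      linarith


end Pool.Agent.Helper256.Ball
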