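import Mathlib
import Pool.Agent.Helper256.Ball.Norm
import Pool.Agent.Helper256.Ball.Comb
import Pool.Agent.Helper256.Ball.Chain

set_option autoImplicit false
open Finset Filter Topology

namespace Pool.Agent.Helper256.Ball

section assembly

variable {n b m : ℕ} {V : Type}

/-- label of the half-edge a = (v, c): jumps -1 at starts, +1 at ends of the colour c intervals -/
def lab (n b m : ℕ) {V : Type} (s : V → ℕ → ℕ) (β : V → Fin n → Bool) (a : V × Fin n) : Fin m → ℤ :=
  fun x => ∑ q ∈ range (2 * b),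
    if s a.1 (idx n a.2 (q + off (β a.1 a.2))) = (x : ℕ) then (-1 : ℤ) ^ (q + off (β a.1 a.2) + 1) else 0

theorem off_not (x y : Bool) (h : x ≠ y) : off y = 1 - off x := by
  cases x <;> cases y <;> simp_all [off]

theorem off_le (x : Bool) : off x ≤ 1 := by
  cases x <;> simp [off]

theorem lab_neg (s : V → ℕ → ℕ) (β : V → Fin n → Bool) (a a' : V × Fin n)
    (h1 : β a.1 a.2 ≠ β a'.1 a'.2) (h2 : core n b s β a.1 a.2 = core n b s β a'.1 a'.2) :
    lab n b m s β a' = - lab n b m s β a := by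
  funext x
  simp only [lab, Pi.neg_apply]
  rw [← Finset.sum_neg_distrib]
  refine Finset.sum_congr rfl (fun q hq => ?_)
  have hq' : q < 2 * b := Finset.mem_range.mp hq
  have h3 := congrFun h2 ⟨q, hq'⟩
  simp only [core] at h3
  rw [h3]
  have h4 : (-1 : ℤ) ^ (q + off (β a'.1 a'.2) + 1) = - (-1 : ℤ) ^ (q + off (β a.1 a.2) + 1) := by
    cases hx : β a.1 a.2 <;> cases hy : β a'.1 a'.2 <;> simp_all [off, pow_succ]
  split_ifs
  · exact h4
  · simp

/-- the ordered label as a real function on the naturals -/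
theorem lab_norm {R θ : ℝ} (S : SpreadNorm R θ) (s : V → ℕ → ℕ) (β : V → Fin n → Bool)
    (hs : ∀ v i j, i < j → j < 2 * n * (b + 1) → s v i < s v j)
    (hsm : ∀ v i, i < 2 * n * (b + 1) → s v i < m) (a : V × Fin n)
    (f : ℕ → ℝ) (hf : ∀ x : Fin m, f x = (lab n b m s β a x : ℝ)) :
    S.N m f = S.N (2 * b) (u 1) := by
  have hidx : ∀ q, q + off (β a.1 a.2) < 2 * b + 1 → idx n a.2 (q + off (β a.1 a.2)) < 2 * n * (b + 1) :=
    fun q hq => idx_lt a.2.2 (by omega)
  have hmono : ∀ q q' : ℕ, q < q' → q' < 2 * b →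
      s a.1 (idx n a.2 (q + off (β a.1 a.2))) < s a.1 (idx n a.2 (q' + off (β a.1 a.2))) := by
    intro q q' hq hq'
    have ho := off_le (β a.1 a.2)
    apply hs
    · have hn : 1 ≤ n := by have := a.2.2; omega
      have key : ∀ k : ℕ, idx n a.2 k < idx n a.2 (k + 1) := by
        intro k
        unfold idx
        rcases Nat.even_or_odd k with ⟨l, hl⟩ | ⟨l, hl⟩
        · have e1 : k / 2 = l := by omega
          have e2 : k % 2 = 0 := by omega
          have e3 : (k + 1) / 2 = l := by omega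
          have e4 : (k + 1) % 2 = 1 := by omega
          rw [e1, e2, e3, e4]; omega
        · have e1 : k / 2 = l := by omega
          have e2 : k % 2 = 1 := by omega
          have e3 : (k + 1) / 2 = l + 1 := by omega
          have e4 : (k + 1) % 2 = 0 := by omega
          rw [e1, e2, e3, e4]; have := Nat.mul_succ n l; simp only [Nat.succ_eq_add_one] at this; omega
      exact strictMono_nat_of_lt_succ key (by omega)
    · apply idx_lt a.2.2; omega
  have hval : ∀ q, q < 2 * b → ∀ hx : s a.1 (idx n a.2 (q + off (β a.1 a.2))) < m,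
      lab n b m s β a ⟨_, hx⟩ = (-1 : ℤ) ^ (q + off (β a.1 a.2) + 1) := by
    intro q hq hx
    simp only [lab]
    rw [Finset.sum_eq_single q]
    · simp
    · intro q' hq' hne
      have hq'' := Finset.mem_range.mp hq'
      rcases lt_or_gt_of_ne hne with h | h
      · rw [if_neg]; exact (hmono q' q h hq).ne
      · rw [if_neg]; exact (hmono q q' h hq'').ne'
    · intro h; exact absurd (Finset.mem_range.mpr hq) h
  have hlt : ∀ q, q < 2 * b → s a.1 (idx n a.2 (q + off (β a.1 a.2))) < m := by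
    intro q hq
    apply hsm
    apply idx_lt a.2.2
    have ho := off_le (β a.1 a.2); omega
  -- spread
  have h1 := S.spread (2 * b) m (fun q => s a.1 (idx n a.2 (q + off (β a.1 a.2))))
    (fun q => ((-1 : ℝ)) ^ (q + off (β a.1 a.2) + 1)) f hmono hlt
    (by
      intro q hq
      have e := hval q hq (hlt q hq)
      have e2 := hf ⟨_, hlt q hq⟩
      simp only at e2
      rw [e2, e]; push_cast; rfl)
    (by
      intro x hx hne
      have e2 := hf ⟨x, hx⟩
      simp only at e2
      rw [e2]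
      simp only [lab]
      rw [Finset.sum_eq_zero]
      · simp
      · intro q hq
        rw [if_neg]
        exact hne q (Finset.mem_range.mp hq))
  rw [h1]
  have h2 : ∀ q : ℕ, u 1 q = (-1 : ℝ) ^ (q + 1) := by
    intro q
    unfold u
    rw [Nat.div_one]
    rcases Nat.even_or_odd q with ⟨l, hl⟩ | ⟨l, hl⟩
    · rw [if_pos (by omega), hl, pow_succ, ← two_mul, pow_mul]; simp
    · rw [if_neg (by omega), hl, pow_succ, pow_succ, pow_mul]; simp
  cases hx : β a.1 a.2
  · have h3 : (fun q : ℕ => (-1 : ℝ) ^ (q + off false + 1)) = (fun q => (-1) * u 1 q) := by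
      funext q; rw [h2]; simp only [off]; simp [pow_succ]
    rw [h3, S.smul]; simp
  · have h3 : (fun q : ℕ => (-1 : ℝ) ^ (q + off true + 1)) = u 1 := by
      funext q; rw [h2]; simp [off]
    rw [h3]

end assembly

/-- extension of an integer vector by zero -/
def ext {m : ℕ} (z : Fin m → ℤ) : ℕ → ℝ := fun i => if h : i < m then (z ⟨i, h⟩ : ℝ) else 0

theorem N_congr {R θ : ℝ} (S : SpreadNorm R θ) (m : ℕ) (f g : ℕ → ℝ) (h : ∀ i, i < m → f i = g i) :
    S.N m f = S.N m g :=
  S.spread m m id g f (fun i j hij _ => hij) (fun i hi => hi) (fun i hi => h i hi)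
    (fun x hx hne => absurd rfl (hne x hx))

theorem sum_ext {X : Type*} [NormedAddCommGroup X] [NormedSpace ℝ X] {m : ℕ} (z : Fin m → ℤ) (y : ℕ → X) :
    ∑ x : Fin m, (z x : ℝ) • y x = ∑ i ∈ range m, ext z i • y i := by
  rw [Finset.sum_range]
  refine Finset.sum_congr rfl (fun i _ => ?_)
  simp [ext]

set_option maxHeartbeats 1000000 in
theorem key {X : Type*} [NormedAddCommGroup X] [NormedSpace ℝ X] {p C : ℝ} (hp : 1 < p) (hC : 0 ≤ C)
    (hX : MT X p C) {R θ : ℝ} (hθ : 0 < θ) (hR : 0 ≤ R) (S : SpreadNorm R θ) (hS : Repr S X)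
    (t b : ℕ) (ht : 1 ≤ t) (hb : 2 * t + 3 ≤ b) (A ℓ : ℝ) (hℓ : 0 < ℓ)
    (hup : S.N (2 * b) (u 1) < A)
    (hlow : (1 + R / θ) * (2 + R / θ) * ℓ < S.N (2 * t * (b - 2 * t - 2)) (u t)) :
    (1 / 2) * ℓ ^ p ≤ C * t * A ^ p := by
  classical
  obtain ⟨m, V, hVf, s, β, μ, hs, hsm, hμ, hμ1, hbal⟩ := balanced (2 * t) b (by omega) ramsey gordan
  obtain ⟨n, hn⟩ : ∃ n, n = 2 * t := ⟨_, rfl⟩
  rw [← hn] at hs hsm
  subst hn
  have hn1 : (0 : ℝ) < ((2 * t : ℕ) : ℝ) := by
    have : 0 < 2 * t := by omega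
    exact_mod_cast this
  -- masses
  let cond : (V × Fin (2 * t)) × (V × Fin (2 * t)) → Prop := fun e =>
    β e.1.1 e.1.2 ≠ β e.2.1 e.2.2 ∧ core (2 * t) b s β e.1.1 e.1.2 = core (2 * t) b s β e.2.1 e.2.2
  let ν : Bool → (Fin (2 * b) → ℕ) → ℝ := fun o κ =>
    ∑ a : V × Fin (2 * t), if β a.1 a.2 = o ∧ core (2 * t) b s β a.1 a.2 = κ then μ a.1 else 0
  have hν : ∀ κ, ν true κ = ν false κ := by
    intro κ
    have h1 := hbal κ
    have h2 : ν true κ - ν false κ =
        ∑ v, ∑ c, (if core (2 * t) b s β v c = κ then (if β v c then μ v else - μ v) else 0) := by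
      simp only [ν]
      rw [← Finset.sum_sub_distrib, Fintype.sum_prod_type]
      refine Finset.sum_congr rfl (fun v _ => Finset.sum_congr rfl (fun c _ => ?_))
      by_cases hk : core (2 * t) b s β v c = κ <;> cases hb' : β v c <;> simp [hk]
    linarith [h1, h2]
  have hν' : ∀ o o' κ, ν o κ = ν o' κ := by
    intro o o' κ
    cases o <;> cases o' <;> simp [hν κ]
  have hνpos : ∀ (a : V × Fin (2 * t)) (o : Bool), 0 < ν o (core (2 * t) b s β a.1 a.2) := by
    intro a o
    rw [hν' o (β a.1 a.2)]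
    simp only [ν]
    have h1 : (if β a.1 a.2 = β a.1 a.2 ∧ core (2 * t) b s β a.1 a.2 = core (2 * t) b s β a.1 a.2 then μ a.1 else 0) ≤
        ∑ a' : V × Fin (2 * t), (if β a'.1 a'.2 = β a.1 a.2 ∧ core (2 * t) b s β a'.1 a'.2 = core (2 * t) b s β a.1 a.2 then μ a'.1 else 0) := by
      apply Finset.single_le_sum (f := fun a' : V × Fin (2 * t) =>
        (if β a'.1 a'.2 = β a.1 a.2 ∧ core (2 * t) b s β a'.1 a'.2 = core (2 * t) b s β a.1 a.2 then μ a'.1 else 0))
      · intro i _
        split_ifs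
        · exact (hμ _).le
        · exact le_rfl
      · exact Finset.mem_univ a
    simp only [and_self, if_true] at h1
    exact lt_of_lt_of_le (hμ a.1) h1
  let w : (V × Fin (2 * t)) × (V × Fin (2 * t)) → ℝ := fun e =>
    if cond e then (1 / ((2 * t : ℕ) : ℝ)) * (μ e.2.1 / ν (β e.2.1 e.2.2) (core (2 * t) b s β e.2.1 e.2.2)) else 0
  let h : (V × Fin (2 * t)) × (V × Fin (2 * t)) → Fin m → ℤ := fun e =>
    if cond e then lab (2 * t) b m s β e.1 else 0
  have hw0 : ∀ e, 0 ≤ w e := by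
    intro e
    simp only [w]
    split_ifs
    · have := (hνpos e.2 (β e.2.1 e.2.2)).le
      have := (hμ e.2.1).le
      positivity
    · exact le_rfl
  have hmass : ∀ a, ∑ a', w (a, a') = 1 / ((2 * t : ℕ) : ℝ) := by
    intro a
    have h1 : ∀ a', w (a, a') = (1 / ((2 * t : ℕ) : ℝ)) * ((if β a'.1 a'.2 = !(β a.1 a.2) ∧
        core (2 * t) b s β a'.1 a'.2 = core (2 * t) b s β a.1 a.2 then μ a'.1 else 0) / ν (!(β a.1 a.2)) (core (2 * t) b s β a.1 a.2)) := by
      intro a'
      simp only [w, cond]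
      by_cases h2 : β a.1 a.2 ≠ β a'.1 a'.2 ∧ core (2 * t) b s β a.1 a.2 = core (2 * t) b s β a'.1 a'.2
      · have h3 : β a'.1 a'.2 = !(β a.1 a.2) := by
          have := h2.1
          cases hx : β a.1 a.2 <;> cases hy : β a'.1 a'.2 <;> simp_all
        rw [if_pos h2, if_pos ⟨h3, h2.2.symm⟩, h3, h2.2]
      · rw [if_neg h2, if_neg]
        · simp
        · rintro ⟨h3, h4⟩
          apply h2
          refine ⟨?_, h4.symm⟩
          rw [h3]; cases β a.1 a.2 <;> simp
    simp_rw [h1]
    rw [← Finset.mul_sum, ← Finset.sum_div]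
    have h2 := (hνpos a (!(β a.1 a.2))).ne'
    have h3 : (∑ a' : V × Fin (2 * t), (if β a'.1 a'.2 = !(β a.1 a.2) ∧
        core (2 * t) b s β a'.1 a'.2 = core (2 * t) b s β a.1 a.2 then μ a'.1 else 0)) =
        ν (!(β a.1 a.2)) (core (2 * t) b s β a.1 a.2) := rfl
    rw [h3, div_self h2, mul_one]
  have hsumP : ∀ (Pr : V × Fin (2 * t) → Prop) [DecidablePred Pr],
      ∃ T : Finset ((V × Fin (2 * t)) × (V × Fin (2 * t))), (∀ e ∈ T, Pr e.1 ∧ cond e) ∧
      ∑ e ∈ T, w e = ∑ a, if Pr a then 1 / ((2 * t : ℕ) : ℝ) else 0 := by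
    intro Pr _
    refine ⟨univ.filter (fun e : (V × Fin (2 * t)) × (V × Fin (2 * t)) => Pr e.1 ∧ cond e),
      fun e he => (Finset.mem_filter.mp he).2, ?_⟩
    rw [Finset.sum_filter, Fintype.sum_prod_type]
    refine Finset.sum_congr rfl (fun a _ => ?_)
    by_cases hPa : Pr a
    · rw [if_pos hPa, ← hmass a]
      refine Finset.sum_congr rfl (fun a' _ => ?_)
      by_cases hc : cond (a, a')
      · simp [hPa, hc]
      · simp [hc, w]
    · simp [hPa]
  have hw1 : ∀ v, ∑ e : (V × Fin (2 * t)) × (V × Fin (2 * t)), (if e.1.1 = v then w e else 0) = 1 := by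
    intro v
    rw [Fintype.sum_prod_type]
    have h1 : ∀ a : V × Fin (2 * t), ∑ a', (if a.1 = v then w (a, a') else 0) =
        if a.1 = v then 1 / ((2 * t : ℕ) : ℝ) else 0 := by
      intro a
      by_cases hv : a.1 = v
      · simp only [hv, if_true]; rw [← hmass a]
      · simp [hv]
    simp only [h1]
    rw [Fintype.sum_prod_type]
    rw [Finset.sum_eq_single v]
    · simp only [if_true, Finset.sum_const, Finset.card_univ, Fintype.card_fin, nsmul_eq_mul]
      field_simp
    · intro v' _ hv'; simp [hv']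
    · intro hv'; exact absurd (Finset.mem_univ v) hv'
  -- choose vectors
  set ε := min (A - S.N (2 * b) (u 1)) (S.N (2 * t * (b - 2 * t - 2)) (u t) / ((1 + R / θ) * (2 + R / θ)) - ℓ) with hε
  have hC1 : 0 < (1 + R / θ) * (2 + R / θ) := by positivity
  have hεpos : 0 < ε := by
    rw [hε]
    refine lt_min (by linarith) ?_
    rw [sub_pos, lt_div_iff₀ hC1]
    linarith
  obtain ⟨x, hx⟩ := hS m ((univ.image (fun e : Fin t → (V × Fin (2 * t)) × (V × Fin (2 * t)) => ext (∑ j, h (e j)))) ∪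
    (univ.image (fun e : (V × Fin (2 * t)) × (V × Fin (2 * t)) => ext (h e)))) ε hεpos
  have hx1 : ∀ e : (V × Fin (2 * t)) × (V × Fin (2 * t)), ‖∑ i : Fin m, (h e i : ℝ) • x i‖ ≤ A := by
    intro e
    rw [sum_ext]
    by_cases hc : cond e
    · have h1 := hx (ext (h e)) (by
        apply Finset.mem_union_right
        exact Finset.mem_image_of_mem _ (Finset.mem_univ e))
      have h2 : S.N m (ext (h e)) = S.N (2 * b) (u 1) := by
        apply lab_norm S s β hs hsm e.1
        intro i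
        simp only [ext, h, if_pos hc]
        simp
      rw [h2] at h1
      have h3 := (abs_le.mp h1).2
      have h4 : ε ≤ A - S.N (2 * b) (u 1) := min_le_left _ _
      linarith
    · have h2 : ∀ i, ext (h e) i = 0 := by
        intro i
        simp [ext, h, hc]
      simp only [h2, zero_smul, Finset.sum_const_zero, norm_zero]
      have h3 := S.lower (2 * b) (u 1) (2 * b)
      simp at h3
      linarith
  have hApos : 0 ≤ A := by
    have h3 := S.lower (2 * b) (u 1) (2 * b)
    simp at h3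
    linarith
  -- cocycle inequality
  have hcoc := cocycle (V := V) (D := (V × Fin (2 * t)) × (V × Fin (2 * t))) hp hC
    (fun A' μ' h0 h1 h2 h3 h4 f t' ht' => hX.fintype A' μ' h0 h1 h2 h3 h4 f t' ht')
    (fun e => e.1.1) (fun e => e.2.1) (fun e => (e.2, e.1)) w μ h (fun i : Fin m => x i)
    (fun e => rfl) (fun e => rfl) (fun e => rfl) hw0 hw1 (fun v => (hμ v).le) hμ1
    (by
      intro e
      simp only [w, cond]
      by_cases hc : β e.1.1 e.1.2 ≠ β e.2.1 e.2.2 ∧ core (2 * t) b s β e.1.1 e.1.2 = core (2 * t) b s β e.2.1 e.2.2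
      · rw [if_pos hc, if_pos ⟨hc.1.symm, hc.2.symm⟩, hν' (β e.2.1 e.2.2) (β e.1.1 e.1.2), hc.2]
        ring
      · rw [if_neg hc, if_neg]
        · simp
        · rintro ⟨h1, h2⟩; exact hc ⟨h1.symm, h2.symm⟩)
    (by
      intro e
      simp only [h, cond]
      by_cases hc : β e.1.1 e.1.2 ≠ β e.2.1 e.2.2 ∧ core (2 * t) b s β e.1.1 e.1.2 = core (2 * t) b s β e.2.1 e.2.2
      · rw [if_pos hc, if_pos ⟨hc.1.symm, hc.2.symm⟩]
        exact lab_neg s β e.1 e.2 hc.1 hc.2
      · rw [if_neg hc, if_neg]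
        · simp
        · rintro ⟨h1, h2⟩; exact hc ⟨h1.symm, h2.symm⟩)
    t ht
  -- good walks
  set ρ : ℝ := 1 - 1 / ((2 * t : ℕ) : ℝ) with hρ
  have hρ0 : 0 < ρ := by
    rw [hρ, sub_pos, div_lt_one hn1]
    have : 1 < 2 * t := by omega
    exact_mod_cast this
  have hρt : 1 / 2 ≤ ρ ^ t := by
    have h1 := one_add_mul_le_pow (a := -(1 / ((2 * t : ℕ) : ℝ))) (by
      have : 1 / ((2 * t : ℕ) : ℝ) ≤ 1 := by
        rw [div_le_one hn1]
        have : 1 ≤ 2 * t := by omega
        exact_mod_cast this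
      linarith) t
    have h2 : (1 : ℝ) + (t : ℝ) * -(1 / ((2 * t : ℕ) : ℝ)) = 1 / 2 := by
      push_cast
      have : (t : ℝ) ≠ 0 := by
        have : t ≠ 0 := by omega
        exact_mod_cast this
      field_simp
      norm_num
    rw [h2] at h1
    calc (1 : ℝ) / 2 ≤ (1 + -(1 / ((2 * t : ℕ) : ℝ))) ^ t := h1
      _ = ρ ^ t := by rw [hρ]; ring_nf
  have hlowW : ∀ v, ρ ^ t * ℓ ^ p ≤ Wk (fun e : (V × Fin (2 * t)) × (V × Fin (2 * t)) => e.1.1) (fun e => e.2.1) w h
      (fun z => ‖∑ i, (z i : ℝ) • x i‖ ^ p) t v 0 := by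
    intro v
    refine walk_lower (fun e : (V × Fin (2 * t)) × (V × Fin (2 * t)) => e.1.1) (fun e => e.2.1) w h
      (fun z => ‖∑ i, (z i : ℝ) • x i‖ ^ p) (fun z => by positivity) hw0 cond
      (fun e e' => e'.1.2 ≠ e.2.2) ρ (ℓ ^ p) hρ0 (by positivity) t ?_ ?_ ?_ v
    · intro v
      obtain ⟨T, hT, hTs⟩ := hsumP (fun a => a.1 = v)
      refine ⟨T, hT, ?_⟩
      rw [hTs, Fintype.sum_prod_type, Finset.sum_eq_single v]
      · simp only [if_true, Finset.sum_const, Finset.card_univ, Fintype.card_fin, nsmul_eq_mul]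
        have : ((2 * t : ℕ) : ℝ) * (1 / ((2 * t : ℕ) : ℝ)) = 1 := by field_simp
        rw [this, hρ]
        have : 0 < 1 / ((2 * t : ℕ) : ℝ) := by positivity
        linarith
      · intro v' _ hv'; simp [hv']
      · intro hv'; exact absurd (Finset.mem_univ v) hv'
    · intro e0 _
      obtain ⟨T, hT, hTs⟩ := hsumP (fun a => a.1 = e0.2.1 ∧ a.2 ≠ e0.2.2)
      refine ⟨T, fun e he => ⟨(hT e he).1.1, (hT e he).2, (hT e he).1.2⟩, ?_⟩
      · rw [hTs, Fintype.sum_prod_type, Finset.sum_eq_single e0.2.1]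
        · simp only [true_and]
          rw [← Finset.sum_filter, Finset.sum_const, Finset.filter_ne' , Finset.card_erase_of_mem (Finset.mem_univ _),
            Finset.card_univ, Fintype.card_fin, nsmul_eq_mul]
          rw [hρ, Nat.cast_sub (by omega)]
          field_simp
          push_cast
          linarith
        · intro v' _ hv'; simp [hv']
        · intro hv'; exact absurd (Finset.mem_univ e0.2.1) hv'
    · intro e hlive hcons
      -- the path
      have hxe := hx (ext (∑ j : Fin t, h (e j))) (by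
        apply Finset.mem_union_left
        exact Finset.mem_image_of_mem _ (Finset.mem_univ (fun j : Fin t => e j)))
      have hsum : ∑ j ∈ range t, h (e j) = ∑ j : Fin t, h (e j) := Finset.sum_range _
      rw [← hsum] at hxe
      have hmain : ℓ ≤ ‖∑ i ∈ range m, ext (∑ j ∈ range t, h (e j)) i • x i‖ := by
        -- sequences
        let sj : ℕ → ℕ → ℕ := fun j => if j < t then s (e j).1.1 else s (e (t - 1)).2.1
        have hsj : ∀ j, j < t → sj j = s (e j).1.1 := fun j hj => by simp [sj, hj]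
        have hsj' : ∀ j, j < t → sj (j + 1) = s (e j).2.1 := by
          intro j hj
          by_cases hj1 : j + 1 < t
          · rw [hsj (j + 1) hj1, (hcons j hj1).1]
          · have h7 : j = t - 1 := by omega
            show (if j + 1 < t then s (e (j + 1)).1.1 else s (e (t - 1)).2.1) = s (e j).2.1
            rw [if_neg hj1, h7]
        have hsjs : ∀ j, ∃ v, sj j = s v := by
          intro j
          simp only [sj]
          split_ifs
          · exact ⟨_, rfl⟩
          · exact ⟨_, rfl⟩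
        have hA1 : ∀ j, j ≤ t → ∀ i i', i < i' → i' < 2 * (2 * t) * (b + 1) → sj j i < sj j i' := by
          intro j _ i i' hi hi'
          obtain ⟨v, hv⟩ := hsjs j
          rw [hv]; exact hs v i i' hi hi'
        have hA2 : ∀ j, j ≤ t → ∀ i, i < 2 * (2 * t) * (b + 1) → sj j i < m := by
          intro j _ i hi
          obtain ⟨v, hv⟩ := hsjs j
          rw [hv]; exact hsm v i hi
        obtain ⟨ee, hee, hnest⟩ := nest (2 * t) b t ht sj (fun j => ((e j).1.2 : ℕ)) (fun j => ((e j).2.2 : ℕ))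
          (fun j => off (β (e j).1.1 (e j).1.2)) hA1 (fun j _ => (e j).1.2.2) (fun j _ => (e j).2.2.2)
          (fun j _ => off_le _)
          (by
            intro j hj q hq
            rw [hsj j hj, hsj' j hj, ← off_not _ _ (hlive j hj).1]
            exact congrFun (hlive j hj).2 ⟨q, hq⟩)
          (by
            intro j hj hcc
            apply (hcons j hj).2
            exact Fin.ext hcc)
        have hpat := pattern hθ hR S (2 * t) b m t ht hb
          (fun M P Q H h1 h2 h3 h4 h5 h6 h7 h8 h9 =>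
            nested_norm hθ hR S (interval_bound hθ hR S) t M m ht h1 P Q h2 h3 h4 h5 h6 H h7 h8 h9)
          sj (fun j => ((e j).1.2 : ℕ)) (fun j => off (β (e j).1.1 (e j).1.2)) hA1 hA2
          (fun j _ => (e j).1.2.2) (fun j _ => off_le _) ee hee hnest
        have hH : S.N m (fun x => ∑ j ∈ range t, ∑ q ∈ range (2 * b),
            if sj j (idx (2 * t) ((e j).1.2 : ℕ) (q + off (β (e j).1.1 (e j).1.2))) = x then
              (-1 : ℝ) ^ (q + off (β (e j).1.1 (e j).1.2) + 1) else 0) =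
            S.N m (ext (∑ j ∈ range t, h (e j))) := by
          apply N_congr
          intro i hi
          simp only [ext, dif_pos hi, Finset.sum_apply]
          push_cast
          refine Finset.sum_congr rfl (fun j hj => ?_)
          have hj' := Finset.mem_range.mp hj
          have hcj : cond (e j) := hlive j hj'
          simp only [h, if_pos hcj, lab]
          push_cast
          refine Finset.sum_congr rfl (fun q _ => ?_)
          rw [hsj j hj']
        rw [hH] at hpat
        have h3 := (abs_le.mp hxe).1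
        have h4 : ε ≤ S.N (2 * t * (b - 2 * t - 2)) (u t) / ((1 + R / θ) * (2 + R / θ)) - ℓ := min_le_right _ _
        have h5 : S.N (2 * t * (b - 2 * t - 2)) (u t) / ((1 + R / θ) * (2 + R / θ)) ≤
            S.N m (ext (∑ j ∈ range t, h (e j))) := by
          rw [div_le_iff₀ hC1]
          linarith
        linarith
      have h9 := sum_ext (∑ j ∈ range t, h (e j)) x
      show ℓ ^ p ≤ ‖∑ i, ((∑ j ∈ range t, h (e j)) i : ℝ) • x i‖ ^ p
      rw [h9]
      exact Real.rpow_le_rpow hℓ.le hmain (by linarith)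
  -- conclusion
  have hL : ρ ^ t * ℓ ^ p ≤ ∑ v, μ v * Wk (fun e : (V × Fin (2 * t)) × (V × Fin (2 * t)) => e.1.1) (fun e => e.2.1) w h
      (fun z => ‖∑ i, (z i : ℝ) • x i‖ ^ p) t v 0 := by
    calc ρ ^ t * ℓ ^ p = ∑ v, μ v * (ρ ^ t * ℓ ^ p) := by rw [← Finset.sum_mul, hμ1, one_mul]
      _ ≤ _ := Finset.sum_le_sum (fun v _ => mul_le_mul_of_nonneg_left (hlowW v) (hμ v).le)
  have hU : ∑ e : (V × Fin (2 * t)) × (V × Fin (2 * t)), μ e.1.1 * w e * ‖∑ i, (h e i : ℝ) • x i‖ ^ p ≤ A ^ p := by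
    calc ∑ e : (V × Fin (2 * t)) × (V × Fin (2 * t)), μ e.1.1 * w e * ‖∑ i, (h e i : ℝ) • x i‖ ^ p
        ≤ ∑ e : (V × Fin (2 * t)) × (V × Fin (2 * t)), μ e.1.1 * w e * A ^ p := by
          refine Finset.sum_le_sum (fun e _ => mul_le_mul_of_nonneg_left ?_ (mul_nonneg (hμ _).le (hw0 e)))
          exact Real.rpow_le_rpow (norm_nonneg _) (hx1 e) (by linarith)
      _ = (∑ e : (V × Fin (2 * t)) × (V × Fin (2 * t)), μ e.1.1 * w e) * A ^ p := by rw [Finset.sum_mul]
      _ = A ^ p := by
          have h1 : ∑ e : (V × Fin (2 * t)) × (V × Fin (2 * t)), μ e.1.1 * w e = 1 := by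
            have h2 : ∀ e : (V × Fin (2 * t)) × (V × Fin (2 * t)), μ e.1.1 * w e =
                ∑ v, μ v * (if e.1.1 = v then w e else 0) := by
              intro e
              rw [Finset.sum_eq_single e.1.1]
              · simp
              · intro v _ hv; simp [hv.symm]
              · intro hv; exact absurd (Finset.mem_univ _) hv
            simp_rw [h2]
            rw [Finset.sum_comm]
            simp_rw [← Finset.mul_sum, hw1, mul_one]
            exact hμ1
          rw [h1, one_mul]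
  have hlp : 0 ≤ ℓ ^ p := by positivity
  calc (1 / 2) * ℓ ^ p ≤ ρ ^ t * ℓ ^ p := mul_le_mul_of_nonneg_right hρt hlp
    _ ≤ _ := hL
    _ ≤ _ := hcoc
    _ ≤ C * t * A ^ p := mul_le_mul_of_nonneg_left hU (by positivity)

theorem main_false {X : Type*} [NormedAddCommGroup X] [NormedSpace ℝ X] {p C : ℝ} (hp : 1 < p) (hC : 0 ≤ C)
    (hX : MT X p C) {R θ : ℝ} (hθ : 0 < θ) (hR : 0 < R) (S : SpreadNorm R θ) (hS : Repr S X) : False := by
  set C1 : ℝ := (1 + R / θ) * (2 + R / θ) with hC1
  have hC1pos : 0 < C1 := by positivity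
  -- choose t
  obtain ⟨t, ht1, ht2⟩ : ∃ t : ℕ, 1 ≤ t ∧ 2 * C * (8 * C1) ^ p < (t : ℝ) ^ (p - 1) := by
    have h1 : Tendsto (fun n : ℕ => (n : ℝ) ^ (p - 1)) atTop atTop :=
      (tendsto_rpow_atTop (by linarith)).comp tendsto_natCast_atTop_atTop
    obtain ⟨t, ht⟩ := ((h1.eventually_gt_atTop (2 * C * (8 * C1) ^ p)).and (eventually_ge_atTop 1)).exists
    exact ⟨t, ht.2, ht.1⟩
  obtain ⟨K, b', hK, hb', hpig⟩ := pigeon hθ hR.le S t (2 * t + 2) 1 ht1 le_rfl
  have hKpos : (0 : ℝ) < K := by exact_mod_cast hK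
  have htpos : (0 : ℝ) < t := by exact_mod_cast ht1
  set S' := blow S K hK with hS'
  have hS'X : Repr S' X := blow_repr S K hK X hS
  have hratio : (R * K) / (θ * K) = R / θ := by
    rw [mul_div_mul_right _ _ hKpos.ne']
  set A0 := S'.N (2 * (b' + (2 * t + 2))) (u 1) with hA0
  have h1 : A0 = S.N (2 * K * (b' + (2 * t + 2))) (u K) := by
    have := blow_u S K hK 1 (b' + (2 * t + 2)) le_rfl
    simp only [mul_one, one_mul] at this
    rw [hA0, hS', this]
  have h2 : S'.N (2 * t * b') (u t) = S.N (2 * (t * K) * b') (u (t * K)) := blow_u S K hK t b' ht1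
  rw [← h1, ← h2] at hpig
  have hA0pos : 0 < A0 := by
    have h3 := S'.lower (2 * (b' + (2 * t + 2))) (u 1) (2 * (b' + (2 * t + 2)) - 1)
    have h4 : Ico (2 * (b' + (2 * t + 2)) - 1) (2 * (b' + (2 * t + 2))) = {2 * (b' + (2 * t + 2)) - 1} := by
      ext x; simp only [Finset.mem_Ico, Finset.mem_singleton]; omega
    rw [h4, Finset.sum_singleton] at h3
    have h5 : |u 1 (2 * (b' + (2 * t + 2)) - 1)| = 1 := by
      unfold u; split_ifs <;> simp
    rw [h5, mul_one] at h3
    have : 0 < θ * K := by positivity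
    linarith
  have hkey := key hp hC hX (θ := θ * K) (R := R * K) (by positivity) (by positivity) S' hS'X t (b' + (2 * t + 2)) ht1 (by omega)
    (2 * A0) (t * A0 / (4 * C1)) (by positivity) (by linarith)
    (by
      rw [hratio, ← hC1]
      have h3 : b' + (2 * t + 2) - 2 * t - 2 = b' := by omega
      rw [h3]
      have h4 : C1 * (t * A0 / (4 * C1)) = t * A0 / 4 := by
        field_simp
      rw [h4]
      have : 0 < (t : ℝ) * A0 := by positivity
      linarith)
  -- arithmetic
  have e1 : ((t : ℝ) * A0 / (4 * C1)) ^ p = (t : ℝ) ^ p * A0 ^ p / (4 * C1) ^ p := by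
    rw [Real.div_rpow (by positivity) (by positivity), Real.mul_rpow (by positivity) (by positivity)]
  have e2 : (2 * A0) ^ p = 2 ^ p * A0 ^ p := Real.mul_rpow (by positivity) (by positivity)
  rw [e1, e2] at hkey
  have hAp : 0 < A0 ^ p := by positivity
  have h4p : 0 < (4 * C1) ^ p := by positivity
  have e3 : (8 * C1) ^ p = 2 ^ p * (4 * C1) ^ p := by
    rw [← Real.mul_rpow (by positivity) (by positivity)]; ring_nf
  have h5 : (t : ℝ) ^ p ≤ 2 * C * t * (8 * C1) ^ p := by
    have h6 : (1 / 2) * ((t : ℝ) ^ p * A0 ^ p / (4 * C1) ^ p) * (2 * (4 * C1) ^ p / A0 ^ p) ≤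
        C * t * (2 ^ p * A0 ^ p) * (2 * (4 * C1) ^ p / A0 ^ p) :=
      mul_le_mul_of_nonneg_right hkey (by positivity)
    have h7 : (1 / 2) * ((t : ℝ) ^ p * A0 ^ p / (4 * C1) ^ p) * (2 * (4 * C1) ^ p / A0 ^ p) = (t : ℝ) ^ p := by
      field_simp
    have h8 : C * t * (2 ^ p * A0 ^ p) * (2 * (4 * C1) ^ p / A0 ^ p) = 2 * C * t * (8 * C1) ^ p := by
      rw [e3]; field_simp
    rw [h7, h8] at h6
    exact h6
  have h6 : (t : ℝ) ^ p = t * (t : ℝ) ^ (p - 1) := by
    rw [Real.rpow_sub_one htpos.ne']; field_simp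
  rw [h6] at h5
  have h7 : (t : ℝ) ^ (p - 1) ≤ 2 * C * (8 * C1) ^ p := by
    have : (t : ℝ) * (t : ℝ) ^ (p - 1) ≤ t * (2 * C * (8 * C1) ^ p) := by linarith
    exact le_of_mul_le_mul_left this htpos
  linarith

end Pool.Agent.Helper256.Ball
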